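import Mathlib

set_option autoImplicit false

open Metric Set

namespace Pool.Agent.Y265.NumInd

section general

variable {E : Type} [NormedAddCommGroup E] [NormedSpace ℂ E]

/-- In a nontrivial space there is a pair in `Π(E)`. -/
lemma exists_pair [Nontrivial E] : ∃ (x : E) (f : E →L[ℂ] ℂ), ‖x‖ = 1 ∧ ‖f‖ = 1 ∧ f x = 1 := by
  obtain ⟨x, hx⟩ := exists_norm_eq E (c := (1:ℝ)) zero_le_one
  have hx0 : ‖x‖ ≠ 0 := by
    rw [hx]; exact one_ne_zero
  obtain ⟨g, hg, hgx⟩ := exists_dual_vector ℂ x hx0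
  refine ⟨x, g, hx, hg, ?_⟩
  rw [hgx, hx]; norm_num

/-- For every `x` in the closed unit ball there is a unit vector at which the norm of the entire function
is at least as large. -/
lemma max_mod [Nontrivial E] {F : Type} [NormedAddCommGroup F] [NormedSpace ℂ F] (p : E → F)
    (hp : ∀ u : E, Differentiable ℂ (fun z : ℂ => p (z • u))) (x0 : E) (hx0 : ‖x0‖ ≤ 1) :
    ∃ x1 : E, ‖x1‖ = 1 ∧ ‖p x0‖ ≤ ‖p x1‖ := by
  obtain ⟨u, hu, hxu⟩ : ∃ u : E, ‖u‖ = 1 ∧ x0 = ((‖x0‖ : ℝ) : ℂ) • u := by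
    by_cases h : x0 = 0
    · obtain ⟨x, hx⟩ := exists_norm_eq E (c := (1:ℝ)) zero_le_one
      exact ⟨x, hx, by simp [h]⟩
    · refine ⟨((‖x0‖⁻¹ : ℝ) : ℂ) • x0, ?_, ?_⟩
      · rw [norm_smul]
        simp only [Complex.norm_real, norm_inv, norm_norm]
        exact inv_mul_cancel₀ (norm_ne_zero_iff.mpr h)
      · rw [smul_smul, ← Complex.ofReal_mul, mul_inv_cancel₀ (norm_ne_zero_iff.mpr h)]
        simp
  have hd : DiffContOnCl ℂ (fun z : ℂ => p (z • u)) (ball (0:ℂ) 1) := (hp u).diffContOnCl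
  obtain ⟨z, hz, hmax⟩ := Complex.exists_mem_frontier_isMaxOn_norm (isBounded_ball (x := (0:ℂ)) (r := 1))
    ⟨0, by simp⟩ hd
  rw [frontier_ball _ one_ne_zero, mem_sphere_zero_iff_norm] at hz
  refine ⟨z • u, by rw [norm_smul, hz, hu, one_mul], ?_⟩
  have h1 : (((‖x0‖ : ℝ) : ℂ)) ∈ closure (ball (0:ℂ) 1) := by
    rw [closure_ball _ one_ne_zero, mem_closedBall_zero_iff]
    simpa using hx0
  have := hmax h1
  simp only [Set.mem_ofPred_eq, Function.comp] at this
  rwa [← hxu] at this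

/-- Lumer type estimate. -/
lemma lumer {k : ℕ} (A : ContinuousMultilinearMap ℂ (fun _ : Fin k => E) E) (V : ℝ) (hV0 : 0 ≤ V)
    (hV : ∀ (x : E) (f : E →L[ℂ] ℂ), ‖x‖ = 1 → ‖f‖ = 1 → f x = 1 → ‖f (A (fun _ => x))‖ ≤ V)
    (x : E) (hx : ‖x‖ ≤ 1) (ζ : ℂ) (hζ : ‖ζ‖ = 1) (δ : ℝ) (hδ : 0 < δ) (hδ1 : 2 * δ * ‖A‖ < 1) :
    ‖x + ((δ : ℂ) * ζ) • A (fun _ => x)‖ ≤ 1 + δ * V + 3 * k * ‖A‖ ^ 2 * δ ^ 2 := by
  set M := ‖A‖ with hM
  have hM0 : 0 ≤ M := norm_nonneg _
  have hk0 : (0:ℝ) ≤ k := Nat.cast_nonneg k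
  have hAx : ∀ y : E, ‖y‖ ≤ 1 → ‖A (fun _ => y)‖ ≤ M := by
    intro y hy
    refine (A.le_opNorm _).trans ?_
    simp only [Finset.prod_const, Finset.card_univ, Fintype.card_fin]
    have : ‖y‖ ^ k ≤ 1 := pow_le_one₀ (norm_nonneg _) hy
    nlinarith
  set z := x + ((δ : ℂ) * ζ) • A (fun _ => x) with hz
  have hzx : ‖z - x‖ ≤ δ * M := by
    rw [hz, add_sub_cancel_left, norm_smul, norm_mul, hζ, mul_one, Complex.norm_real,
      Real.norm_of_nonneg hδ.le]
    exact mul_le_mul_of_nonneg_left (hAx x hx) hδ.le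
  have hz_le : ‖z‖ ≤ ‖x‖ + δ * M := by
    have := norm_add_le x (z - x)
    rw [add_sub_cancel] at this
    linarith
  have hpos : 0 ≤ δ * V + 3 * k * M ^ 2 * δ ^ 2 := by positivity
  by_cases hcase : ‖x‖ ≤ 1 - δ * M
  · linarith
  · push Not at hcase
    have hz_ge : ‖x‖ - δ * M ≤ ‖z‖ := by
      have := norm_sub_norm_le x (x - z)
      rw [sub_sub_cancel] at this
      have h2 : ‖x - z‖ = ‖z - x‖ := norm_sub_rev _ _
      linarith
    have hzpos : 0 < ‖z‖ := by nlinarith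
    obtain ⟨g, hg, hgz⟩ := exists_dual_vector ℂ z hzpos.ne'
    set z' : E := ((‖z‖⁻¹ : ℝ) : ℂ) • z with hz'
    have hz'1 : ‖z'‖ = 1 := by
      rw [hz', norm_smul]
      simp only [Complex.norm_real, norm_inv, norm_norm]
      exact inv_mul_cancel₀ hzpos.ne'
    have hgz' : g z' = 1 := by
      rw [hz', map_smul, hgz, smul_eq_mul, Complex.ofReal_inv]
      exact inv_mul_cancel₀ (by simpa using hzpos.ne')
    have hVz : ‖g (A (fun _ => z'))‖ ≤ V := hV z' g hz'1 hg hgz'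
    have hz'z : ‖z' - z‖ = |1 - ‖z‖| := by
      have hzz : z = ((‖z‖ : ℝ) : ℂ) • z' := by
        rw [hz', smul_smul, ← Complex.ofReal_mul, mul_inv_cancel₀ hzpos.ne', Complex.ofReal_one,
          one_smul]
      have h3 : z' - ((‖z‖ : ℝ) : ℂ) • z' = (((1 - ‖z‖ : ℝ)) : ℂ) • z' := by
        rw [Complex.ofReal_sub, sub_smul, Complex.ofReal_one, one_smul]
      rw [← hzz] at h3
      rw [h3, norm_smul, hz'1, mul_one, Complex.norm_real, Real.norm_eq_abs]
    have hz'x : ‖z' - x‖ ≤ 3 * δ * M := by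
      have h1 : ‖z' - x‖ ≤ ‖z' - z‖ + ‖z - x‖ := by
        have := norm_add_le (z' - z) (z - x)
        rwa [sub_add_sub_cancel] at this
      have h2 : |1 - ‖z‖| ≤ 2 * δ * M := by
        rw [abs_le]; constructor <;> nlinarith
      rw [hz'z] at h1
      linarith
    have hlip : ‖A (fun _ => x) - A (fun _ => z')‖ ≤ M * k * (3 * δ * M) := by
      have h := A.norm_image_sub_le (fun _ => x) (fun _ => z')
      refine h.trans ?_
      have e1 : max ‖(fun _ : Fin k => x)‖ ‖(fun _ : Fin k => z')‖ ≤ 1 := by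
        refine max_le ?_ ?_
        · exact (pi_norm_le_iff_of_nonneg zero_le_one).2 fun _ => hx
        · exact (pi_norm_le_iff_of_nonneg zero_le_one).2 fun _ => hz'1.le
      have e2 : ‖(fun _ : Fin k => x) - (fun _ : Fin k => z')‖ ≤ 3 * δ * M := by
        refine (pi_norm_le_iff_of_nonneg (by positivity)).2 fun _ => ?_
        simp only [Pi.sub_apply]
        rw [norm_sub_rev]; exact hz'x
      have e3 : max ‖(fun _ : Fin k => x)‖ ‖(fun _ : Fin k => z')‖ ^ (Fintype.card (Fin k) - 1) ≤ 1 :=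
        pow_le_one₀ (by positivity) e1
      have e4 : (0:ℝ) ≤ max ‖(fun _ : Fin k => x)‖ ‖(fun _ : Fin k => z')‖ ^ (Fintype.card (Fin k) - 1) := by
        positivity
      rw [Fintype.card_fin] at *
      have e5 : ‖A‖ * k * max ‖(fun _ : Fin k => x)‖ ‖(fun _ : Fin k => z')‖ ^ (k - 1) ≤ M * k := by
        have : 0 ≤ M * k := by positivity
        calc ‖A‖ * k * max ‖(fun _ : Fin k => x)‖ ‖(fun _ : Fin k => z')‖ ^ (k - 1) ≤ (M * k) * 1 :=
              mul_le_mul_of_nonneg_left e3 this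
          _ = M * k := mul_one _
      exact mul_le_mul e5 e2 (norm_nonneg _) (by positivity)
    have hgA : ‖g (A (fun _ => x))‖ ≤ V + M * k * (3 * δ * M) := by
      have h1 : g (A (fun _ => x)) = g (A (fun _ => z')) + g (A (fun _ => x) - A (fun _ => z')) := by
        rw [map_sub]; ring
      rw [h1]
      refine (norm_add_le _ _).trans ?_
      have h2 : ‖g (A (fun _ => x) - A (fun _ => z'))‖ ≤ M * k * (3 * δ * M) := by
        refine (g.le_opNorm _).trans ?_
        rw [hg, one_mul]; exact hlip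
      linarith
    have hfin : ‖z‖ ≤ ‖x‖ + δ * (V + M * k * (3 * δ * M)) := by
      have h1 : g z = g x + ((δ : ℂ) * ζ) * g (A (fun _ => x)) := by
        rw [hz, map_add, map_smul, smul_eq_mul]
      have h2 : ‖g z‖ ≤ ‖g x‖ + ‖((δ : ℂ) * ζ) * g (A (fun _ => x))‖ := by
        rw [h1]; exact norm_add_le _ _
      have h3 : ‖g z‖ = ‖z‖ := by
        rw [hgz]; simp
      have h4 : ‖g x‖ ≤ ‖x‖ := by
        have := g.le_opNorm x
        rwa [hg, one_mul] at this
      have h5 : ‖((δ : ℂ) * ζ) * g (A (fun _ => x))‖ ≤ δ * (V + M * k * (3 * δ * M)) := by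
        rw [norm_mul, norm_mul, hζ, mul_one, Complex.norm_real, Real.norm_of_nonneg hδ.le]
        exact mul_le_mul_of_nonneg_left hgA hδ.le
      linarith
    calc ‖z‖ ≤ ‖x‖ + δ * (V + M * k * (3 * δ * M)) := hfin
      _ ≤ 1 + δ * (V + M * k * (3 * δ * M)) := by linarith
      _ = 1 + δ * V + 3 * k * M ^ 2 * δ ^ 2 := by ring

end general

section CK

variable {X : Type} [NormedAddCommGroup X] [NormedSpace ℂ X]
variable {K : Type} [TopologicalSpace K] [CompactSpace K]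

/-- Composition with a multilinear map on `X` as a multilinear map on `C(K, X)`. -/
noncomputable def lift {k : ℕ} (A : ContinuousMultilinearMap ℂ (fun _ : Fin k => X) X) :
    ContinuousMultilinearMap ℂ (fun _ : Fin k => C(K, X)) C(K, X) :=
  MultilinearMap.mkContinuous
    { toFun := fun f => ⟨fun t => A (fun i => f i t), by
        have := A.cont
        fun_prop⟩
      map_update_add' := by
        intro inst f i x y
        ext t
        have h : ∀ (g : C(K, X)), (fun j => (Function.update f i g j) t)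
            = Function.update (fun j => f j t) i (g t) := by
          intro g; funext j
          by_cases hj : j = i
          · subst hj; simp
          · simp [Function.update_of_ne hj]
        simp only [ContinuousMap.coe_mk, ContinuousMap.add_apply, h, A.map_update_add]
      map_update_smul' := by
        intro inst f i c x
        ext t
        have h : ∀ (g : C(K, X)), (fun j => (Function.update f i g j) t)
            = Function.update (fun j => f j t) i (g t) := by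
          intro g; funext j
          by_cases hj : j = i
          · subst hj; simp
          · simp [Function.update_of_ne hj]
        simp only [ContinuousMap.coe_mk, ContinuousMap.smul_apply, h, A.map_update_smul] }
    ‖A‖ (by
      intro f
      rw [ContinuousMap.norm_le _ (by positivity)]
      intro t
      refine (A.le_opNorm _).trans ?_
      refine mul_le_mul_of_nonneg_left ?_ (norm_nonneg _)
      exact Finset.prod_le_prod (fun _ _ => norm_nonneg _) fun i _ => (f i).norm_coe_le_norm t)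

lemma lift_apply {k : ℕ} (A : ContinuousMultilinearMap ℂ (fun _ : Fin k => X) X)
    (f : Fin k → C(K, X)) (t : K) : lift A f t = A (fun i => f i t) := rfl

/-- The numerical radius of the lifted polynomial is at most that of the polynomial. -/
lemma lift_bound {k : ℕ} (A : ContinuousMultilinearMap ℂ (fun _ : Fin k => X) X)
    (V : ℝ) (hV0 : 0 ≤ V)
    (hV : ∀ (x : X) (f : X →L[ℂ] ℂ), ‖x‖ = 1 → ‖f‖ = 1 → f x = 1 → ‖f (A (fun _ => x))‖ ≤ V)
    (x : C(K, X)) (f : C(K, X) →L[ℂ] ℂ) (hx : ‖x‖ = 1) (hf : ‖f‖ = 1) (hfx : f x = 1) :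
    ‖f (lift A (fun _ => x))‖ ≤ V := by
  set a := f (lift A (fun _ => x)) with ha
  obtain ⟨ζ, hζ, hζa⟩ : ∃ ζ : ℂ, ‖ζ‖ = 1 ∧ ζ * a = ((‖a‖ : ℝ) : ℂ) := by
    by_cases h : a = 0
    · exact ⟨1, by simp, by simp [h]⟩
    · refine ⟨(starRingEnd ℂ a) / (‖a‖ : ℂ), ?_, ?_⟩
      · rw [norm_div, RCLike.norm_conj, Complex.norm_real, norm_norm, div_self (norm_ne_zero_iff.mpr h)]
      · have h2 : ((‖a‖ : ℝ) : ℂ) ≠ 0 := by
          exact_mod_cast norm_ne_zero_iff.mpr h
        rw [div_mul_eq_mul_div, mul_comm, Complex.mul_conj, Complex.normSq_eq_norm_sq]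
        field_simp
        push_cast
        ring
  have key : ∀ δ : ℝ, 0 < δ → 2 * δ * ‖A‖ < 1 → ‖a‖ ≤ V + 3 * k * ‖A‖ ^ 2 * δ := by
    intro δ hδ hδ1
    have h1 : ‖x + ((δ : ℂ) * ζ) • lift A (fun _ => x)‖ ≤ 1 + δ * V + 3 * k * ‖A‖ ^ 2 * δ ^ 2 := by
      rw [ContinuousMap.norm_le _ (by positivity)]
      intro t
      simp only [ContinuousMap.add_apply, ContinuousMap.smul_apply, lift_apply]
      exact lumer A V hV0 hV (x t) ((x.norm_coe_le_norm t).trans hx.le) ζ hζ δ hδ hδ1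
    have h2 : f (x + ((δ : ℂ) * ζ) • lift A (fun _ => x)) = ((1 + δ * ‖a‖ : ℝ) : ℂ) := by
      rw [map_add, map_smul, hfx, smul_eq_mul, ← ha, mul_assoc, hζa]
      push_cast; ring
    have h3 : 1 + δ * ‖a‖ ≤ ‖x + ((δ : ℂ) * ζ) • lift A (fun _ => x)‖ := by
      have := f.le_opNorm (x + ((δ : ℂ) * ζ) • lift A (fun _ => x))
      rw [hf, one_mul, h2, Complex.norm_real, Real.norm_of_nonneg (by positivity)] at this
      exact this
    have h4 : δ * ‖a‖ ≤ δ * (V + 3 * k * ‖A‖ ^ 2 * δ) := by nlinarith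
    exact le_of_mul_le_mul_left h4 hδ
  refine le_of_forall_pos_le_add fun ε hε => ?_
  set C := 3 * k * ‖A‖ ^ 2 with hC
  have hC0 : 0 ≤ C := by positivity
  set δ := min (ε / (C + 1)) (1 / (4 * (‖A‖ + 1))) with hδ
  have hA0 : 0 ≤ ‖A‖ := norm_nonneg _
  have hδ0 : 0 < δ := lt_min (by positivity) (by positivity)
  have hδA : 2 * δ * ‖A‖ < 1 := by
    have h1 : δ ≤ 1 / (4 * (‖A‖ + 1)) := min_le_right _ _
    have h2 : 2 * δ * ‖A‖ ≤ 2 * (1 / (4 * (‖A‖ + 1))) * ‖A‖ := by gcongr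
    refine lt_of_le_of_lt h2 ?_
    rw [show 2 * (1 / (4 * (‖A‖ + 1))) * ‖A‖ = ‖A‖ / (2 * (‖A‖ + 1)) by field_simp; ring]
    rw [div_lt_one (by positivity)]
    linarith
  have h := key δ hδ0 hδA
  have h5 : C * δ ≤ ε := by
    have h1 : δ ≤ ε / (C + 1) := min_le_left _ _
    calc C * δ ≤ C * (ε / (C + 1)) := by gcongr
      _ ≤ (C + 1) * (ε / (C + 1)) := by gcongr; linarith
      _ = ε := by field_simp
  linarith

/-- The direction from `X` to `C(K, X)`, for a positive constant. -/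
lemma up [T2Space K] [Nonempty K] [Nontrivial X] {k : ℕ} (c : ℝ) (hc : 0 < c)
    (hX : ∀ (A : ContinuousMultilinearMap ℂ (fun _ : Fin k => X) X) (y : X), ‖y‖ ≤ 1 →
      ∀ ε : ℝ, 0 < ε →
        ∃ (x : X) (f : X →L[ℂ] ℂ), ‖x‖ = 1 ∧ ‖f‖ = 1 ∧ f x = 1 ∧
          c * ‖A (fun _ => y)‖ - ε < ‖f (A (fun _ => x))‖)
    (A : ContinuousMultilinearMap ℂ (fun _ : Fin k => C(K, X)) C(K, X)) (f0 : C(K, X))
    (hf0 : ‖f0‖ ≤ 1) (ε : ℝ) (hε : 0 < ε) :
    ∃ (x : C(K, X)) (f : C(K, X) →L[ℂ] ℂ), ‖x‖ = 1 ∧ ‖f‖ = 1 ∧ f x = 1 ∧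
      c * ‖A (fun _ => f0)‖ - ε < ‖f (A (fun _ => x))‖ := by
  -- a point where the norm is attained
  obtain ⟨t0, ht0⟩ : ∃ t0 : K, ‖A (fun _ => f0)‖ = ‖A (fun _ => f0) t0‖ := by
    obtain ⟨t0, -, h⟩ := isCompact_univ.exists_isMaxOn univ_nonempty
      ((A (fun _ => f0)).continuous.norm.continuousOn (s := (univ : Set K)))
    refine ⟨t0, le_antisymm ?_ ((A (fun _ => f0)).norm_coe_le_norm t0)⟩
    rw [ContinuousMap.norm_le _ (norm_nonneg _)]
    intro t
    exact h (mem_univ t)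
  set N := ‖A (fun _ => f0)‖ with hN
  set η := ε / (2 * c) with hη
  have hη0 : 0 < η := by positivity
  -- continuity of the value at `t0`
  have hcont : Continuous (fun h : C(K, X) => (A (fun _ => h)) t0) := by
    have h1 : Continuous (fun h : C(K, X) => A (fun _ => h)) :=
      A.cont.comp (continuous_pi fun _ => continuous_id)
    exact (ContinuousMap.evalCLM ℂ t0).continuous.comp h1
  obtain ⟨δ, hδ, hδh⟩ := Metric.continuous_iff.1 hcont f0 η hη0
  -- the bump function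
  set U : Set K := {t | ‖f0 t - f0 t0‖ < δ / 2} with hU
  have hUo : IsOpen U := isOpen_lt (by fun_prop) continuous_const
  have ht0U : t0 ∈ U := by simp [hU, hδ]
  obtain ⟨Ψ, hΨ0, hΨ1, hΨ⟩ := exists_continuous_zero_one_of_isClosed (X := K)
    (s := Uᶜ) (t := {t0}) hUo.isClosed_compl isClosed_singleton
    (by rw [disjoint_singleton_right]; simpa using ht0U)
  have hΨt0 : Ψ t0 = 1 := hΨ1 (mem_singleton _)
  have hmem : ∀ t, 0 ≤ Ψ t ∧ Ψ t ≤ 1 := fun t => hΨ t
  set H : C(K, X) := ⟨fun t => ((1 - Ψ t : ℝ) : ℂ) • f0 t, by fun_prop⟩ with hH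
  let G : X → C(K, X) := fun u => ⟨fun t => ((Ψ t : ℝ) : ℂ) • u, by fun_prop⟩
  have hGapp : ∀ u t, G u t = ((Ψ t : ℝ) : ℂ) • u := fun _ _ => rfl
  have hHapp : ∀ t, H t = ((1 - Ψ t : ℝ) : ℂ) • f0 t := fun _ => rfl
  set x0 := f0 t0 with hx0
  have hx0n : ‖x0‖ ≤ 1 := (f0.norm_coe_le_norm t0).trans hf0
  -- closeness
  have hclose : dist (G x0 + H) f0 < δ := by
    rw [dist_eq_norm]
    refine lt_of_le_of_lt ((ContinuousMap.norm_le _ (by positivity : (0:ℝ) ≤ δ / 2)).2 ?_)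
      (by linarith : δ / 2 < δ)
    intro t
    have e : (G x0 + H - f0) t = ((Ψ t : ℝ) : ℂ) • (x0 - f0 t) := by
      simp only [ContinuousMap.sub_apply, ContinuousMap.add_apply, hGapp, hHapp]
      push_cast
      rw [sub_smul, one_smul, smul_sub]; abel
    rw [e, norm_smul, Complex.norm_real, Real.norm_of_nonneg (hmem t).1]
    by_cases ht : t ∈ U
    · have h1 : ‖x0 - f0 t‖ < δ / 2 := by rw [norm_sub_rev]; exact ht
      calc Ψ t * ‖x0 - f0 t‖ ≤ 1 * ‖x0 - f0 t‖ :=
            mul_le_mul_of_nonneg_right (hmem t).2 (norm_nonneg _)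
        _ ≤ δ / 2 := by rw [one_mul]; exact h1.le
    · have h1 : Ψ t = 0 := hΨ0 ht
      rw [h1, zero_mul]; positivity
  have hval := hδh _ hclose
  -- maximum modulus principle
  obtain ⟨x1, hx1, hmax⟩ := max_mod (fun x : X => (A (fun _ => G x + H)) t0) (by
    intro u
    have e : ∀ z : ℂ, G (z • u) + H = z • G u + H := by
      intro z; ext t
      simp only [ContinuousMap.add_apply, ContinuousMap.smul_apply, hGapp]
      rw [smul_comm]
    simp only [e]
    have h1 : Differentiable ℂ (fun z : ℂ => A (fun _ => z • G u + H)) := by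
      have hA : Differentiable ℂ A := (A.contDiff (n := 1)).differentiable (by norm_num)
      exact hA.comp (differentiable_pi.2 fun _ => (differentiable_id.smul_const _).add_const _)
    exact (ContinuousMap.evalCLM ℂ t0).differentiable.comp h1) x0 hx0n
  have hbig : N - η < ‖(A (fun _ => G x1 + H)) t0‖ := by
    have h1 : ‖(A (fun _ => G x0 + H)) t0 - (A (fun _ => f0)) t0‖ < η := by
      rw [← dist_eq_norm]; exact hval
    have h2 := norm_sub_norm_le ((A (fun _ => f0)) t0) ((A (fun _ => G x0 + H)) t0)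
    rw [norm_sub_rev] at h2
    rw [ht0]
    have h3 : ‖(A (fun _ => G x0 + H)) t0‖ ≤ ‖(A (fun _ => G x1 + H)) t0‖ := hmax
    linarith
  -- the norming functional
  obtain ⟨g, hg, hgx⟩ := exists_dual_vector ℂ x1 (by rw [hx1]; exact one_ne_zero)
  have hgx1 : g x1 = 1 := by rw [hgx, hx1]; norm_num
  let L : X →L[ℂ] C(K, X) := LinearMap.mkContinuous
    { toFun := fun x => g x • H + G x
      map_add' := by
        intro x y; ext t
        simp only [map_add, ContinuousMap.add_apply, ContinuousMap.smul_apply, hGapp, add_smul,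
          smul_add]
        abel
      map_smul' := by
        intro a x; ext t
        simp only [map_smul, smul_eq_mul, ContinuousMap.add_apply, ContinuousMap.smul_apply, hGapp,
          RingHom.id_apply, smul_add, smul_smul]
        rw [mul_comm ((Ψ t : ℝ) : ℂ) a] } 1 (by
    intro x
    rw [one_mul]
    rw [ContinuousMap.norm_le _ (norm_nonneg _)]
    intro t
    change ‖g x • H t + G x t‖ ≤ ‖x‖
    refine (norm_add_le _ _).trans ?_
    rw [hHapp, hGapp, norm_smul, norm_smul, norm_smul, Complex.norm_real, Complex.norm_real,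
      Real.norm_of_nonneg (hmem t).1, Real.norm_of_nonneg (by linarith [(hmem t).2])]
    have h1 : ‖g x‖ ≤ ‖x‖ := by
      have := g.le_opNorm x
      rwa [hg, one_mul] at this
    have h2 : ‖f0 t‖ ≤ 1 := (f0.norm_coe_le_norm t).trans hf0
    have h3 : 0 ≤ 1 - Ψ t := by linarith [(hmem t).2]
    have h4 : ‖g x‖ * ((1 - Ψ t) * ‖f0 t‖) ≤ ‖x‖ * ((1 - Ψ t) * 1) := by gcongr
    calc ‖g x‖ * ((1 - Ψ t) * ‖f0 t‖) + Ψ t * ‖x‖ ≤ ‖x‖ * ((1 - Ψ t) * 1) + Ψ t * ‖x‖ := by gcongr
      _ = ‖x‖ := by ring)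
  have hLapp : ∀ x, L x = g x • H + G x := fun _ => rfl
  have hLn : ∀ x, ‖L x‖ ≤ ‖x‖ := by
    intro x
    have h1 : ‖L‖ ≤ 1 := LinearMap.mkContinuous_norm_le _ zero_le_one _
    calc ‖L x‖ ≤ ‖L‖ * ‖x‖ := L.le_opNorm x
      _ ≤ 1 * ‖x‖ := by gcongr
      _ = ‖x‖ := one_mul _
  have hLt0 : ∀ x, (L x) t0 = x := by
    intro x
    rw [hLapp, ContinuousMap.add_apply, ContinuousMap.smul_apply, hHapp, hGapp, hΨt0]
    simp
  let Q : ContinuousMultilinearMap ℂ (fun _ : Fin k => X) X :=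
    (ContinuousMap.evalCLM ℂ t0).compContinuousMultilinearMap
      (A.compContinuousLinearMap (fun _ => L))
  have hQ : ∀ x, Q (fun _ => x) = (A (fun _ => L x)) t0 := fun _ => rfl
  obtain ⟨x, f, hx, hf, hfx, hlt⟩ := hX Q x1 hx1.le (ε / 2) (by positivity)
  refine ⟨L x, f.comp (ContinuousMap.evalCLM ℂ t0), ?_, ?_, ?_, ?_⟩
  · refine le_antisymm ((hLn x).trans hx.le) ?_
    have := (L x).norm_coe_le_norm t0
    rwa [hLt0, hx] at this
  · refine le_antisymm ?_ ?_
    · refine ContinuousLinearMap.opNorm_le_bound _ zero_le_one ?_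
      intro h
      have h1 := f.le_opNorm (h t0)
      rw [hf, one_mul] at h1
      rw [one_mul]
      exact h1.trans (h.norm_coe_le_norm t0)
    · have h1 := (f.comp (ContinuousMap.evalCLM ℂ t0)).le_opNorm (L x)
      have h2 : (f.comp (ContinuousMap.evalCLM ℂ t0)) (L x) = 1 := by
        change f ((L x) t0) = 1
        rw [hLt0, hfx]
      rw [h2, norm_one] at h1
      have h3 : ‖L x‖ ≤ 1 := (hLn x).trans hx.le
      have h4 : 0 ≤ ‖f.comp (ContinuousMap.evalCLM ℂ t0)‖ := norm_nonneg _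
      nlinarith
  · change f ((L x) t0) = 1
    rw [hLt0, hfx]
  · have h1 : (f.comp (ContinuousMap.evalCLM ℂ t0)) (A (fun _ => L x)) = f (Q (fun _ => x)) := rfl
    rw [h1]
    refine lt_of_le_of_lt ?_ hlt
    have h2 : L x1 = G x1 + H := by
      rw [hLapp, hgx1, one_smul, add_comm]
    rw [hQ, h2]
    have h3 : c * (N - η) ≤ c * ‖(A (fun _ => G x1 + H)) t0‖ :=
      mul_le_mul_of_nonneg_left hbig.le hc.le
    have h4 : c * η = ε / 2 := by rw [hη]; field_simp
    nlinarith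

/-- The direction from `C(K, X)` to `X`, for a positive constant. -/
lemma down [Nonempty K] [Nontrivial X] {k : ℕ} (c : ℝ)
    (hC : ∀ (A : ContinuousMultilinearMap ℂ (fun _ : Fin k => C(K, X)) C(K, X)) (y : C(K, X)),
      ‖y‖ ≤ 1 → ∀ ε : ℝ, 0 < ε →
        ∃ (x : C(K, X)) (f : C(K, X) →L[ℂ] ℂ), ‖x‖ = 1 ∧ ‖f‖ = 1 ∧ f x = 1 ∧
          c * ‖A (fun _ => y)‖ - ε < ‖f (A (fun _ => x))‖)
    (A : ContinuousMultilinearMap ℂ (fun _ : Fin k => X) X) (y : X) (hy : ‖y‖ ≤ 1) (ε : ℝ)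
    (hε : 0 < ε) :
    ∃ (x : X) (f : X →L[ℂ] ℂ), ‖x‖ = 1 ∧ ‖f‖ = 1 ∧ f x = 1 ∧
      c * ‖A (fun _ => y)‖ - ε < ‖f (A (fun _ => x))‖ := by
  by_contra hcon
  push Not at hcon
  have hV0 : 0 ≤ c * ‖A (fun _ => y)‖ - ε := by
    obtain ⟨x, f, hx, hf, hfx⟩ := exists_pair (E := X)
    exact (norm_nonneg _).trans (hcon x f hx hf hfx)
  have hyn : ‖ContinuousMap.const K y‖ ≤ 1 := by
    rw [ContinuousMap.norm_le _ zero_le_one]
    intro t; simpa using hy
  obtain ⟨x, f, hx, hf, hfx, hlt⟩ := hC (lift A) (ContinuousMap.const K y) hyn ε hε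
  have h1 := lift_bound A _ hV0 hcon x f hx hf hfx
  have h2 : ‖lift A (fun _ => ContinuousMap.const K y)‖ = ‖A (fun _ => y)‖ := by
    have : lift A (fun _ => ContinuousMap.const K y) = ContinuousMap.const K (A (fun _ => y)) := by
      ext t; rfl
    rw [this]
    refine le_antisymm ?_ ?_
    · rw [ContinuousMap.norm_le _ (norm_nonneg _)]
      intro t; rfl
    · exact (ContinuousMap.const K (A (fun _ => y))).norm_coe_le_norm (Classical.arbitrary K)
  rw [h2] at hlt
  exact absurd hlt (not_lt.2 h1)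

end CK

end Pool.Agent.Y265.NumInd
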