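import Mathlib
import Pool.Agent.Y265.NumInd

set_option autoImplicit false

open Metric Set Filter
open scoped ENNReal Topology

namespace Pool.Agent.Y265.NumInd

section abs

variable {Z : Type} [NormedAddCommGroup Z] [NormedSpace ℂ Z]

/-- From an estimate of the norm along rays to an estimate of the numerical range. -/
lemma of_rays (z w : Z) (f : Z →L[ℂ] ℂ) (hf : ‖f‖ = 1) (hfz : f z = 1)
    (V C D : ℝ) (hC : 0 ≤ C) (hD : 0 ≤ D)
    (h : ∀ ζ : ℂ, ‖ζ‖ = 1 → ∀ δ : ℝ, 0 < δ → 2 * δ * D < 1 →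
      ‖z + ((δ : ℂ) * ζ) • w‖ ≤ 1 + δ * V + C * δ ^ 2) : ‖f w‖ ≤ V := by
  set a := f w with ha
  obtain ⟨ζ, hζ, hζa⟩ : ∃ ζ : ℂ, ‖ζ‖ = 1 ∧ ζ * a = ((‖a‖ : ℝ) : ℂ) := by
    by_cases h : a = 0
    · exact ⟨1, by simp, by simp [h]⟩
    · refine ⟨(starRingEnd ℂ a) / (‖a‖ : ℂ), ?_, ?_⟩
      · rw [norm_div, RCLike.norm_conj, Complex.norm_real, norm_norm, div_self (norm_ne_zero_iff.mpr h)]
      · have h2 : ((‖a‖ : ℝ) : ℂ) ≠ 0 := by
          exact_mod_cast norm_ne_zero_iff.mpr h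
        rw [div_mul_eq_mul_div, mul_comm, Complex.mul_conj, Complex.normSq_eq_norm_sq]
        field_simp
        push_cast
        ring
  have key : ∀ δ : ℝ, 0 < δ → 2 * δ * D < 1 → ‖a‖ ≤ V + C * δ := by
    intro δ hδ hδ1
    have h1 := h ζ hζ δ hδ hδ1
    have h2 : f (z + ((δ : ℂ) * ζ) • w) = ((1 + δ * ‖a‖ : ℝ) : ℂ) := by
      rw [map_add, map_smul, hfz, smul_eq_mul, ← ha, mul_assoc, hζa]
      push_cast; ring
    have h3 : 1 + δ * ‖a‖ ≤ ‖z + ((δ : ℂ) * ζ) • w‖ := by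
      have := f.le_opNorm (z + ((δ : ℂ) * ζ) • w)
      rw [hf, one_mul, h2, Complex.norm_real, Real.norm_of_nonneg (by positivity)] at this
      exact this
    have h4 : δ * ‖a‖ ≤ δ * (V + C * δ) := by nlinarith
    exact le_of_mul_le_mul_left h4 hδ
  refine le_of_forall_pos_le_add fun ε hε => ?_
  set δ := min (ε / (C + 1)) (1 / (4 * (D + 1))) with hδ
  have hδ0 : 0 < δ := lt_min (by positivity) (by positivity)
  have hδA : 2 * δ * D < 1 := by
    have h1 : δ ≤ 1 / (4 * (D + 1)) := min_le_right _ _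
    have h2 : 2 * δ * D ≤ 2 * (1 / (4 * (D + 1))) * D := by gcongr
    refine lt_of_le_of_lt h2 ?_
    rw [show 2 * (1 / (4 * (D + 1))) * D = D / (2 * (D + 1)) by field_simp; ring]
    rw [div_lt_one (by positivity)]
    linarith
  have h := key δ hδ0 hδA
  have h5 : C * δ ≤ ε := by
    have h1 : δ ≤ ε / (C + 1) := min_le_left _ _
    calc C * δ ≤ C * (ε / (C + 1)) := by gcongr
      _ ≤ (C + 1) * (ε / (C + 1)) := by gcongr; linarith
      _ = ε := by field_simp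
  linarith

/-- `c ‖P‖ ≤ v(P)` for all `k`-homogeneous polynomials `P` on `E`. -/
def W (E : Type) [NormedAddCommGroup E] [NormedSpace ℂ E] (k : ℕ) (c : ℝ) : Prop :=
  ∀ (A : ContinuousMultilinearMap ℂ (fun _ : Fin k => E) E) (y : E), ‖y‖ ≤ 1 →
    ∀ ε : ℝ, 0 < ε →
      ∃ (x : E) (f : E →L[ℂ] ℂ), ‖x‖ = 1 ∧ ‖f‖ = 1 ∧ f x = 1 ∧
        c * ‖A (fun _ => y)‖ - ε < ‖f (A (fun _ => x))‖

variable {Λ : Type} {X : Λ → Type} [∀ i, NormedAddCommGroup (X i)] [∀ i, NormedSpace ℂ (X i)]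

/-- The structure of a sup-sum: coordinate projections and injections. -/
structure SupSum (Z : Type) [NormedAddCommGroup Z] [NormedSpace ℂ Z] (X : Λ → Type)
    [∀ i, NormedAddCommGroup (X i)] [∀ i, NormedSpace ℂ (X i)] where
  π : ∀ i, Z →L[ℂ] X i
  ι : ∀ i, X i →L[ℂ] Z
  π_le : ∀ i z, ‖π i z‖ ≤ ‖z‖
  π_ι : ∀ i x, π i (ι i x) = x
  π_ι_ne : ∀ i j x, j ≠ i → π j (ι i x) = 0
  norm_le : ∀ z M, 0 ≤ M → (∀ i, ‖π i z‖ ≤ M) → ‖z‖ ≤ M

lemma W_up [∀ i, Nontrivial (X i)] [Nonempty Λ] (S : SupSum Z X) (k : ℕ) (c : ℝ)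
    (hX : ∀ i, W (X i) k c) : W Z k c := by
  classical
  intro A f0 hf0 ε hε
  set N := ‖A (fun _ => f0)‖ with hN
  -- a nonpositive constant is trivial; the argument below needs a pair in the sum
  set η := ε / (2 * (|c| + 1)) with hη
  have hη0 : 0 < η := by positivity
  obtain ⟨i, hi⟩ : ∃ i, N - η < ‖S.π i (A (fun _ => f0))‖ := by
    by_contra hcon
    push Not at hcon
    have i0 : Λ := Classical.arbitrary Λ
    have hM : 0 ≤ N - η := (norm_nonneg _).trans (hcon i0)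
    have := S.norm_le _ _ hM hcon
    linarith
  set x0 := S.π i f0 with hx0
  have hx0n : ‖x0‖ ≤ 1 := (S.π_le i f0).trans hf0
  set H := f0 - S.ι i x0 with hH
  have hπH : S.π i H = 0 := by rw [hH, map_sub, S.π_ι, sub_self]
  have hπH_ne : ∀ j, j ≠ i → S.π j H = S.π j f0 := by
    intro j hj; rw [hH, map_sub, S.π_ι_ne i j _ hj, sub_zero]
  obtain ⟨x1, hx1, hmax⟩ := max_mod (fun x : X i => S.π i (A (fun _ => S.ι i x + H))) (by
    intro u
    have e : ∀ z : ℂ, S.ι i (z • u) + H = z • S.ι i u + H := by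
      intro z; rw [map_smul]
    simp only [e]
    have h1 : Differentiable ℂ (fun z : ℂ => A (fun _ => z • S.ι i u + H)) := by
      have hA : Differentiable ℂ A := (A.contDiff (n := 1)).differentiable (by norm_num)
      exact hA.comp (differentiable_pi.2 fun _ => (differentiable_id.smul_const _).add_const _)
    exact (S.π i).differentiable.comp h1) x0 hx0n
  have hbig : N - η < ‖S.π i (A (fun _ => S.ι i x1 + H))‖ := by
    have e : S.ι i x0 + H = f0 := by rw [hH]; abel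
    have h3 : ‖S.π i (A (fun _ => S.ι i x0 + H))‖ ≤ ‖S.π i (A (fun _ => S.ι i x1 + H))‖ := hmax
    rw [e] at h3
    linarith
  obtain ⟨g, hg, hgx⟩ := exists_dual_vector ℂ x1 (by rw [hx1]; exact one_ne_zero)
  have hgx1 : g x1 = 1 := by rw [hgx, hx1]; norm_num
  let L : X i →L[ℂ] Z := S.ι i + g.smulRight H
  have hLapp : ∀ x, L x = S.ι i x + g x • H := fun _ => rfl
  have hπL : ∀ x, S.π i (L x) = x := by
    intro x; rw [hLapp, map_add, map_smul, hπH, smul_zero, add_zero, S.π_ι]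
  have hLn : ∀ x, ‖L x‖ ≤ ‖x‖ := by
    intro x
    refine S.norm_le _ _ (norm_nonneg _) fun j => ?_
    by_cases hj : j = i
    · subst hj; rw [hπL]
    · rw [hLapp, map_add, map_smul, S.π_ι_ne i j _ hj, zero_add, hπH_ne j hj, norm_smul]
      have h1 : ‖g x‖ ≤ ‖x‖ := by
        have := g.le_opNorm x
        rwa [hg, one_mul] at this
      have h2 : ‖S.π j f0‖ ≤ 1 := (S.π_le j f0).trans hf0
      calc ‖g x‖ * ‖S.π j f0‖ ≤ ‖x‖ * 1 := by gcongr
        _ = ‖x‖ := mul_one _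
  let Q : ContinuousMultilinearMap ℂ (fun _ : Fin k => X i) (X i) :=
    (S.π i).compContinuousMultilinearMap (A.compContinuousLinearMap (fun _ => L))
  have hQ : ∀ x, Q (fun _ => x) = S.π i (A (fun _ => L x)) := fun _ => rfl
  obtain ⟨x, f, hx, hf, hfx, hlt⟩ := hX i Q x1 hx1.le (ε / 2) (by positivity)
  refine ⟨L x, f.comp (S.π i), ?_, ?_, ?_, ?_⟩
  · refine le_antisymm ((hLn x).trans hx.le) ?_
    have := S.π_le i (L x)
    rwa [hπL, hx] at this
  · refine le_antisymm ?_ ?_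
    · refine ContinuousLinearMap.opNorm_le_bound _ zero_le_one ?_
      intro h
      have h1 := f.le_opNorm (S.π i h)
      rw [hf, one_mul] at h1
      rw [one_mul]
      exact h1.trans (S.π_le i h)
    · have h1 := (f.comp (S.π i)).le_opNorm (L x)
      have h2 : (f.comp (S.π i)) (L x) = 1 := by
        change f (S.π i (L x)) = 1
        rw [hπL, hfx]
      rw [h2, norm_one] at h1
      have h3 : ‖L x‖ ≤ 1 := (hLn x).trans hx.le
      have h4 : 0 ≤ ‖f.comp (S.π i)‖ := norm_nonneg _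
      nlinarith
  · change f (S.π i (L x)) = 1
    rw [hπL, hfx]
  · have h1 : (f.comp (S.π i)) (A (fun _ => L x)) = f (Q (fun _ => x)) := rfl
    rw [h1]
    have h2 : L x1 = S.ι i x1 + H := by
      rw [hLapp, hgx1, one_smul]
    rcases lt_or_ge 0 c with hc | hc
    · refine lt_of_le_of_lt ?_ hlt
      rw [hQ, h2]
      have h3 : c * (N - η) ≤ c * ‖S.π i (A (fun _ => S.ι i x1 + H))‖ :=
        mul_le_mul_of_nonneg_left hbig.le hc.le
      have h4 : c * η ≤ ε / 2 := by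
        rw [hη, abs_of_pos hc]
        rw [mul_div_assoc', div_le_div_iff₀ (by positivity) (by positivity)]
        nlinarith
      nlinarith
    · refine lt_of_lt_of_le ?_ (norm_nonneg _)
      have : c * N ≤ 0 := mul_nonpos_of_nonpos_of_nonneg hc (norm_nonneg _)
      linarith

lemma W_down [∀ i, Nontrivial (X i)] (S : SupSum Z X) (k : ℕ) (c : ℝ)
    (hZ : W Z k c) (i : Λ) : W (X i) k c := by
  classical
  intro A y hy ε hε
  by_contra hcon
  push Not at hcon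
  set V := c * ‖A (fun _ => y)‖ - ε with hV
  have hV0 : 0 ≤ V := by
    obtain ⟨x, f, hx, hf, hfx⟩ := exists_pair (E := X i)
    exact (norm_nonneg _).trans (hcon x f hx hf hfx)
  have hιn : ∀ x, ‖S.ι i x‖ = ‖x‖ := by
    intro x
    refine le_antisymm (S.norm_le _ _ (norm_nonneg _) fun j => ?_) ?_
    · by_cases hj : j = i
      · subst hj; rw [S.π_ι]
      · rw [S.π_ι_ne i j _ hj, norm_zero]; exact norm_nonneg _
    · have := S.π_le i (S.ι i x)
      rwa [S.π_ι] at this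
  let B : ContinuousMultilinearMap ℂ (fun _ : Fin k => Z) Z :=
    (S.ι i).compContinuousMultilinearMap (A.compContinuousLinearMap (fun _ => S.π i))
  have hB : ∀ z, B (fun _ => z) = S.ι i (A (fun _ => S.π i z)) := fun _ => rfl
  obtain ⟨z, f, hz, hf, hfz, hlt⟩ := hZ B (S.ι i y) (by rw [hιn]; exact hy) ε hε
  have h2 : ‖B (fun _ => S.ι i y)‖ = ‖A (fun _ => y)‖ := by
    rw [hB, hιn, S.π_ι]
  rw [h2] at hlt
  have h3 : ‖f (B (fun _ => z))‖ ≤ V := by
    refine of_rays z (B (fun _ => z)) f hf hfz V (3 * k * ‖A‖ ^ 2) ‖A‖ (by positivity)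
      (norm_nonneg _) ?_
    intro ζ hζ δ hδ hδ1
    refine S.norm_le _ _ (by positivity) fun j => ?_
    by_cases hj : j = i
    · subst hj
      rw [map_add, map_smul, hB, S.π_ι]
      exact lumer A V hV0 hcon (S.π j z) ((S.π_le j z).trans hz.le) ζ hζ δ hδ hδ1
    · rw [map_add, map_smul, hB, S.π_ι_ne i j _ hj, smul_zero, add_zero]
      have h4 : ‖S.π j z‖ ≤ 1 := (S.π_le j z).trans hz.le
      have h5 : 0 ≤ δ * V + 3 * k * ‖A‖ ^ 2 * δ ^ 2 := by positivity
      linarith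
  exact absurd hlt (not_lt.2 h3)

/-- The norm of the polynomial of a multilinear map. -/
noncomputable def pnorm {E : Type} [NormedAddCommGroup E] [NormedSpace ℂ E] {k : ℕ}
    (A : ContinuousMultilinearMap ℂ (fun _ : Fin k => E) E) : ℝ :=
  sSup {s : ℝ | ∃ x : E, ‖x‖ ≤ 1 ∧ s = ‖A (fun _ => x)‖}

/-- The numerical radius of the polynomial of a multilinear map. -/
noncomputable def prad {E : Type} [NormedAddCommGroup E] [NormedSpace ℂ E] {k : ℕ}
    (A : ContinuousMultilinearMap ℂ (fun _ : Fin k => E) E) : ℝ :=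
  sSup {s : ℝ | ∃ (x : E) (φ : E →L[ℂ] ℂ), ‖x‖ = 1 ∧ ‖φ‖ = 1 ∧ φ x = 1 ∧
    s = ‖φ (A (fun _ => x))‖}

section numind

variable {E : Type} [NormedAddCommGroup E] [NormedSpace ℂ E] {k : ℕ}

lemma norm_diag_le (A : ContinuousMultilinearMap ℂ (fun _ : Fin k => E) E) {y : E} (hy : ‖y‖ ≤ 1) :
    ‖A (fun _ => y)‖ ≤ ‖A‖ := by
  refine (A.le_opNorm _).trans ?_
  simp only [Finset.prod_const, Finset.card_univ, Fintype.card_fin]
  have h1 : ‖y‖ ^ k ≤ 1 := pow_le_one₀ (norm_nonneg _) hy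
  nlinarith [norm_nonneg A]

lemma bdd_pnorm (A : ContinuousMultilinearMap ℂ (fun _ : Fin k => E) E) :
    BddAbove {s : ℝ | ∃ x : E, ‖x‖ ≤ 1 ∧ s = ‖A (fun _ => x)‖} := by
  refine ⟨‖A‖, ?_⟩
  rintro _ ⟨x, hx, rfl⟩
  exact norm_diag_le A hx

lemma le_pnorm (A : ContinuousMultilinearMap ℂ (fun _ : Fin k => E) E) {y : E} (hy : ‖y‖ ≤ 1) :
    ‖A (fun _ => y)‖ ≤ pnorm A := le_csSup (bdd_pnorm A) ⟨y, hy, rfl⟩

lemma bdd_prad (A : ContinuousMultilinearMap ℂ (fun _ : Fin k => E) E) :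
    BddAbove {s : ℝ | ∃ (x : E) (φ : E →L[ℂ] ℂ), ‖x‖ = 1 ∧ ‖φ‖ = 1 ∧ φ x = 1 ∧
      s = ‖φ (A (fun _ => x))‖} := by
  refine ⟨‖A‖, ?_⟩
  rintro _ ⟨x, φ, hx, hφ, -, rfl⟩
  refine (φ.le_opNorm _).trans ?_
  rw [hφ, one_mul]
  exact norm_diag_le A hx.le

lemma le_prad (A : ContinuousMultilinearMap ℂ (fun _ : Fin k => E) E) {x : E} {φ : E →L[ℂ] ℂ}
    (hx : ‖x‖ = 1) (hφ : ‖φ‖ = 1) (hφx : φ x = 1) : ‖φ (A (fun _ => x))‖ ≤ prad A :=
  le_csSup (bdd_prad A) ⟨x, φ, hx, hφ, hφx, rfl⟩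

lemma prad_nonneg (A : ContinuousMultilinearMap ℂ (fun _ : Fin k => E) E) : 0 ≤ prad A := by
  refine Real.sSup_nonneg ?_
  rintro _ ⟨x, φ, -, -, -, rfl⟩
  exact norm_nonneg _

/-- The polynomial numerical index of order `k`. -/
noncomputable def nind (E : Type) [NormedAddCommGroup E] [NormedSpace ℂ E] (k : ℕ) : ℝ :=
  sInf {r : ℝ | ∃ A : ContinuousMultilinearMap ℂ (fun _ : Fin k => E) E, pnorm A = 1 ∧ r = prad A}

lemma bdd_nind : BddBelow {r : ℝ | ∃ A : ContinuousMultilinearMap ℂ (fun _ : Fin k => E) E,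
    pnorm A = 1 ∧ r = prad A} := by
  refine ⟨0, ?_⟩
  rintro _ ⟨A, -, rfl⟩
  exact prad_nonneg A

lemma nind_nonneg : 0 ≤ nind E k := by
  refine Real.sInf_nonneg ?_
  rintro _ ⟨A, -, rfl⟩
  exact prad_nonneg A

lemma exists_pnorm_one [Nontrivial E] :
    ∃ A : ContinuousMultilinearMap ℂ (fun _ : Fin k => E) E, pnorm A = 1 := by
  obtain ⟨x, f, hx, hf, hfx⟩ := exists_pair (E := E)
  let A0 : ContinuousMultilinearMap ℂ (fun _ : Fin k => ℂ) ℂ :=
    ContinuousMultilinearMap.mkPiAlgebraFin ℂ k ℂ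
  let A : ContinuousMultilinearMap ℂ (fun _ : Fin k => E) E :=
    (ContinuousLinearMap.toSpanSingleton ℂ x).compContinuousMultilinearMap
      (A0.compContinuousLinearMap (fun _ => f))
  have hA : ∀ y, A (fun _ => y) = (f y) ^ k • x := by
    intro y
    have h0 : A (fun _ => y) = (A0 (fun _ => f y)) • x := rfl
    rw [h0]
    congr 1
    simp [A0]
  refine ⟨A, le_antisymm ?_ ?_⟩
  · refine csSup_le ⟨_, 0, by simp, rfl⟩ ?_
    rintro _ ⟨y, hy, rfl⟩
    rw [hA, norm_smul, hx, mul_one, norm_pow]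
    have h1 : ‖f y‖ ≤ 1 := by
      have := f.le_opNorm y
      rw [hf, one_mul] at this
      exact this.trans hy
    exact pow_le_one₀ (norm_nonneg _) h1
  · have := le_pnorm A hx.le
    rwa [hA, hfx, one_pow, one_smul, hx] at this

lemma W_iff [Nontrivial E] (c : ℝ) : W E k c ↔ c ≤ nind E k := by
  constructor
  · intro h
    refine le_csInf ?_ ?_
    · obtain ⟨A, hA⟩ := exists_pnorm_one (E := E) (k := k)
      exact ⟨_, A, hA, rfl⟩
    · rintro _ ⟨A, hA, rfl⟩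
      rcases le_or_gt c 0 with hc | hc
      · exact hc.trans (prad_nonneg A)
      refine le_of_forall_pos_le_add fun ε hε => ?_
      have hne : ({s : ℝ | ∃ x : E, ‖x‖ ≤ 1 ∧ s = ‖A (fun _ => x)‖}).Nonempty := ⟨_, 0, by simp, rfl⟩
      have h1 : 1 - ε / (2 * c) < sSup {s : ℝ | ∃ x : E, ‖x‖ ≤ 1 ∧ s = ‖A (fun _ => x)‖} := by
        have : sSup {s : ℝ | ∃ x : E, ‖x‖ ≤ 1 ∧ s = ‖A (fun _ => x)‖} = 1 := hA
        rw [this]
        have : 0 < ε / (2 * c) := by positivity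
        linarith
      obtain ⟨_, ⟨y, hy, rfl⟩, hlt⟩ := exists_lt_of_lt_csSup hne h1
      obtain ⟨x, f, hx, hf, hfx, h2⟩ := h A y hy (ε / 2) (by positivity)
      have h3 := le_prad A hx hf hfx
      have h4 : c * (1 - ε / (2 * c)) < c * ‖A (fun _ => y)‖ := mul_lt_mul_of_pos_left hlt hc
      have h5 : c * (1 - ε / (2 * c)) = c - ε / 2 := by field_simp
      linarith
  · intro h A y hy ε hε
    have hpair := exists_pair (E := E)
    rcases le_or_gt c 0 with hc | hc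
    · obtain ⟨x, f, hx, hf, hfx⟩ := hpair
      refine ⟨x, f, hx, hf, hfx, lt_of_lt_of_le ?_ (norm_nonneg _)⟩
      have : c * ‖A (fun _ => y)‖ ≤ 0 := mul_nonpos_of_nonpos_of_nonneg hc (norm_nonneg _)
      linarith
    · have hN0 : 0 ≤ pnorm A := (norm_nonneg _).trans (le_pnorm A hy)
      rcases hN0.eq_or_lt with hN | hN
      · obtain ⟨x, f, hx, hf, hfx⟩ := hpair
        refine ⟨x, f, hx, hf, hfx, lt_of_lt_of_le ?_ (norm_nonneg _)⟩
        have h1 := le_pnorm A hy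
        rw [← hN] at h1
        have h2 : ‖A (fun _ => y)‖ = 0 := le_antisymm h1 (norm_nonneg _)
        rw [h2]; linarith
      · set N := pnorm A with hNdef
        have hscale : pnorm (((N⁻¹ : ℝ) : ℂ) • A) = 1 := by
          have happ : ∀ x, ‖(((N⁻¹ : ℝ) : ℂ) • A) (fun _ => x)‖ = N⁻¹ * ‖A (fun _ => x)‖ := by
            intro x
            rw [smul_apply, norm_smul, Complex.norm_real,
              Real.norm_of_nonneg (by positivity)]
          refine le_antisymm ?_ ?_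
          · refine csSup_le ⟨_, 0, by simp, rfl⟩ ?_
            rintro _ ⟨x, hx, rfl⟩
            rw [happ]
            calc N⁻¹ * ‖A (fun _ => x)‖ ≤ N⁻¹ * N := by
                  gcongr; exact le_pnorm A hx
              _ = 1 := inv_mul_cancel₀ hN.ne'
          · have hne : ({s : ℝ | ∃ x : E, ‖x‖ ≤ 1 ∧ s = ‖A (fun _ => x)‖}).Nonempty :=
              ⟨_, 0, by simp, rfl⟩
            have h1 : N ≤ N * pnorm (((N⁻¹ : ℝ) : ℂ) • A) := by
              refine csSup_le hne ?_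
              rintro _ ⟨x, hx, rfl⟩
              have h2 := le_pnorm (((N⁻¹ : ℝ) : ℂ) • A) hx
              rw [happ] at h2
              have h3 : N * (N⁻¹ * ‖A (fun _ => x)‖) = ‖A (fun _ => x)‖ := by
                rw [← mul_assoc, mul_inv_cancel₀ hN.ne', one_mul]
              calc ‖A (fun _ => x)‖ = N * (N⁻¹ * ‖A (fun _ => x)‖) := h3.symm
                _ ≤ _ := by gcongr
            have h4 : N * 1 ≤ N * pnorm (((N⁻¹ : ℝ) : ℂ) • A) := by rwa [mul_one]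
            exact le_of_mul_le_mul_left h4 hN
        have h1 : c ≤ prad (((N⁻¹ : ℝ) : ℂ) • A) :=
          h.trans (csInf_le bdd_nind ⟨_, hscale, rfl⟩)
        have hne : ({s : ℝ | ∃ (x : E) (φ : E →L[ℂ] ℂ), ‖x‖ = 1 ∧ ‖φ‖ = 1 ∧ φ x = 1 ∧
            s = ‖φ ((((N⁻¹ : ℝ) : ℂ) • A) (fun _ => x))‖}).Nonempty := by
          obtain ⟨x, f, hx, hf, hfx⟩ := hpair
          exact ⟨_, x, f, hx, hf, hfx, rfl⟩
        have hεN : 0 < ε / N := by positivity
        have h1' : c - ε / N < sSup {s : ℝ | ∃ (x : E) (φ : E →L[ℂ] ℂ), ‖x‖ = 1 ∧ ‖φ‖ = 1 ∧ φ x = 1 ∧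
            s = ‖φ ((((N⁻¹ : ℝ) : ℂ) • A) (fun _ => x))‖} := lt_of_lt_of_le (by linarith) h1
        obtain ⟨_, ⟨x, f, hx, hf, hfx, rfl⟩, hlt⟩ := exists_lt_of_lt_csSup hne h1'
        refine ⟨x, f, hx, hf, hfx, ?_⟩
        rw [smul_apply, map_smul, norm_smul, Complex.norm_real,
          Real.norm_of_nonneg (by positivity)] at hlt
        have h5 : N * (c - ε / N) < N * (N⁻¹ * ‖f (A (fun _ => x))‖) :=
          mul_lt_mul_of_pos_left hlt hN
        rw [← mul_assoc, mul_inv_cancel₀ hN.ne', one_mul, mul_sub, mul_div_cancel₀ _ hN.ne'] at h5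
        have h6 : c * ‖A (fun _ => y)‖ ≤ c * N := by gcongr; exact le_pnorm A hy
        linarith

end numind

theorem nind_eq [∀ i, Nontrivial (X i)] [Nonempty Λ] [Nontrivial Z] (S : SupSum Z X) (k : ℕ) :
    nind Z k = ⨅ i, nind (X i) k := by
  refine eq_of_forall_le_iff fun c => ?_
  rw [← W_iff (E := Z) (k := k) c, le_ciInf_iff ⟨0, by rintro _ ⟨i, rfl⟩; exact nind_nonneg⟩]
  constructor
  · intro h i
    exact (W_iff (E := X i) (k := k) c).1 (W_down S k c h i)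
  · intro h
    exact W_up S k c fun i => (W_iff (E := X i) (k := k) c).2 (h i)

end abs

end Pool.Agent.Y265.NumInd
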