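import Mathlib

set_option autoImplicit false

open Filter Topology ZeroAtInfty

namespace Pool.Agent.Y265.Fhc

/-- the label of the index `n` -/
def v (n : ℕ) : ℕ := padicValNat 2 n

/-- positions -/
def p : ℕ → ℕ
  | 0 => 0
  | n + 1 => p n + v n + v (n + 1) + 1

lemma p_succ (n : ℕ) : p (n + 1) = p n + v n + v (n + 1) + 1 := rfl

lemma v_zero : v 0 = 0 := by simp [v]

lemma sep {m n : ℕ} (h : m < n) : p m + v m + v n ≤ p n := by
  induction n with
  | zero => omega
  | succ n ih =>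
    rw [p_succ]
    rcases Nat.lt_succ_iff_lt_or_eq.1 h with h1 | h1
    · have := ih h1
      omega
    · subst h1
      omega

lemma p_mono : StrictMono p := strictMono_nat_of_lt_succ fun n => by rw [p_succ]; omega

lemma p_ge (n : ℕ) : n + v n ≤ p n := by
  induction n with
  | zero => simp [v_zero]
  | succ n ih => rw [p_succ]; omega

lemma p_le_aux (n : ℕ) : p n + v n = 2 * padicValNat 2 n.factorial + n := by
  induction n with
  | zero => simp [p, v_zero]
  | succ n ih =>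
    rw [p_succ, Nat.factorial_succ, padicValNat.mul (by omega) (Nat.factorial_ne_zero n)]
    change _ = 2 * (v (n + 1) + _) + _
    omega

lemma p_le (n : ℕ) : p n ≤ 3 * n := by
  have h1 := p_le_aux n
  have h2 := sub_one_mul_padicValNat_factorial (p := 2) n
  have h3 : padicValNat 2 n.factorial ≤ n := by
    have : (2 - 1) * padicValNat 2 n.factorial ≤ n := by rw [h2]; exact Nat.sub_le _ _
    simpa using this
  omega

/-- index of the block containing `j` -/
def N (j : ℕ) : ℕ := Nat.findGreatest (fun n => p n ≤ j) j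

lemma p_N_le (j : ℕ) : p (N j) ≤ j := by
  have : (fun n => p n ≤ j) (Nat.findGreatest (fun n => p n ≤ j) j) :=
    Nat.findGreatest_spec (P := fun n => p n ≤ j) (m := 0) (Nat.zero_le _) (by simp [p])
  exact this

lemma le_N {j n : ℕ} (h : p n ≤ j) : n ≤ N j :=
  Nat.le_findGreatest (by have := p_ge n; omega) h

lemma lt_p_N (j : ℕ) : j < p (N j + 1) := by
  by_contra h
  push Not at h
  have := le_N h
  omega

lemma exists_q : ∃ q : ℕ → ℕ → ℝ, (∀ l k, l ≤ k → q l k = 0) ∧ (∀ l k, |q l k| ≤ 2 ^ l) ∧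
    ∀ (f : C₀(ℕ, ℝ)) (ε : ℝ), 0 < ε → ∀ L : ℕ, ∃ l, L ≤ l ∧ ∀ k, |q l k - f k| < ε := by
  classical
  obtain ⟨e, he⟩ := exists_surjective_nat (ℕ →₀ ℚ)
  refine ⟨fun l k => if (∀ k, l ≤ k → e (Nat.unpair l).1 k = 0) ∧
    (∀ k, |((e (Nat.unpair l).1 k : ℚ) : ℝ)| ≤ 2 ^ l) then ((e (Nat.unpair l).1 k : ℚ) : ℝ) else 0,
    ?_, ?_, ?_⟩
  · intro l k hk
    simp only
    split_ifs with h
    · rw [h.1 k hk]; simp
    · rfl
  · intro l k
    simp only
    split_ifs with h
    · exact h.2 k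
    · simp
  · intro f ε hε L
    have hf : Tendsto (fun k => f k) atTop (𝓝 0) := by
      have := f.zero_at_infty'
      rwa [cocompact_eq_cofinite, Nat.cofinite_eq_atTop] at this
    obtain ⟨K, hK⟩ := (Metric.tendsto_atTop.1 hf) ε hε
    have hr : ∀ k, ∃ r : ℚ, |(r : ℝ) - f k| < ε := by
      intro k
      obtain ⟨r, hr1, hr2⟩ := exists_rat_btwn (show f k < f k + ε by linarith)
      exact ⟨r, by rw [abs_lt]; constructor <;> linarith⟩
    choose r hr using hr
    let u : ℕ →₀ ℚ := Finsupp.onFinset (Finset.range K) (fun k => if k < K then r k else 0)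
      (fun k hk => by
        rw [Finset.mem_range]
        by_contra hcon
        simp [hcon] at hk)
    have hu : ∀ k, u k = if k < K then r k else 0 := fun k => rfl
    obtain ⟨i, hi⟩ := he u
    obtain ⟨B, hB⟩ : ∃ B : ℕ, ∀ k, |((u k : ℚ) : ℝ)| ≤ B := by
      obtain ⟨B, hB⟩ := exists_nat_ge (∑ k ∈ Finset.range K, |((r k : ℚ) : ℝ)|)
      refine ⟨B, fun k => ?_⟩
      rw [hu]
      split_ifs with h
      · exact (Finset.single_le_sum (f := fun k => |((r k : ℚ) : ℝ)|)
          (fun _ _ => abs_nonneg _) (Finset.mem_range.2 h)).trans hB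
      · simp
    set l := Nat.pair i (L + K + B) with hl
    have h1 : (Nat.unpair l).1 = i := by rw [hl, Nat.unpair_pair]
    have h2 : L + K + B ≤ l := Nat.right_le_pair i (L + K + B)
    have hcond : (∀ k, l ≤ k → e (Nat.unpair l).1 k = 0) ∧
        (∀ k, |((e (Nat.unpair l).1 k : ℚ) : ℝ)| ≤ 2 ^ l) := by
      rw [h1, hi]
      refine ⟨fun k hk => ?_, fun k => ?_⟩
      · rw [hu, if_neg (by omega)]
      · refine (hB k).trans ?_
        have h3 : B < 2 ^ B := Nat.lt_two_pow_self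
        have h4 : (2 : ℕ) ^ B ≤ 2 ^ l := Nat.pow_le_pow_right (by norm_num) (by omega)
        exact_mod_cast (h3.le.trans h4)
    refine ⟨l, by omega, fun k => ?_⟩
    simp only
    rw [if_pos hcond, h1, hi, hu]
    split_ifs with h
    · exact hr k
    · have := hK k (by omega)
      rw [Real.dist_eq, sub_zero] at this
      simpa using this

/-- the shift `2B` on `c₀` -/
noncomputable def T : C₀(ℕ, ℝ) →L[ℝ] C₀(ℕ, ℝ) :=
  LinearMap.mkContinuous
    { toFun := fun f =>
        { toFun := fun n => 2 * f (n + 1)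
          continuous_toFun := continuous_of_discreteTopology
          zero_at_infty' := by
            have := f.zero_at_infty'
            rw [cocompact_eq_cofinite, Nat.cofinite_eq_atTop] at this ⊢
            have h2 := (this.comp (tendsto_add_atTop_nat 1)).const_mul 2
            simpa using h2 }
      map_add' := fun f g => by
        ext n
        change 2 * (f (n + 1) + g (n + 1)) = 2 * f (n + 1) + 2 * g (n + 1)
        ring
      map_smul' := fun c f => by
        ext n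
        change 2 * (c * f (n + 1)) = c * (2 * f (n + 1))
        ring } 2 (fun f => by
      rw [← ZeroAtInftyContinuousMap.norm_toBCF_eq_norm]
      refine (BoundedContinuousFunction.norm_le (by positivity)).2 fun n => ?_
      change ‖2 * f (n + 1)‖ ≤ 2 * ‖f‖
      rw [norm_mul, Real.norm_ofNat]
      gcongr
      rw [← ZeroAtInftyContinuousMap.norm_toBCF_eq_norm]
      exact f.toBCF.norm_coe_le_norm (n + 1))

lemma T_apply (f : C₀(ℕ, ℝ)) (n : ℕ) : T f n = 2 * f (n + 1) := rfl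

lemma T_iter (f : C₀(ℕ, ℝ)) (t k : ℕ) : (T^[t] f) k = 2 ^ t * f (t + k) := by
  induction t generalizing k with
  | zero => simp
  | succ t ih =>
    rw [Function.iterate_succ_apply', T_apply, ih, pow_succ]
    rw [show t + (k + 1) = t + 1 + k by ring]
    ring

lemma norm_le_iff (f : C₀(ℕ, ℝ)) {C : ℝ} (hC : 0 ≤ C) : ‖f‖ ≤ C ↔ ∀ k, |f k| ≤ C := by
  rw [← ZeroAtInftyContinuousMap.norm_toBCF_eq_norm, BoundedContinuousFunction.norm_le hC]
  rfl

section X

variable (q : ℕ → ℕ → ℝ)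

open Classical in
/-- coordinates of the frequently hypercyclic vector -/
noncomputable def xc (j : ℕ) : ℝ :=
  if Even (Nat.log 8 (N j)) then (1 / 2) ^ p (N j) * q (v (N j)) (j - p (N j)) else 0

variable {q}

lemma xc_bound (h2 : ∀ l k, |q l k| ≤ 2 ^ l) (j : ℕ) :
    |xc q j| ≤ (1 / 2) ^ (p (N j)) * 2 ^ v (N j) := by
  unfold xc
  split_ifs with h
  · rw [abs_mul, abs_of_nonneg (by positivity)]
    gcongr
    exact h2 _ _
  · rw [abs_zero]; positivity

lemma pow_bound {a b c : ℕ} (h : b + c ≤ a) : (1 / 2 : ℝ) ^ a * 2 ^ b ≤ (1 / 2) ^ c := by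
  calc (1 / 2 : ℝ) ^ a * 2 ^ b ≤ (1 / 2 : ℝ) ^ (b + c) * 2 ^ b := by
        gcongr ?_ * _
        exact pow_le_pow_of_le_one (by norm_num) (by norm_num) h
    _ = (1 / 2) ^ c * ((1 / 2) ^ b * 2 ^ b) := by ring
    _ = (1 / 2) ^ c := by rw [← mul_pow]; norm_num

lemma N_tendsto : Tendsto N atTop atTop := by
  rw [tendsto_atTop_atTop]
  intro b
  exact ⟨p b, fun j hj => le_N hj⟩

lemma xc_tendsto (h2 : ∀ l k, |q l k| ≤ 2 ^ l) : Tendsto (xc q) atTop (𝓝 0) := by
  have h3 : Tendsto (fun j => (1 / 2 : ℝ) ^ N j) atTop (𝓝 0) :=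
    (tendsto_pow_atTop_nhds_zero_of_lt_one (by norm_num) (by norm_num)).comp N_tendsto
  refine squeeze_zero_norm (fun j => ?_) h3
  refine (xc_bound h2 j).trans ?_
  exact pow_bound (by have := p_ge (N j); omega)

variable (q) in
/-- the vector -/
noncomputable def x (h2 : ∀ l k, |q l k| ≤ 2 ^ l) : C₀(ℕ, ℝ) where
  toFun := xc q
  continuous_toFun := continuous_of_discreteTopology
  zero_at_infty' := by
    rw [cocompact_eq_cofinite, Nat.cofinite_eq_atTop]
    exact xc_tendsto h2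

lemma x_apply (h2 : ∀ l k, |q l k| ≤ 2 ^ l) (j : ℕ) : x q h2 j = xc q j := rfl

lemma visit (h1 : ∀ l k, l ≤ k → q l k = 0) (h2 : ∀ l k, |q l k| ≤ 2 ^ l) {n : ℕ}
    (hn : Even (Nat.log 8 n)) (k : ℕ) :
    |2 ^ (p n) * xc q (p n + k) - q (v n) k| ≤ (1 / 2) ^ v n := by
  have hle : n ≤ N (p n + k) := le_N (by omega)
  rcases hle.eq_or_lt with h | h
  · unfold xc
    rw [← h, if_pos hn, Nat.add_sub_cancel_left, ← mul_assoc, ← mul_pow]
    norm_num
  · have h3 := sep h
    have h4 := p_N_le (p n + k)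
    rw [h1 (v n) k (by omega), sub_zero, abs_mul, abs_of_nonneg (by positivity)]
    calc 2 ^ (p n) * |xc q (p n + k)|
        ≤ 2 ^ (p n) * ((1 / 2) ^ (p (N (p n + k))) * 2 ^ v (N (p n + k))) := by
          gcongr
          exact xc_bound h2 _
      _ = (1 / 2) ^ (p (N (p n + k))) * 2 ^ (p n + v (N (p n + k))) := by rw [pow_add]; ring
      _ ≤ (1 / 2) ^ v n := pow_bound (by omega)

lemma gap (h2 : ∀ l k, |q l k| ≤ 2 ^ l) {a b : ℕ} (hb : 1 ≤ b)
    (hab : ∀ n, a ≤ n → n < b → ¬ Even (Nat.log 8 n)) {t : ℕ} (ht1 : p a ≤ t)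
    (ht2 : t ≤ p (b - 1)) (k : ℕ) : |2 ^ t * xc q (t + k)| ≤ 1 := by
  have hle : a ≤ N (t + k) := le_N (by omega)
  by_cases h : N (t + k) < b
  · unfold xc
    rw [if_neg (hab _ hle h)]
    simp
  · have h3 : b - 1 < N (t + k) := by omega
    have h4 := sep h3
    rw [abs_mul, abs_of_nonneg (by positivity)]
    calc 2 ^ t * |xc q (t + k)|
        ≤ 2 ^ t * ((1 / 2) ^ (p (N (t + k))) * 2 ^ v (N (t + k))) := by
          gcongr
          exact xc_bound h2 _
      _ = (1 / 2) ^ (p (N (t + k))) * 2 ^ (t + v (N (t + k))) := by rw [pow_add]; ring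
      _ ≤ (1 / 2) ^ 0 := pow_bound (by omega)
      _ = 1 := by norm_num

end X

lemma log_eq {k n : ℕ} (h1 : 8 ^ k ≤ n) (h2 : n < 8 ^ (k + 1)) : Nat.log 8 n = k :=
  Nat.log_eq_of_pow_le_of_lt_pow h1 h2

lemma v_eq {k l i : ℕ} (hk : l + 1 ≤ 6 * k) : v (8 ^ (2 * k) + 2 ^ l * (2 * i + 1)) = l := by
  have e : 8 ^ (2 * k) + 2 ^ l * (2 * i + 1) = 2 ^ l * (2 * (2 ^ (6 * k - l - 1) + i) + 1) := by
    have : (8 : ℕ) ^ (2 * k) = 2 ^ l * (2 * 2 ^ (6 * k - l - 1)) := by
      rw [show (8 : ℕ) = 2 ^ 3 by norm_num, ← pow_mul, ← pow_succ', ← pow_add]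
      congr 1
      omega
    rw [this]; ring
  rw [e]
  unfold v
  rw [padicValNat.mul (by positivity) (by omega), padicValNat.prime_pow]
  rw [padicValNat.eq_zero_of_not_dvd (by omega), add_zero]

/-- counting the visits -/
lemma count {P : ℕ → Prop} (l : ℕ)
    (h : ∀ n, Even (Nat.log 8 n) → v n = l → P (p n)) :
    ∃ δ : ℝ, 0 < δ ∧ ∀ᶠ n : ℕ in Filter.atTop,
      δ * (n : ℝ) ≤ (({k : ℕ | k < n ∧ P k}.ncard : ℕ) : ℝ) := by
  refine ⟨1 / (2 ^ (l + 1) * 3 * 8 ^ 3), by positivity, ?_⟩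
  filter_upwards [eventually_ge_atTop (3 * 8 ^ (2 * (l + 1) + 1))] with M hM
  -- choose the scale
  obtain ⟨k, hk1, hk2, hk3⟩ : ∃ k, l + 1 ≤ k ∧ 3 * 8 ^ (2 * k + 1) ≤ M ∧ M < 3 * 8 ^ (2 * k + 3) := by
    have hex : ∃ k, M < 3 * 8 ^ (2 * k + 3) := by
      refine ⟨M, ?_⟩
      have h1 : M < 8 ^ M := Nat.lt_pow_self (by norm_num)
      have h2 : 8 ^ M ≤ 8 ^ (2 * M + 3) := Nat.pow_le_pow_right (by norm_num) (by omega)
      omega
    classical
    refine ⟨Nat.find hex, ?_, ?_, Nat.find_spec hex⟩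
    · by_contra hcon
      push Not at hcon
      have h1 := Nat.find_spec hex
      have h2 : 8 ^ (2 * Nat.find hex + 3) ≤ 8 ^ (2 * (l + 1) + 1) :=
        Nat.pow_le_pow_right (by norm_num) (by omega)
      omega
    · rcases Nat.eq_zero_or_pos (Nat.find hex) with h0 | h0
      · rw [h0]
        have h2 : 8 ^ (2 * 0 + 1) ≤ 8 ^ (2 * (l + 1) + 1) :=
          Nat.pow_le_pow_right (by norm_num) (by omega)
        omega
      · have h1 := Nat.find_min hex (m := Nat.find hex - 1) (by omega)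
        have e : 2 * (Nat.find hex - 1) + 3 = 2 * Nat.find hex + 1 := by omega
        rw [e] at h1
        omega
  set F : ℕ → ℕ := fun i => p (8 ^ (2 * k) + 2 ^ l * (2 * i + 1)) with hF
  have hFinj : Function.Injective F := by
    intro i j hij
    have h1 := p_mono.injective hij
    have h2 : 2 ^ l * (2 * i + 1) = 2 ^ l * (2 * j + 1) := by omega
    have h3 := Nat.eq_of_mul_eq_mul_left (by positivity) h2
    omega
  have hsub : F '' (Finset.range (2 ^ (6 * k - l - 1)) : Set ℕ) ⊆ {k : ℕ | k < M ∧ P k} := by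
    rintro _ ⟨i, hi, rfl⟩
    have hi' : i < 2 ^ (6 * k - l - 1) := by simpa using hi
    have e8 : (8 : ℕ) ^ (2 * k) = 2 ^ l * (2 * 2 ^ (6 * k - l - 1)) := by
      rw [show (8 : ℕ) = 2 ^ 3 by norm_num, ← pow_mul, ← pow_succ', ← pow_add]
      congr 1
      omega
    have hlt : 2 ^ l * (2 * i + 1) < 8 ^ (2 * k) := by
      rw [e8]
      exact Nat.mul_lt_mul_of_pos_left (by omega) (by positivity)
    have hlt2 : 8 ^ (2 * k) + 2 ^ l * (2 * i + 1) < 8 ^ (2 * k + 1) := by
      rw [pow_succ]; omega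
    have hlog : Nat.log 8 (8 ^ (2 * k) + 2 ^ l * (2 * i + 1)) = 2 * k :=
      log_eq (by omega) hlt2
    refine ⟨?_, h _ (by rw [hlog]; exact even_two_mul k) (v_eq (by omega))⟩
    calc F i ≤ 3 * (8 ^ (2 * k) + 2 ^ l * (2 * i + 1)) := p_le _
      _ < 3 * 8 ^ (2 * k + 1) := by omega
      _ ≤ M := hk2
  have hfin : {k : ℕ | k < M ∧ P k}.Finite := (Set.finite_Iio M).subset fun k hk => hk.1
  have hcard := Set.ncard_le_ncard hsub hfin
  rw [Set.ncard_image_of_injective _ hFinj, Set.ncard_coe_finset, Finset.card_range] at hcard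
  have h5 : (M : ℝ) ≤ 3 * 8 ^ (2 * k + 3) := by exact_mod_cast hk3.le
  have h6 : ((2 : ℝ) ^ (6 * k - l - 1)) ≤ (({k : ℕ | k < M ∧ P k}.ncard : ℕ) : ℝ) := by
    exact_mod_cast hcard
  refine le_trans ?_ h6
  have e9 : (3 : ℝ) * 8 ^ (2 * k + 3) = (2 ^ (l + 1) * 3 * 8 ^ 3) * 2 ^ (6 * k - l - 1) := by
    have : (8 : ℝ) ^ (2 * k) = 2 ^ (l + 1) * 2 ^ (6 * k - l - 1) := by
      rw [show (8 : ℝ) = 2 ^ 3 by norm_num, ← pow_mul, ← pow_add]
      congr 1
      omega
    rw [pow_add, this]; ring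
  rw [div_mul_eq_mul_div, one_mul, div_le_iff₀ (by positivity)]
  rw [e9] at h5
  linarith

theorem main : ∃ x : C₀(ℕ, ℝ),
      (∀ U : Set C₀(ℕ, ℝ), IsOpen U → U.Nonempty →
        ∃ δ : ℝ, 0 < δ ∧ ∀ᶠ n : ℕ in Filter.atTop,
          δ * (n : ℝ) ≤ (({k : ℕ | k < n ∧ (⇑T)^[k] x ∈ U}.ncard : ℕ) : ℝ)) ∧
      ∃ U : Set C₀(ℕ, ℝ), IsOpen U ∧ U.Nonempty ∧
        ∀ A : Set ℕ, A ⊆ {k : ℕ | (⇑T)^[k] x ∈ U} →
          ¬ ∃ d : ℝ, 0 < d ∧
            Filter.Tendsto
              (fun n : ℕ => (({k : ℕ | k < n ∧ k ∈ A}.ncard : ℕ) : ℝ) / (n : ℝ))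
              Filter.atTop (nhds d) := by
  obtain ⟨q, h1, h2, h3⟩ := exists_q
  refine ⟨x q h2, ?_, {f | 1 < ‖f‖}, isOpen_lt continuous_const continuous_norm, ?_, ?_⟩
  · intro U hU hne
    obtain ⟨f, hf⟩ := hne
    obtain ⟨ε, hε, hball⟩ := Metric.isOpen_iff.1 hU f hf
    obtain ⟨L, hL⟩ := exists_pow_lt_of_lt_one (show 0 < ε / 4 by positivity)
      (show (1 / 2 : ℝ) < 1 by norm_num)
    obtain ⟨l, hl, hq⟩ := h3 f (ε / 4) (by positivity) L
    refine count (P := fun k => (⇑T)^[k] (x q h2) ∈ U) l fun n hn hv => hball ?_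
    rw [Metric.mem_ball, dist_eq_norm]
    refine lt_of_le_of_lt ((norm_le_iff _ (show 0 ≤ ε / 2 by positivity)).2 fun k => ?_)
      (by linarith)
    change |(T^[p n] (x q h2)) k - f k| ≤ ε / 2
    rw [T_iter, x_apply]
    have e1 := visit h1 h2 hn k
    rw [hv] at e1
    have e2 := hq k
    have e3 : (1 / 2 : ℝ) ^ l ≤ ε / 4 := le_trans
      (pow_le_pow_of_le_one (by norm_num) (by norm_num) hl) hL.le
    calc |2 ^ p n * xc q (p n + k) - f k|
        = |(2 ^ p n * xc q (p n + k) - q l k) + (q l k - f k)| := by ring_nf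
      _ ≤ |2 ^ p n * xc q (p n + k) - q l k| + |q l k - f k| := abs_add_le _ _
      _ ≤ ε / 2 := by linarith
  · refine ⟨⟨⟨fun k => if k = 0 then 2 else 0, continuous_of_discreteTopology⟩, ?_⟩, ?_⟩
    · rw [cocompact_eq_cofinite, Nat.cofinite_eq_atTop]
      refine tendsto_const_nhds.congr' ?_
      filter_upwards [eventually_gt_atTop 0] with k hk
      simp [hk.ne']
    · by_contra hcon
      simp only [Set.mem_ofPred_eq, not_lt] at hcon
      have := (norm_le_iff _ zero_le_one).1 hcon 0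
      simp at this
  · rintro A hA ⟨d, hd, hlim⟩
    set c : ℕ → ℕ := fun n => {k : ℕ | k < n ∧ k ∈ A}.ncard with hc
    have key : ∀ k : ℕ, c (6 * 8 ^ (2 * k + 1)) = c (3 * 8 ^ (2 * k + 1)) := by
      intro k
      simp only [hc]
      congr 1
      ext t
      constructor
      · rintro ⟨ht, htA⟩
        refine ⟨?_, htA⟩
        by_contra hcon
        push Not at hcon
        have h4 := hA htA
        have h5 : ‖(⇑T)^[t] (x q h2)‖ ≤ 1 := by
          refine (norm_le_iff _ zero_le_one).2 fun j => ?_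
          rw [T_iter, x_apply]
          refine gap h2 (a := 8 ^ (2 * k + 1)) (b := 8 ^ (2 * k + 2)) (Nat.one_le_pow _ _ (by norm_num))
            (fun n hn1 hn2 => ?_) ?_ ?_ j
          · rw [log_eq hn1 hn2]
            simp
          · exact (p_le _).trans hcon
          · have h6 := p_ge (8 ^ (2 * k + 2) - 1)
            have h7 : 8 ^ (2 * k + 2) = 8 * 8 ^ (2 * k + 1) := by ring
            have h8 : 1 ≤ 8 ^ (2 * k + 1) := Nat.one_le_pow _ _ (by norm_num)
            omega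
        exact absurd h4 (not_lt.2 h5)
      · rintro ⟨ht, htA⟩
        exact ⟨by omega, htA⟩
    have hsc : Tendsto (fun k : ℕ => 8 ^ (2 * k + 1)) atTop atTop := by
      refine tendsto_atTop_mono (fun k => ?_) tendsto_id
      have h4 : k < 8 ^ k := Nat.lt_pow_self (by norm_num)
      have h5 : 8 ^ k ≤ 8 ^ (2 * k + 1) := Nat.pow_le_pow_right (by norm_num) (by omega)
      simp only [id]
      omega
    have l6 := hlim.comp (hsc.const_mul_atTop' (show 0 < 6 by norm_num))
    have l3 := hlim.comp (hsc.const_mul_atTop' (show 0 < 3 by norm_num))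
    have l6' : Tendsto (fun k : ℕ => (1 / 2 : ℝ) * ((c (3 * 8 ^ (2 * k + 1)) : ℝ) /
        ((3 * 8 ^ (2 * k + 1) : ℕ) : ℝ))) atTop (𝓝 d) := by
      refine l6.congr fun k => ?_
      simp only [Function.comp]
      change (c (6 * 8 ^ (2 * k + 1)) : ℝ) / _ = _
      rw [key k]
      push_cast
      field_simp
      ring
    have l3' := l3.const_mul (1 / 2 : ℝ)
    have := tendsto_nhds_unique l6' l3'
    linarith

end Pool.Agent.Y265.Fhc
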