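import Pool.Agent.Y265.Fhc

set_option autoImplicit false

open Filter Topology

namespace Pool.Agent.Y265.Fc

noncomputable section

/-- generating series -/
def g : ℕ → PowerSeries ℝ
  | 0 => 1
  | i + 1 => g i * (1 - PowerSeries.X ^ (3 ^ i))⁻¹

lemma cc_one_sub (i : ℕ) : PowerSeries.constantCoeff (1 - (PowerSeries.X : PowerSeries ℝ) ^ (3 ^ i)) = 1 := by
  rw [map_sub, map_one, map_pow, PowerSeries.constantCoeff_X, zero_pow (by positivity), sub_zero]

lemma g_const (i : ℕ) : PowerSeries.constantCoeff (g i) = 1 := by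
  induction i with
  | zero => exact map_one _
  | succ i ih =>
    show PowerSeries.constantCoeff (g i * (1 - PowerSeries.X ^ (3 ^ i))⁻¹) = 1
    rw [map_mul, ih, PowerSeries.constantCoeff_inv, cc_one_sub, inv_one, mul_one]

lemma g_rel (i : ℕ) : (1 - PowerSeries.X ^ (3 ^ i)) * g (i + 1) = g i := by
  show (1 - PowerSeries.X ^ (3 ^ i)) * (g i * (1 - PowerSeries.X ^ (3 ^ i))⁻¹) = g i
  have h := PowerSeries.mul_inv_cancel (1 - (PowerSeries.X : PowerSeries ℝ) ^ (3 ^ i))
    (by rw [cc_one_sub]; norm_num)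
  calc _ = g i * ((1 - PowerSeries.X ^ (3 ^ i)) * (1 - PowerSeries.X ^ (3 ^ i))⁻¹) := by ring
    _ = g i := by rw [h, mul_one]

/-- the vectors -/
def e (i t : ℕ) : PowerSeries ℝ := PowerSeries.X ^ t * g i

lemma e_rel (i t : ℕ) : e (i + 1) t - e (i + 1) (t + 3 ^ i) = e i t := by
  unfold e
  rw [← g_rel i, pow_add]
  ring

lemma e_coeff_lt (i : ℕ) {s t : ℕ} (h : s < t) : PowerSeries.coeff s (e i t) = 0 := by
  unfold e
  rw [PowerSeries.coeff_X_pow_mul', if_neg (by omega)]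

lemma e_coeff_self (i t : ℕ) : PowerSeries.coeff t (e i t) = 1 := by
  unfold e
  rw [PowerSeries.coeff_X_pow_mul', if_pos le_rfl, Nat.sub_self, PowerSeries.coeff_zero_eq_constantCoeff,
    g_const]

lemma indep (lev : ℕ → ℕ) : LinearIndependent ℝ fun t => e (lev t) t := by
  rw [linearIndependent_iff']
  intro s c hs
  by_contra hcon
  push Not at hcon
  obtain ⟨i, his, hci⟩ := hcon
  classical
  set s' := s.filter (fun t => c t ≠ 0) with hs'
  have hne : s'.Nonempty := ⟨i, Finset.mem_filter.mpr ⟨his, hci⟩⟩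
  set m := s'.min' hne with hm
  have hm' : m ∈ s' := Finset.min'_mem _ _
  have h1 := congrArg (PowerSeries.coeff m) hs
  rw [map_sum, map_zero] at h1
  rw [Finset.sum_eq_single m] at h1
  · rw [PowerSeries.coeff_smul, e_coeff_self, smul_eq_mul, mul_one] at h1
    exact (Finset.mem_filter.mp hm').2 h1
  · intro b hb hbm
    rw [PowerSeries.coeff_smul]
    by_cases hcb : c b = 0
    · rw [hcb, zero_smul]
    · have hb' : b ∈ s' := Finset.mem_filter.mpr ⟨hb, hcb⟩
      have : m ≤ b := Finset.min'_le _ _ hb'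
      rw [e_coeff_lt _ (by omega), smul_zero]
  · intro hms
    exact absurd (Finset.mem_filter.mp hm').1 hms

/-- the space -/
def X : Submodule ℝ (ℕ → ℕ → ℝ) where
  carrier := {c | ∀ i t, c (i + 1) t - c (i + 1) (t + 3 ^ i) = c i t}
  add_mem' := by
    intro a b ha hb i t
    have h1 := ha i t
    have h2 := hb i t
    simp only [Pi.add_apply]
    linarith
  zero_mem' := by intro i t; simp
  smul_mem' := by
    intro r a ha i t
    have h1 := ha i t
    simp only [Pi.smul_apply, smul_eq_mul]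
    rw [← h1]; ring

lemma mem_X {c : ℕ → ℕ → ℝ} : c ∈ X ↔ ∀ i t, c (i + 1) t - c (i + 1) (t + 3 ^ i) = c i t := Iff.rfl

/-- **Interpolation.** -/
lemma interp (lev : ℕ → ℕ) (w : ℕ → ℝ) : ∃ c ∈ X, ∀ t, c (lev t) t = w t := by
  have hli := indep lev
  obtain ⟨f, hf⟩ : ∃ f : PowerSeries ℝ →ₗ[ℝ] ℝ, ∀ t, f (e (lev t) t) = w t := by
    let B := Module.Basis.span hli
    obtain ⟨f, hf⟩ := LinearMap.exists_extend (B.constr ℝ w)
    refine ⟨f, fun t => ?_⟩
    have hB : ((B t : Submodule.span ℝ (Set.range fun t => e (lev t) t)) : PowerSeries ℝ) = e (lev t) t :=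
      congrArg Subtype.val (Module.Basis.span_apply hli t)
    rw [← hB]
    have h1 := LinearMap.congr_fun hf (B t)
    rw [LinearMap.comp_apply, Module.Basis.constr_basis] at h1
    exact h1
  refine ⟨fun i t => f (e i t), ?_, fun t => hf t⟩
  rw [mem_X]
  intro i t
  rw [← map_sub, e_rel]

lemma X_closed : IsClosed (X : Set (ℕ → ℕ → ℝ)) := by
  have : (X : Set (ℕ → ℕ → ℝ)) = ⋂ i, ⋂ t, {c | c (i + 1) t - c (i + 1) (t + 3 ^ i) = c i t} := by
    ext c
    simp only [SetLike.mem_coe, mem_X, Set.mem_iInter, Set.mem_ofPred_eq]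
  rw [this]
  refine isClosed_iInter fun i => isClosed_iInter fun t => isClosed_eq ?_ ?_ <;> fun_prop

instance : CompleteSpace X := X_closed.completeSpace_coe

instance : IsUniformAddGroup X := inferInstanceAs (IsUniformAddGroup X.toAddSubgroup)

instance : TopologicalSpace.MetrizableSpace X :=
  Topology.IsEmbedding.subtypeVal.metrizableSpace

instance : SecondCountableTopology X := Topology.IsEmbedding.subtypeVal.secondCountableTopology

instance : TopologicalSpace.SeparableSpace X := inferInstance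

instance : ContinuousSMul ℝ X := inferInstance

/-- the operator -/
def T : X →L[ℝ] X where
  toFun c := ⟨fun i t => (c : ℕ → ℕ → ℝ) i (t + 1), by
    rw [mem_X]
    intro i t
    have := c.2 i (t + 1)
    rw [show t + 3 ^ i + 1 = t + 1 + 3 ^ i by ring]
    exact this⟩
  map_add' := fun a b => rfl
  map_smul' := fun r a => rfl
  cont := by
    refine Continuous.subtype_mk ?_ _
    refine continuous_pi fun i => continuous_pi fun t => ?_
    have h1 : Continuous fun c : ℕ → ℕ → ℝ => c i (t + 1) := by fun_prop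
    exact h1.comp continuous_subtype_val

lemma T_apply (c : X) (i t : ℕ) : ((T c : X) : ℕ → ℕ → ℝ) i t = (c : ℕ → ℕ → ℝ) i (t + 1) := rfl

lemma T_pow (n : ℕ) (c : X) (i t : ℕ) :
    (((T ^ n) c : X) : ℕ → ℕ → ℝ) i t = (c : ℕ → ℕ → ℝ) i (t + n) := by
  induction n generalizing c t with
  | zero => rfl
  | succ n ih =>
    rw [pow_succ', mul_apply_eq_comp, T_apply, ih, show t + (n + 1) = t + 1 + n by ring]

/-- no nonzero fixed vectors of `T^(3^k)` -/
lemma no_fixed (k : ℕ) (c : X) (h : (T ^ (3 ^ k)) c = c) : c = 0 := by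
  have h1 : ∀ i t, (c : ℕ → ℕ → ℝ) i (t + 3 ^ k) = (c : ℕ → ℕ → ℝ) i t := by
    intro i t
    rw [← T_pow (3 ^ k) c i t, h]
  have h2 : ∀ i t j, (c : ℕ → ℕ → ℝ) i (t + 3 ^ k * j) = (c : ℕ → ℕ → ℝ) i t := by
    intro i t j
    induction j with
    | zero => simp
    | succ j ih =>
      rw [show t + 3 ^ k * (j + 1) = (t + 3 ^ k * j) + 3 ^ k by ring, h1, ih]
  have h3 : ∀ i, k ≤ i → ∀ t, (c : ℕ → ℕ → ℝ) i t = 0 := by
    intro i hi t
    have h4 := c.2 i t
    have h5 : (3 : ℕ) ^ i = 3 ^ k * 3 ^ (i - k) := by rw [← pow_add]; congr 1; omega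
    rw [h5, h2, sub_self] at h4
    exact h4.symm
  have h4 : ∀ j i, k ≤ i + j → ∀ t, (c : ℕ → ℕ → ℝ) i t = 0 := by
    intro j
    induction j with
    | zero => intro i hi; exact h3 i hi
    | succ j ih =>
      intro i hi t
      have h5 := c.2 i t
      rw [ih (i + 1) (by omega), ih (i + 1) (by omega), sub_zero] at h5
      exact h5.symm
  apply Subtype.ext
  funext i t
  exact h4 k i (by omega) t

/-- going down from level `J` by `k` levels -/
def D (J : ℕ) : ℕ → (ℕ → ℝ) → (ℕ → ℝ)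
  | 0, a => a
  | k + 1, a => fun t => D J k a t - D J k a (t + 3 ^ (J - k - 1))

lemma D_cont (J k : ℕ) : Continuous (D J k) := by
  induction k with
  | zero => exact continuous_id
  | succ k ih =>
    show Continuous fun a : ℕ → ℝ => fun t => D J k a t - D J k a (t + 3 ^ (J - k - 1))
    refine continuous_pi fun t => ?_
    exact ((continuous_apply t).comp ih).sub ((continuous_apply _).comp ih)

lemma D_spec {c : ℕ → ℕ → ℝ} (hc : c ∈ X) (J k : ℕ) (hk : k ≤ J) : D J k (c J) = c (J - k) := by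
  induction k with
  | zero => rfl
  | succ k ih =>
    funext t
    show D J k (c J) t - D J k (c J) (t + 3 ^ (J - k - 1)) = _
    rw [ih (by omega)]
    have h1 := hc (J - (k + 1)) t
    have h2 : J - (k + 1) + 1 = J - k := by omega
    rw [h2] at h1
    rw [show J - k - 1 = J - (k + 1) by omega]
    exact h1

/-- basic open sets -/
lemma basic (U : Set X) (hU : IsOpen U) (c : X) (hc : c ∈ U) :
    ∃ I : ℕ, ∀ J ≥ I, ∃ S : Set (ℕ → ℝ), IsOpen S ∧ (c : ℕ → ℕ → ℝ) J ∈ S ∧
      ∀ d : X, (d : ℕ → ℕ → ℝ) J ∈ S → d ∈ U := by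
  obtain ⟨V, hV, rfl⟩ := isOpen_induced_iff.mp hU
  rw [isOpen_pi_iff] at hV
  obtain ⟨F, u, hu, hsub⟩ := hV (c : ℕ → ℕ → ℝ) hc
  refine ⟨F.sup id, fun J hJ => ⟨⋂ i ∈ F, D J (J - i) ⁻¹' (u i), ?_, ?_, ?_⟩⟩
  · exact isOpen_biInter_finset fun i hi => (hu i hi).1.preimage (D_cont J (J - i))
  · simp only [Set.mem_iInter, Set.mem_preimage]
    intro i hi
    have hiJ : i ≤ J := (Finset.le_sup (f := id) hi).trans hJ
    rw [D_spec c.2 J (J - i) (by omega), show J - (J - i) = i by omega]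
    exact (hu i hi).2
  · intro d hd
    simp only [Set.mem_iInter, Set.mem_preimage] at hd
    refine hsub fun i hi => ?_
    have hiJ : i ≤ J := (Finset.le_sup (f := id) hi).trans hJ
    have := hd i hi
    rw [D_spec d.2 J (J - i) (by omega), show J - (J - i) = i by omega] at this
    exact this

lemma win (S : Set (ℕ → ℝ)) (hS : IsOpen S) (a : ℕ → ℝ) (ha : a ∈ S) :
    ∃ L : ℕ, ∃ ε : ℝ, 0 < ε ∧ ∀ b : ℕ → ℝ, (∀ t < L, |b t - a t| < ε) → b ∈ S := by
  rw [isOpen_pi_iff] at hS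
  obtain ⟨F, u, hu, hsub⟩ := hS a ha
  have h1 : ∀ᶠ ε in 𝓝[>] (0 : ℝ), ∀ t ∈ F, Metric.ball (a t) ε ⊆ u t := by
    rw [Filter.eventually_all_finset]
    intro t ht
    obtain ⟨δ, hδ, hball⟩ := Metric.isOpen_iff.mp (hu t ht).1 (a t) (hu t ht).2
    filter_upwards [Ioo_mem_nhdsGT hδ] with ε hε
    exact (Metric.ball_subset_ball hε.2.le).trans hball
  obtain ⟨ε, hε, hε0⟩ := (h1.and self_mem_nhdsWithin).exists
  refine ⟨F.sup id + 1, ε, hε0, fun b hb => hsub fun t ht => ?_⟩
  refine hε t ht ?_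
  rw [Metric.mem_ball, Real.dist_eq]
  exact hb t (Nat.lt_succ_of_le (Finset.le_sup (f := id) ht))

/-- mixing -/
lemma mixing (U V : Set X) (hU : IsOpen U) (hV : IsOpen V) (hUn : U.Nonempty) (hVn : V.Nonempty) :
    ∃ N : ℕ, ∀ n : ℕ, N ≤ n → ((⇑(T ^ n)) ⁻¹' V ∩ U).Nonempty := by
  obtain ⟨c, hc⟩ := hUn
  obtain ⟨d, hd⟩ := hVn
  obtain ⟨I1, h1⟩ := basic U hU c hc
  obtain ⟨I2, h2⟩ := basic V hV d hd
  set J := max I1 I2
  obtain ⟨S1, hS1, hcS, hS1U⟩ := h1 J (le_max_left _ _)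
  obtain ⟨S2, hS2, hdS, hS2V⟩ := h2 J (le_max_right _ _)
  obtain ⟨L1, ε1, hε1, hw1⟩ := win S1 hS1 _ hcS
  obtain ⟨L2, ε2, hε2, hw2⟩ := win S2 hS2 _ hdS
  refine ⟨L1, fun n hn => ?_⟩
  obtain ⟨x, hx, hxw⟩ := interp (fun _ => J) (fun t => if t < n then (c : ℕ → ℕ → ℝ) J t
    else (d : ℕ → ℕ → ℝ) J (t - n))
  refine ⟨⟨x, hx⟩, ?_, ?_⟩
  · refine hS2V _ (hw2 _ fun t _ => ?_)
    rw [T_pow]
    show |x J (t + n) - _| < ε2
    rw [hxw (t + n)]
    rw [if_neg (by omega), Nat.add_sub_cancel, sub_self, abs_zero]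
    exact hε2
  · refine hS1U _ (hw1 _ fun t ht => ?_)
    show |x J t - _| < ε1
    rw [hxw t, if_pos (by omega), sub_self, abs_zero]
    exact hε1

/-- frequent hypercyclicity -/
lemma fhc : ∃ x : X, ∀ U : Set X, IsOpen U → U.Nonempty →
        ∃ δ : ℝ, 0 < δ ∧ ∃ N₀ : ℕ, ∀ N : ℕ, N₀ ≤ N →
          δ * (N : ℝ) ≤ (Nat.card {n : ℕ // n < N ∧ (T ^ n) x ∈ U} : ℝ) := by
  classical
  obtain ⟨en, hen⟩ := exists_surjective_nat (ℕ × (ℕ →₀ ℚ))
  -- label `l` has level `(en (unpair l).1).1` and pattern `(en (unpair l).1).2`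
  set lev : ℕ → ℕ := fun l => (en (Nat.unpair l).1).1 with hlev
  set pat : ℕ → ℕ → ℝ := fun l t => (((en (Nat.unpair l).1).2 t : ℚ) : ℝ) with hpat
  obtain ⟨x, hx, hxw⟩ := interp (fun t => lev (Fhc.v (Fhc.N t)))
    (fun t => pat (Fhc.v (Fhc.N t)) (t - Fhc.p (Fhc.N t)))
  have hblock : ∀ n j, j < Fhc.v n → x (lev (Fhc.v n)) (Fhc.p n + j) = pat (Fhc.v n) j := by
    intro n j hj
    have hN : Fhc.N (Fhc.p n + j) = n := by
      refine le_antisymm ?_ (Fhc.le_N (by omega))
      by_contra hcon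
      push Not at hcon
      have h1 := Fhc.sep hcon
      have h2 := Fhc.p_N_le (Fhc.p n + j)
      omega
    have h3 := hxw (Fhc.p n + j)
    simp only [hN, Nat.add_sub_cancel_left] at h3
    exact h3
  refine ⟨⟨x, hx⟩, fun U hU hne => ?_⟩
  obtain ⟨c, hc⟩ := hne
  obtain ⟨J, hJ⟩ := basic U hU c hc
  obtain ⟨S, hS, hcS, hSU⟩ := hJ J le_rfl
  obtain ⟨L, ε, hε, hw⟩ := win S hS _ hcS
  have hr : ∀ t, ∃ r : ℚ, |(r : ℝ) - (c : ℕ → ℕ → ℝ) J t| < ε := by
    intro t
    obtain ⟨r, hr1, hr2⟩ := exists_rat_btwn (show (c : ℕ → ℕ → ℝ) J t < (c : ℕ → ℕ → ℝ) J t + ε by linarith)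
    exact ⟨r, by rw [abs_lt]; constructor <;> linarith⟩
  choose r hr using hr
  let u : ℕ →₀ ℚ := Finsupp.onFinset (Finset.range L) (fun k => if k < L then r k else 0)
      (fun k hk => by
        rw [Finset.mem_range]
        by_contra hcon
        simp [hcon] at hk)
  have hu : ∀ k < L, u k = r k := fun k hk => by
    show (if k < L then r k else 0) = r k
    rw [if_pos hk]
  obtain ⟨i, hi⟩ := hen (J, u)
  set l := Nat.pair i L with hl
  have hl1 : (Nat.unpair l).1 = i := by rw [hl, Nat.unpair_pair]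
  have hl2 : L ≤ l := Nat.right_le_pair i L
  have hlevl : lev l = J := by simp only [hlev, hl1, hi]
  have hpatl : ∀ t < L, pat l t = r t := by
    intro t ht
    simp only [hpat, hl1, hi, hu t ht]
  obtain ⟨δ, hδ, hcount⟩ := Fhc.count (P := fun k => (T ^ k) (⟨x, hx⟩ : X) ∈ U) l (by
    intro n _ hv
    refine hSU _ (hw _ fun t ht => ?_)
    rw [T_pow]
    show |x J (t + Fhc.p n) - _| < ε
    have h1 := hblock n t (by rw [hv]; omega)
    rw [hv, hlevl, hpatl t ht, add_comm] at h1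
    rw [h1]
    exact hr t)
  rw [eventually_atTop] at hcount
  obtain ⟨N₀, hN₀⟩ := hcount
  refine ⟨δ, hδ, N₀, fun N hN => ?_⟩
  exact hN₀ N hN

/-- hypercyclic -/
lemma hyper : ∃ x : X, Dense (Set.range (fun n : ℕ => (T ^ n) x)) := by
  obtain ⟨x, hx⟩ := fhc
  refine ⟨x, ?_⟩
  rw [dense_iff_inter_open]
  intro U hU hne
  obtain ⟨δ, hδ, N₀, h⟩ := hx U hU hne
  have h1 := h (N₀ + 1) (by omega)
  have h2 : (0 : ℝ) < (Nat.card {n : ℕ // n < N₀ + 1 ∧ (T ^ n) x ∈ U} : ℝ) := by
    refine lt_of_lt_of_le ?_ h1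
    push_cast; positivity
  have h3 : 0 < Nat.card {n : ℕ // n < N₀ + 1 ∧ (T ^ n) x ∈ U} := by exact_mod_cast h2
  obtain ⟨⟨n, -, hn⟩⟩ := (Nat.card_pos_iff.mp h3).1
  exact ⟨(T ^ n) x, hn, ⟨n, rfl⟩⟩

section periodic

variable (P : ℕ) [NeZero P]

/-- solving `w(x) - w(x+N) = v(x)` -/
def up (N : ℕ) (v : ZMod P → ℝ) : ZMod P → ℝ :=
  fun x => -(1 / (P : ℝ)) * ∑ k ∈ Finset.range P, (k : ℝ) * v (x + (k : ZMod P) * (N : ZMod P))

lemma sum_range_zmod (f : ZMod P → ℝ) : ∑ k ∈ Finset.range P, f (k : ZMod P) = ∑ z : ZMod P, f z := by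
  obtain ⟨n, hn⟩ : ∃ n, P = n + 1 := ⟨P - 1, by have := NeZero.pos P; omega⟩
  subst hn
  rw [← Fin.sum_univ_eq_sum_range (fun k => f (k : ZMod (n + 1)))]
  refine Finset.sum_congr rfl fun z _ => ?_
  congr 1
  exact Fin.cast_val_eq_self z

lemma full_sum (N : ℕ) (hN : Nat.Coprime N P) (v : ZMod P → ℝ) (hv : ∑ z, v z = 0) (x : ZMod P) :
    ∑ k ∈ Finset.range P, v (x + (k : ZMod P) * (N : ZMod P)) = 0 := by
  rw [sum_range_zmod P (fun z => v (x + z * (N : ZMod P))), ← hv]
  have hunit : IsUnit (N : ZMod P) := (ZMod.isUnit_iff_coprime N P).mpr hN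
  have hinj : Function.Injective fun z : ZMod P => x + z * (N : ZMod P) := by
    intro a b hab
    exact hunit.mul_right_cancel (add_left_cancel hab)
  exact (Finite.injective_iff_bijective.mp hinj).sum_comp v

lemma up_spec (N : ℕ) (hN : Nat.Coprime N P) (v : ZMod P → ℝ) (hv : ∑ z, v z = 0) (x : ZMod P) :
    up P N v x - up P N v (x + (N : ZMod P)) = v x := by
  have hP : (P : ℝ) ≠ 0 := by exact_mod_cast NeZero.ne P
  unfold up
  have h1 : ∑ k ∈ Finset.range P, (k : ℝ) * v (x + (N : ZMod P) + (k : ZMod P) * (N : ZMod P)) =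
      (∑ k ∈ Finset.range P, (k : ℝ) * v (x + (k : ZMod P) * (N : ZMod P))) + P * v x := by
    have h2 : ∀ k : ℕ, v (x + (N : ZMod P) + (k : ZMod P) * (N : ZMod P)) =
        v (x + ((k + 1 : ℕ) : ZMod P) * (N : ZMod P)) := by
      intro k; congr 1; push_cast; ring
    simp only [h2]
    have h3 : ∑ k ∈ Finset.range P, ((k + 1 : ℕ) : ℝ) * v (x + ((k + 1 : ℕ) : ZMod P) * (N : ZMod P)) =
        (∑ k ∈ Finset.range P, (k : ℝ) * v (x + (k : ZMod P) * (N : ZMod P))) + P * v x := by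
      have h4 := Finset.sum_range_succ' (fun k : ℕ => (k : ℝ) * v (x + (k : ZMod P) * (N : ZMod P))) P
      have h5 := Finset.sum_range_succ (fun k : ℕ => (k : ℝ) * v (x + (k : ZMod P) * (N : ZMod P))) P
      rw [h5] at h4
      simp only [Nat.cast_zero, zero_mul, add_zero, ZMod.natCast_self] at h4
      exact h4.symm
    have h6 := full_sum P N hN v hv (x + (N : ZMod P))
    simp only [h2] at h6
    have h7 : ∑ k ∈ Finset.range P, ((k + 1 : ℕ) : ℝ) * v (x + ((k + 1 : ℕ) : ZMod P) * (N : ZMod P)) =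
        ∑ k ∈ Finset.range P, (k : ℝ) * v (x + ((k + 1 : ℕ) : ZMod P) * (N : ZMod P)) +
        ∑ k ∈ Finset.range P, v (x + ((k + 1 : ℕ) : ZMod P) * (N : ZMod P)) := by
      rw [← Finset.sum_add_distrib]
      refine Finset.sum_congr rfl fun k _ => ?_
      push_cast; ring
    rw [h6, add_zero] at h7
    rw [← h7, h3]
  rw [h1]
  field_simp
  ring

lemma shift_sum (v : ZMod P → ℝ) (y : ZMod P) : ∑ z, v (z + y) = ∑ z, v z :=
  Fintype.sum_equiv (Equiv.addRight y) _ _ fun _ => rfl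

lemma up_sum (N : ℕ) (v : ZMod P → ℝ) (hv : ∑ z, v z = 0) : ∑ z, up P N v z = 0 := by
  unfold up
  rw [← Finset.mul_sum, Finset.sum_comm]
  have : ∀ k ∈ Finset.range P, ∑ x : ZMod P, (k : ℝ) * v (x + (k : ZMod P) * (N : ZMod P)) = 0 := by
    intro k _
    rw [← Finset.mul_sum, shift_sum, hv, mul_zero]
  rw [Finset.sum_congr rfl this]
  simp

/-- the sequence of levels, below and above `I` -/
def dn (I : ℕ) (u : ZMod P → ℝ) : ℕ → (ZMod P → ℝ)
  | 0 => u
  | k + 1 => fun x => dn I u k x - dn I u k (x + ((3 ^ (I - k - 1) : ℕ) : ZMod P))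

def ups (I : ℕ) (u : ZMod P → ℝ) : ℕ → (ZMod P → ℝ)
  | 0 => u
  | k + 1 => up P (3 ^ (I + k)) (ups I u k)

lemma ups_sum (I : ℕ) (u : ZMod P → ℝ) (hu : ∑ z, u z = 0) (k : ℕ) : ∑ z, ups P I u k z = 0 := by
  induction k with
  | zero => exact hu
  | succ k ih => exact up_sum P _ _ ih

def lv (I : ℕ) (u : ZMod P → ℝ) (i : ℕ) : ZMod P → ℝ :=
  if i ≤ I then dn P I u (I - i) else ups P I u (i - I)

lemma lv_rel (I : ℕ) (u : ZMod P → ℝ) (hu : ∑ z, u z = 0) (hP : Nat.Coprime 3 P) (i : ℕ) (x : ZMod P) :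
    lv P I u (i + 1) x - lv P I u (i + 1) (x + ((3 ^ i : ℕ) : ZMod P)) = lv P I u i x := by
  unfold lv
  by_cases h : i + 1 ≤ I
  · rw [if_pos h, if_pos (by omega)]
    obtain ⟨k, hk⟩ : ∃ k, I - i = k + 1 := ⟨I - i - 1, by omega⟩
    rw [hk, show I - (i + 1) = k by omega]
    show _ = dn P I u k x - dn P I u k (x + ((3 ^ (I - k - 1) : ℕ) : ZMod P))
    rw [show I - k - 1 = i by omega]
  · rw [if_neg h]
    have h2 : (if i ≤ I then dn P I u (I - i) else ups P I u (i - I)) = ups P I u (i - I) := by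
      by_cases h3 : i ≤ I
      · have : i = I := by omega
        rw [if_pos h3, this, Nat.sub_self]; rfl
      · rw [if_neg h3]
    rw [h2, show i + 1 - I = (i - I) + 1 by omega]
    show up P (3 ^ (I + (i - I))) (ups P I u (i - I)) x -
      up P (3 ^ (I + (i - I))) (ups P I u (i - I)) (x + ((3 ^ i : ℕ) : ZMod P)) = _
    rw [show I + (i - I) = i by omega]
    exact up_spec P (3 ^ i) (Nat.Coprime.pow_left i hP) _ (ups_sum P I u hu _) x

end periodic

/-- periodic points are dense -/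
lemma chaos : Dense {x : X | ∃ n : ℕ, 0 < n ∧ (T ^ n) x = x} := by
  rw [dense_iff_inter_open]
  intro U hU hne
  obtain ⟨c, hc⟩ := hne
  obtain ⟨I, hI⟩ := basic U hU c hc
  obtain ⟨S, hS, hcS, hSU⟩ := hI I le_rfl
  obtain ⟨L, ε, hε, hw⟩ := win S hS _ hcS
  set P : ℕ := 2 ^ (L + 1) with hPdef
  have : NeZero P := ⟨by positivity⟩
  have hLP : L < P := by
    have h1 : L < 2 ^ L := Nat.lt_two_pow_self
    have h2 : 2 ^ L ≤ 2 ^ (L + 1) := Nat.pow_le_pow_right (by norm_num) (by omega)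
    omega
  have hcop : Nat.Coprime 3 P := by
    rw [hPdef]; exact Nat.Coprime.pow_right _ (by norm_num)
  -- pattern on a period
  set s : ℝ := ∑ t ∈ Finset.range L, (c : ℕ → ℕ → ℝ) I t with hs
  set u : ZMod P → ℝ := fun z => if z.val < L then (c : ℕ → ℕ → ℝ) I z.val else
    if z.val = L then -s else 0 with hu
  have hval : ∀ t < P, ((t : ZMod P)).val = t := fun t ht => ZMod.val_natCast_of_lt ht
  have husum : ∑ z, u z = 0 := by
    rw [← sum_range_zmod P u]
    have h1 : ∀ t ∈ Finset.range P, u (t : ZMod P) = if t < L then (c : ℕ → ℕ → ℝ) I t else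
        if t = L then -s else 0 := by
      intro t ht
      simp only [hu, hval t (Finset.mem_range.mp ht)]
    rw [Finset.sum_congr rfl h1]
    obtain ⟨m, hm⟩ : ∃ m, P = L + (m + 1) := ⟨P - L - 1, by omega⟩
    rw [hm, Finset.sum_range_add, Finset.sum_range_succ']
    have h2 : ∑ t ∈ Finset.range L, (if t < L then (c : ℕ → ℕ → ℝ) I t else
        if t = L then -s else 0) = s := by
      rw [hs]
      refine Finset.sum_congr rfl fun t ht => ?_
      rw [if_pos (Finset.mem_range.mp ht)]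
    have h3 : ∑ k ∈ Finset.range m, (if L + (k + 1) < L then (c : ℕ → ℕ → ℝ) I (L + (k + 1)) else
        if L + (k + 1) = L then -s else 0) = 0 := by
      refine Finset.sum_eq_zero fun k _ => ?_
      rw [if_neg (by omega), if_neg (by omega)]
    rw [h2, h3, if_neg (by omega), if_pos (by omega)]
    ring
  set y : ℕ → ℕ → ℝ := fun i t => lv P I u i (t : ZMod P) with hy
  have hyX : y ∈ X := by
    rw [mem_X]
    intro i t
    have h1 := lv_rel P I u husum hcop i (t : ZMod P)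
    simp only [hy]
    rw [← h1]
    push_cast
    ring_nf
  refine ⟨⟨y, hyX⟩, ?_, P, NeZero.pos P, ?_⟩
  · refine hSU _ (hw _ fun t ht => ?_)
    show |lv P I u I (t : ZMod P) - _| < ε
    have h1 : lv P I u I = u := by
      unfold lv
      rw [if_pos le_rfl, Nat.sub_self]; rfl
    rw [h1]
    simp only [hu, hval t (by omega)]
    rw [if_pos ht, sub_self, abs_zero]
    exact hε
  · apply Subtype.ext
    funext i t
    rw [T_pow]
    show lv P I u i ((t + P : ℕ) : ZMod P) = lv P I u i (t : ZMod P)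
    congr 1
    push_cast
    simp

/-- sums along multiples of `N` tend to zero -/
lemma tails (a : ℕ → ℝ) (ha : Summable a) : Tendsto (fun N : ℕ => ∑' k : ℕ, a ((k + 1) * N)) atTop (𝓝 0) := by
  have hab := ha.abs
  have h1 : Tendsto (fun N : ℕ => ∑' k : ℕ, |a (k + N)|) atTop (𝓝 0) :=
    tendsto_sum_nat_add (fun k => |a k|)
  refine squeeze_zero_norm' ?_ h1
  filter_upwards [eventually_gt_atTop 0] with N hN
  have hinj : Function.Injective fun k : ℕ => k * N := fun i j hij =>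
    Nat.eq_of_mul_eq_mul_right hN hij
  have hs1 : Summable fun k : ℕ => |a ((k + 1) * N)| := by
    have hinj2 : Function.Injective fun k : ℕ => (k + 1) * N := fun i j hij => by
      have := Nat.eq_of_mul_eq_mul_right hN hij
      omega
    exact hab.comp_injective hinj2
  have hs2 : Summable fun k : ℕ => |a (k + N)| := (summable_nat_add_iff N).mpr hab
  have h2 : ‖∑' k : ℕ, a ((k + 1) * N)‖ ≤ ∑' k : ℕ, |a ((k + 1) * N)| :=
    norm_tsum_le_tsum_norm hs1
  refine h2.trans ?_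
  have h3 : ∑' k : ℕ, |a ((k + 1) * N)| = ∑' k : ℕ, (fun m => |a (m + N)|) (k * N) := by
    refine tsum_congr fun k => ?_
    simp only
    congr 2; ring
  rw [h3]
  exact Summable.tsum_le_tsum_of_inj (fun k : ℕ => k * N) hinj (fun _ _ => abs_nonneg _)
    (fun _ => le_rfl) (hs2.comp_injective hinj) hs2

/-- the criterion fails -/
lemma no_fhcc : ¬ ∃ X₀ : Set X, Dense X₀ ∧ ∃ S : X → X, (∀ x ∈ X₀, S x ∈ X₀) ∧
        ∀ x ∈ X₀, Summable (fun n : ℕ => (T ^ n) x) ∧
          Summable (fun n : ℕ => S^[n] x) ∧ T (S x) = x := by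
  rintro ⟨X₀, hd, S, hS, h⟩
  have hall : ∀ x ∈ X₀, x = 0 := by
    intro x hx
    obtain ⟨h1, h2, -⟩ := h x hx
    have hiter : ∀ n, S^[n] x ∈ X₀ := by
      intro n
      induction n with
      | zero => exact hx
      | succ n ih => rw [Function.iterate_succ_apply']; exact hS _ ih
    have hTS : ∀ m n, (T ^ m) (S^[m + n] x) = S^[n] x := by
      intro m
      induction m with
      | zero => intro n; rw [zero_add]; rfl
      | succ m ih =>
        intro n
        rw [pow_succ, mul_apply_eq_comp, show m + 1 + n = (m + n) + 1 by ring,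
          Function.iterate_succ_apply', (h _ (hiter _)).2.2, ih]
    -- fixed vectors
    have hfix : ∀ N : ℕ, 0 < N →
        (T ^ N) ((∑' k : ℕ, (T ^ (k * N)) x) + ∑' k : ℕ, S^[(k + 1) * N] x) =
          (∑' k : ℕ, (T ^ (k * N)) x) + ∑' k : ℕ, S^[(k + 1) * N] x := by
      intro N hN
      have hinj : Function.Injective fun k : ℕ => k * N := fun i j hij =>
        Nat.eq_of_mul_eq_mul_right hN hij
      have hinj2 : Function.Injective fun k : ℕ => (k + 1) * N := fun i j hij => by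
        have := Nat.eq_of_mul_eq_mul_right hN hij
        omega
      have s1 : Summable fun k : ℕ => (T ^ (k * N)) x := h1.comp_injective hinj
      have s2 : Summable fun k : ℕ => S^[k * N] x := h2.comp_injective hinj
      have s3 : Summable fun k : ℕ => S^[(k + 1) * N] x := h2.comp_injective hinj2
      rw [map_add, (T ^ N).map_tsum s1, (T ^ N).map_tsum s3]
      have e1 : ∀ k : ℕ, (T ^ N) ((T ^ (k * N)) x) = (T ^ ((k + 1) * N)) x := by
        intro k
        rw [show (k + 1) * N = N + k * N by ring, pow_add, mul_apply_eq_comp]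
      have e2 : ∀ k : ℕ, (T ^ N) (S^[(k + 1) * N] x) = S^[k * N] x := by
        intro k
        rw [show (k + 1) * N = N + k * N by ring, hTS]
      simp only [e1, e2]
      rw [s1.tsum_eq_zero_add, s2.tsum_eq_zero_add]
      simp only [zero_mul, pow_zero, Function.iterate_zero, id_eq]
      have e3 : (1 : X →L[ℝ] X) x = x := rfl
      rw [e3]
      abel
    have hzero : ∀ m : ℕ, (∑' k : ℕ, (T ^ (k * 3 ^ m)) x) + ∑' k : ℕ, S^[(k + 1) * 3 ^ m] x = 0 := by
      intro m
      exact no_fixed m _ (hfix (3 ^ m) (by positivity))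
    -- coordinates
    apply Subtype.ext
    funext i t
    have hcont : Continuous fun c : X => (c : ℕ → ℕ → ℝ) i t := by
      have h3 : Continuous fun c : ℕ → ℕ → ℝ => c i t := by fun_prop
      exact h3.comp continuous_subtype_val
    let π : X →L[ℝ] ℝ := ⟨⟨⟨fun c => (c : ℕ → ℕ → ℝ) i t, fun _ _ => rfl⟩, fun _ _ => rfl⟩, hcont⟩
    have hπ1 : Summable fun n : ℕ => π ((T ^ n) x) := h1.map π hcont
    have hπ2 : Summable fun n : ℕ => π (S^[n] x) := h2.map π hcont
    have hcoord : ∀ m : ℕ, π x = -((∑' k : ℕ, π ((T ^ ((k + 1) * 3 ^ m)) x)) +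
        ∑' k : ℕ, π (S^[(k + 1) * 3 ^ m] x)) := by
      intro m
      have hN : 0 < 3 ^ m := by positivity
      have hinj : Function.Injective fun k : ℕ => k * 3 ^ m := fun i j hij =>
        Nat.eq_of_mul_eq_mul_right hN hij
      have hinj2 : Function.Injective fun k : ℕ => (k + 1) * 3 ^ m := fun i j hij => by
        have := Nat.eq_of_mul_eq_mul_right hN hij
        omega
      have s1 : Summable fun k : ℕ => (T ^ (k * 3 ^ m)) x := h1.comp_injective hinj
      have s3 : Summable fun k : ℕ => S^[(k + 1) * 3 ^ m] x := h2.comp_injective hinj2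
      have s4 : Summable fun k : ℕ => π ((T ^ (k * 3 ^ m)) x) := s1.map π hcont
      have h5 := congrArg π (hzero m)
      rw [map_add, map_zero, π.map_tsum s1, π.map_tsum s3, s4.tsum_eq_zero_add] at h5
      simp only [zero_mul, pow_zero] at h5
      have e3 : (1 : X →L[ℝ] X) x = x := rfl
      rw [e3] at h5
      linarith
    have hlim : Tendsto (fun m : ℕ => -((∑' k : ℕ, π ((T ^ ((k + 1) * 3 ^ m)) x)) +
        ∑' k : ℕ, π (S^[(k + 1) * 3 ^ m] x))) atTop (𝓝 (-(0 + 0))) := by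
      have h3 : Tendsto (fun m : ℕ => 3 ^ m) atTop atTop :=
        tendsto_pow_atTop_atTop_of_one_lt (by norm_num)
      exact (((tails _ hπ1).comp h3).add ((tails _ hπ2).comp h3)).neg
    have hconst : Tendsto (fun _ : ℕ => π x) atTop (𝓝 (-(0 + 0))) :=
      hlim.congr fun m => (hcoord m).symm
    have := tendsto_nhds_unique hconst tendsto_const_nhds
    have h6 : π x = 0 := by rw [← this]; norm_num
    exact h6
  -- but `X ≠ 0`
  obtain ⟨c, hc, hcw⟩ := interp (fun _ => 0) (fun _ => 1)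
  have hne : (⟨c, hc⟩ : X) ≠ 0 := by
    intro h0
    have h1 : c = 0 := congrArg Subtype.val h0
    have := hcw 0
    rw [h1] at this
    simp at this
  have hopen : IsOpen ({0}ᶜ : Set X) := isOpen_compl_singleton
  obtain ⟨z, hz1, hz2⟩ := hd.inter_open_nonempty _ hopen ⟨_, hne⟩
  exact hz1 (hall z hz2)

end

end Pool.Agent.Y265.Fc
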