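import Mathlib

set_option autoImplicit false

open MeasureTheory Filter Topology
open scoped ENNReal InnerProductSpace

namespace Pool.Agent.Y265.Gb

noncomputable section

/-- if `‖V h x‖ = e^{-c h}‖x‖` for `h>0`, and `y` is the derivative of `V · x` at `0`, then
`re ⟪x,y⟫ = -c‖x‖²`. -/
lemma gen_re {E : Type*} [NormedAddCommGroup E] [InnerProductSpace ℂ E]
    (V : ℝ → E) (c : ℝ) (x y : E)
    (hV : ∀ h : ℝ, 0 < h → ‖V h‖ = Real.exp (-(c * h)) * ‖x‖)
    (hlim : Tendsto (fun h : ℝ => ((h : ℂ)⁻¹) • (V h - x)) (𝓝[>] 0) (𝓝 y)) :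
    Complex.re (⟪x, y⟫_ℂ) = -c * ‖x‖ ^ 2 := by
  have h1 : Tendsto (fun h : ℝ => Complex.re (⟪x, ((h : ℂ)⁻¹) • (V h - x)⟫_ℂ)) (𝓝[>] 0)
      (𝓝 (Complex.re (⟪x, y⟫_ℂ))) := by
    have := (Complex.continuous_re.tendsto _).comp
      ((tendsto_const_nhds (x := x)).inner (𝕜 := ℂ) hlim)
    exact this
  have h2 : Tendsto (fun h : ℝ => h * ‖((h : ℂ)⁻¹) • (V h - x)‖ ^ 2) (𝓝[>] 0) (𝓝 (0 * ‖y‖ ^ 2)) := by
    refine Tendsto.mul ?_ (hlim.norm.pow 2)
    exact tendsto_nhdsWithin_of_tendsto_nhds tendsto_id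
  rw [zero_mul] at h2
  have h3 : Tendsto (fun h : ℝ => h⁻¹ * (Real.exp (-(2 * c * h)) - 1)) (𝓝[>] 0) (𝓝 (-(2 * c))) := by
    have hd : HasDerivAt (fun h : ℝ => Real.exp (-(2 * c * h))) (-(2 * c)) 0 := by
      have h0 : HasDerivAt (fun h : ℝ => -(2 * c * h)) (-(2 * c)) 0 := by
        have := (hasDerivAt_id (0 : ℝ)).const_mul (-(2 * c))
        have h00 : (fun h : ℝ => -(2 * c * h)) = fun h : ℝ => -(2 * c) * id h := by
          funext h; simp
        rw [h00]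
        simpa using this
      have := h0.exp
      simpa using this
    have hs := hd.tendsto_slope_zero_right
    refine hs.congr ?_
    intro h
    simp [smul_eq_mul]
  have h4 : ∀ h : ℝ, 0 < h → Complex.re (⟪x, ((h : ℂ)⁻¹) • (V h - x)⟫_ℂ) =
      (h⁻¹ * (Real.exp (-(2 * c * h)) - 1) * ‖x‖ ^ 2
        - h * ‖((h : ℂ)⁻¹) • (V h - x)‖ ^ 2) / 2 := by
    intro h hh
    have e1 : ‖V h‖ ^ 2 = ‖x‖ ^ 2 + 2 * Complex.re (⟪x, V h - x⟫_ℂ) + ‖V h - x‖ ^ 2 := by
      have := @norm_add_sq ℂ E _ _ _ x (V h - x)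
      rw [add_sub_cancel] at this
      exact this
    rw [hV h hh, mul_pow, ← Real.exp_nat_mul] at e1
    have e2 : Complex.re (⟪x, ((h : ℂ)⁻¹) • (V h - x)⟫_ℂ)
        = h⁻¹ * Complex.re (⟪x, V h - x⟫_ℂ) := by
      rw [inner_smul_right, ← Complex.ofReal_inv, Complex.re_ofReal_mul]
    have e3 : ‖((h : ℂ)⁻¹) • (V h - x)‖ ^ 2 = (h⁻¹) ^ 2 * ‖V h - x‖ ^ 2 := by
      rw [norm_smul, mul_pow, ← Complex.ofReal_inv, Complex.norm_real, Real.norm_eq_abs, sq_abs]
    rw [e2, e3]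
    have e4 : Real.exp (((2 : ℕ) : ℝ) * (-(c * h))) = Real.exp (-(2 * c * h)) := by
      congr 1; push_cast; ring
    rw [e4] at e1
    have hne : h ≠ 0 := hh.ne'
    have e5 : ‖V h - x‖ ^ 2 = Real.exp (-(2 * c * h)) * ‖x‖ ^ 2 - ‖x‖ ^ 2
        - 2 * Complex.re (⟪x, V h - x⟫_ℂ) := by linarith
    rw [e5]
    field_simp
    ring
  have h5 : Tendsto (fun h : ℝ => Complex.re (⟪x, ((h : ℂ)⁻¹) • (V h - x)⟫_ℂ)) (𝓝[>] 0)
      (𝓝 ((-(2 * c) * ‖x‖ ^ 2 - 0) / 2)) := by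
    refine Tendsto.congr' ?_ (((h3.mul_const (‖x‖ ^ 2)).sub h2).div_const 2)
    filter_upwards [self_mem_nhdsWithin] with h hh
    exact (h4 h hh).symm
  have := tendsto_nhds_unique h1 h5
  rw [this]; ring

/-- the resolvent lower bound for a single component. -/
lemma comp_lower {E : Type*} [NormedAddCommGroup E] [InnerProductSpace ℂ E]
    (V : ℝ → E) (c : ℝ) (x y : E)
    (hV : ∀ h : ℝ, 0 < h → ‖V h‖ = Real.exp (-(c * h)) * ‖x‖)
    (hlim : Tendsto (fun h : ℝ => ((h : ℂ)⁻¹) • (V h - x)) (𝓝[>] 0) (𝓝 y)) (μ : ℂ) :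
    |μ.re + c| * ‖x‖ ≤ ‖μ • x - y‖ := by
  by_cases hx : x = 0
  · subst hx; simp
  have hxp : 0 < ‖x‖ := norm_pos_iff.mpr hx
  have h1 := gen_re V c x y hV hlim
  have h2 : Complex.re (⟪x, μ • x - y⟫_ℂ) = (μ.re + c) * ‖x‖ ^ 2 := by
    rw [inner_sub_right, inner_smul_right, Complex.sub_re, h1, inner_self_eq_norm_sq_to_K]
    have : (μ * ((‖x‖ : ℝ) : ℂ) ^ 2).re = μ.re * ‖x‖ ^ 2 := by
      rw [← Complex.ofReal_pow, mul_comm, Complex.re_ofReal_mul, mul_comm]
    rw [show (((‖x‖ : ℝ) : ℂ)) = ((‖x‖ : ℂ)) from rfl] at this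
    erw [this]
    ring
  have h3 : |Complex.re (⟪x, μ • x - y⟫_ℂ)| ≤ ‖x‖ * ‖μ • x - y‖ :=
    (Complex.abs_re_le_norm _).trans (norm_inner_le_norm _ _)
  rw [h2, abs_mul, abs_of_nonneg (sq_nonneg ‖x‖)] at h3
  have h4 : ‖x‖ * (|μ.re + c| * ‖x‖) ≤ ‖x‖ * ‖μ • x - y‖ := by
    calc ‖x‖ * (|μ.re + c| * ‖x‖) = |μ.re + c| * ‖x‖ ^ 2 := by ring
      _ ≤ _ := h3
  exact le_of_mul_le_mul_left h4 hxp

abbrev E := Lp ℂ 2 (volume : Measure ℝ)
abbrev L := lp (fun _ : ℕ => E) 2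

/-- translation -/
def tr (t : ℝ) : E →ₗᵢ[ℂ] E :=
  Lp.compMeasurePreservingₗᵢ ℂ (fun s : ℝ => s - t) (measurePreserving_sub_right volume t)

lemma tr_coe (t : ℝ) (f : E) : (tr t f : ℝ → ℂ) =ᵐ[volume] fun s => f (s - t) :=
  Lp.coeFn_compMeasurePreserving f (measurePreserving_sub_right volume t)

lemma tr_add (s t : ℝ) (f : E) : tr (s + t) f = tr s (tr t f) := by
  apply Lp.ext
  have h1 := tr_coe (s + t) f
  have h2 := tr_coe s (tr t f)
  have h3 := (measurePreserving_sub_right (volume : Measure ℝ) s).quasiMeasurePreserving.ae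
    (tr_coe t f)
  filter_upwards [h1, h2, h3] with u h1 h2 h3
  rw [h1, h2, h3]
  congr 1; ring

lemma tr_zero (f : E) : tr 0 f = f := by
  apply Lp.ext
  filter_upwards [tr_coe 0 f] with u h1
  rw [h1, sub_zero]

lemma tr_cont (f : E) : Continuous fun t : ℝ => tr t f := by
  have hg : Continuous fun t : ℝ => (⟨fun s : ℝ => s - t, by fun_prop⟩ : C(ℝ, ℝ)) := by
    apply ContinuousMap.continuous_of_continuous_uncurry
    exact (continuous_snd.sub continuous_fst)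
  exact (continuous_const (y := f)).compMeasurePreservingLp hg
    (fun t => measurePreserving_sub_right volume t) (by norm_num)

/-- exponents -/
def a (k : ℕ) : ℝ := (1 / 2) ^ k

lemma a_pos (k : ℕ) : 0 < a k := by unfold a; positivity
lemma a_succ (k : ℕ) : a k = 2 * a (k + 1) := by unfold a; rw [pow_succ]; ring

/-- component semigroup -/
def V (t : ℝ) (k : ℕ) : E →ₗ[ℂ] E := ((Real.exp (-(a k * t)) : ℝ) : ℂ) • (tr t).toLinearMap

lemma V_apply (t : ℝ) (k : ℕ) (f : E) : V t k f = ((Real.exp (-(a k * t)) : ℝ) : ℂ) • tr t f := rfl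

lemma V_norm (t : ℝ) (k : ℕ) (f : E) : ‖V t k f‖ = Real.exp (-(a k * t)) * ‖f‖ := by
  rw [V_apply, norm_smul, Complex.norm_real, Real.norm_eq_abs, abs_of_pos (Real.exp_pos _),
    LinearIsometry.norm_map]

lemma V_le (t : ℝ) (ht : 0 ≤ t) (k : ℕ) (f : E) : ‖V t k f‖ ≤ ‖f‖ := by
  rw [V_norm]
  have : Real.exp (-(a k * t)) ≤ 1 := by
    rw [Real.exp_le_one_iff]
    have := mul_nonneg (a_pos k).le ht
    linarith
  exact mul_le_of_le_one_left (norm_nonneg _) this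

lemma V_add (s t : ℝ) (k : ℕ) (f : E) : V (s + t) k f = V s k (V t k f) := by
  rw [V_apply, V_apply, V_apply, map_smul, smul_smul, tr_add, ← Complex.ofReal_mul, ← Real.exp_add]
  congr 3; ring

lemma V_zero (k : ℕ) (f : E) : V 0 k f = f := by
  rw [V_apply, tr_zero]; simp

lemma V_cont (k : ℕ) (f : E) : Continuous fun t : ℝ => V t k f := by
  simp only [V_apply]
  have h1 : Continuous fun t : ℝ => ((Real.exp (-(a k * t)) : ℝ) : ℂ) := by fun_prop
  exact h1.smul (tr_cont f)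

/-- the operator on the big space -/
def W (t : ℝ) (ht : 0 ≤ t) : L →L[ℂ] L :=
  LinearMap.mkContinuous
    { toFun := fun F => ⟨fun k => V t k (F k), by
        have := lp.memℓp F
        refine Memℓp.mono' this (fun k => V_le t ht k (F k)) ⟩
      map_add' := fun F G => by
        apply lp.ext; funext k
        exact map_add (V t k) (F k) (G k)
      map_smul' := fun c F => by
        apply lp.ext; funext k
        exact map_smul (V t k) c (F k) } 1
    (fun F => by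
      rw [one_mul]
      exact lp.norm_mono (by norm_num) (fun k => V_le t ht k (F k)))

lemma W_apply (t : ℝ) (ht : 0 ≤ t) (F : L) (k : ℕ) : W t ht F k = V t k (F k) := rfl

lemma W_norm (t : ℝ) (ht : 0 ≤ t) : ‖W t ht‖ ≤ 1 := LinearMap.mkContinuous_norm_le _ zero_le_one _

/-- norm formula -/
lemma L_norm (F : L) : HasSum (fun k => ‖F k‖ ^ 2) (‖F‖ ^ 2) := by
  have := lp.hasSum_norm (p := 2) (by norm_num) F
  simpa using this

lemma L_tendsto {F : ℝ → L} {l : Filter ℝ} {G : L} (B : ℕ → ℝ) (hB : Summable B)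
    (hb : ∀ᶠ t in l, ∀ k, ‖F t k - G k‖ ^ 2 ≤ B k)
    (hc : ∀ k, Tendsto (fun t => F t k) l (𝓝 (G k))) : Tendsto F l (𝓝 G) := by
  have h1 : Tendsto (fun t => ∑' k, ‖F t k - G k‖ ^ 2) l (𝓝 (∑' k : ℕ, (0 : ℝ))) := by
    refine tendsto_tsum_of_dominated_convergence hB ?_ ?_
    · intro k
      have : Tendsto (fun t => ‖F t k - G k‖ ^ 2) l (𝓝 (‖G k - G k‖ ^ 2)) :=
        (((hc k).sub_const (G k)).norm.pow 2)
      simpa using this
    · filter_upwards [hb] with t ht k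
      rw [Real.norm_eq_abs, abs_of_nonneg (by positivity)]
      exact ht k
  rw [tsum_zero] at h1
  have h2 : ∀ t, ∑' k, ‖F t k - G k‖ ^ 2 = ‖F t - G‖ ^ 2 := by
    intro t
    exact (L_norm (F t - G)).tsum_eq
  simp only [h2] at h1
  rw [tendsto_iff_norm_sub_tendsto_zero]
  have h3 : Tendsto (fun t => Real.sqrt (‖F t - G‖ ^ 2)) l (𝓝 (Real.sqrt 0)) :=
    (Real.continuous_sqrt.tendsto 0).comp h1
  rw [Real.sqrt_zero] at h3
  refine h3.congr fun t => Real.sqrt_sq (norm_nonneg _)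

/-- the dense class -/
def S0 : Submodule ℂ L where
  carrier := {F | ∀ k, (F k : ℝ → ℂ) =ᵐ[volume] fun s =>
    if 0 < s then ((Real.sqrt 2 * Real.exp (-(a (k + 1) * s)) : ℝ) : ℂ) * (F (k + 1) : ℝ → ℂ) s else 0}
  add_mem' := by
    intro F G hF hG k
    have e1 : (((F + G : L) k : E) : ℝ → ℂ) =ᵐ[volume] fun s => (F k : ℝ → ℂ) s + (G k : ℝ → ℂ) s :=
      Lp.coeFn_add (F k) (G k)
    have e2 : (((F + G : L) (k+1) : E) : ℝ → ℂ) =ᵐ[volume]
        fun s => (F (k+1) : ℝ → ℂ) s + (G (k+1) : ℝ → ℂ) s :=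
      Lp.coeFn_add (F (k+1)) (G (k+1))
    filter_upwards [e1, e2, hF k, hG k] with s h1 h2 h3 h4
    rw [h1, h2, h3, h4]
    split_ifs
    · ring
    · simp
  zero_mem' := by
    intro k
    have e1 : (((0 : L) k : E) : ℝ → ℂ) =ᵐ[volume] fun s => 0 := Lp.coeFn_zero ℂ 2 volume
    have e2 : (((0 : L) (k+1) : E) : ℝ → ℂ) =ᵐ[volume] fun s => 0 := Lp.coeFn_zero ℂ 2 volume
    filter_upwards [e1, e2] with s h1 h2
    rw [h1, h2]; simp
  smul_mem' := by
    intro c F hF k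
    have e1 : (((c • F : L) k : E) : ℝ → ℂ) =ᵐ[volume] fun s => c * (F k : ℝ → ℂ) s :=
      Lp.coeFn_smul c (F k)
    have e2 : (((c • F : L) (k+1) : E) : ℝ → ℂ) =ᵐ[volume] fun s => c * (F (k+1) : ℝ → ℂ) s :=
      Lp.coeFn_smul c (F (k+1))
    filter_upwards [e1, e2, hF k] with s h1 h2 h3
    rw [h1, h2, h3]
    split_ifs
    · ring
    · simp

lemma S0_mem {F : L} : F ∈ S0 ↔ ∀ k, (F k : ℝ → ℂ) =ᵐ[volume] fun s =>
    if 0 < s then ((Real.sqrt 2 * Real.exp (-(a (k + 1) * s)) : ℝ) : ℂ) * (F (k + 1) : ℝ → ℂ) s else 0 :=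
  Iff.rfl

lemma S0_inv (t : ℝ) (ht : 0 ≤ t) {F : L} (hF : F ∈ S0) : W t ht F ∈ S0 := by
  rw [S0_mem] at hF ⊢
  intro k
  rw [W_apply, W_apply]
  have c : ∀ j, ((V t j (F j) : E) : ℝ → ℂ) =ᵐ[volume]
      fun s => ((Real.exp (-(a j * t)) : ℝ) : ℂ) * (F j : ℝ → ℂ) (s - t) := by
    intro j
    filter_upwards [Lp.coeFn_smul ((Real.exp (-(a j * t)) : ℝ) : ℂ) (tr t (F j)), tr_coe t (F j)]
      with s h1 h2
    rw [V_apply, h1, Pi.smul_apply, h2, smul_eq_mul]
  have q := (measurePreserving_sub_right (volume : Measure ℝ) t).quasiMeasurePreserving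
  filter_upwards [c k, c (k + 1), q.ae (hF k), q.ae (hF (k + 1))] with s h1 h2 h3 h4
  rw [h1, h2, h3]
  by_cases hs : 0 < s - t
  · have hs' : 0 < s := by linarith
    rw [if_pos hs, if_pos hs']
    have e : ((Real.exp (-(a k * t)) : ℝ) : ℂ) *
        ((Real.sqrt 2 * Real.exp (-(a (k + 1) * (s - t))) : ℝ) : ℂ)
        = ((Real.sqrt 2 * Real.exp (-(a (k + 1) * s)) : ℝ) : ℂ) *
          ((Real.exp (-(a (k + 1) * t)) : ℝ) : ℂ) := by
      rw [← Complex.ofReal_mul, ← Complex.ofReal_mul]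
      congr 1
      have : Real.exp (-(a k * t)) * (Real.sqrt 2 * Real.exp (-(a (k + 1) * (s - t))))
        = Real.sqrt 2 * (Real.exp (-(a k * t)) * Real.exp (-(a (k + 1) * (s - t)))) := by ring
      rw [this, mul_assoc, ← Real.exp_add, ← Real.exp_add]
      congr 2
      rw [a_succ k]; ring
    rw [← mul_assoc, ← mul_assoc, e]
  · rw [if_neg hs, h4, if_neg hs]
    simp

lemma S0_le {F : L} (hF : F ∈ S0) (k : ℕ) : ‖F k‖ ≤ Real.sqrt 2 * ‖F (k + 1)‖ := by
  apply Lp.norm_le_mul_norm_of_ae_le_mul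
  filter_upwards [hF k] with s hs
  rw [hs]
  split_ifs with h
  · rw [norm_mul, Complex.norm_real, Real.norm_eq_abs, abs_of_pos (by positivity)]
    refine mul_le_mul_of_nonneg_right ?_ (norm_nonneg _)
    have : Real.exp (-(a (k + 1) * s)) ≤ 1 := by
      rw [Real.exp_le_one_iff]
      have := mul_nonneg (a_pos (k+1)).le h.le
      linarith
    exact mul_le_of_le_one_right (Real.sqrt_nonneg _) this
  · rw [norm_zero]; positivity

/-- the Hilbert space -/
abbrev H := S0.topologicalClosure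

lemma eval_cont (k : ℕ) : Continuous fun F : L => F k := (lp.lipschitzWith_one_eval 2 k).continuous

lemma H_le {F : L} (hF : F ∈ S0.topologicalClosure) (k : ℕ) : ‖F k‖ ≤ Real.sqrt 2 * ‖F (k + 1)‖ := by
  have hc : IsClosed {F : L | ‖F k‖ ≤ Real.sqrt 2 * ‖F (k + 1)‖} :=
    isClosed_le (eval_cont k).norm (continuous_const.mul (eval_cont (k + 1)).norm)
  have hsub : ((S0 : Submodule ℂ L) : Set L) ⊆ {F : L | ‖F k‖ ≤ Real.sqrt 2 * ‖F (k + 1)‖} :=
    fun F hF => S0_le hF k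
  have := hc.closure_subset_iff.mpr hsub
  exact this hF

lemma H_inv (t : ℝ) (ht : 0 ≤ t) {F : L} (hF : F ∈ S0.topologicalClosure) :
    W t ht F ∈ S0.topologicalClosure := by
  have h1 : Set.MapsTo (W t ht) (S0 : Set L) (S0 : Set L) := fun F hF => S0_inv t ht hF
  exact h1.closure (W t ht).continuous hF

/-- restricted semigroup -/
def T (t : ℝ) : H →L[ℂ] H :=
  ((W (max t 0) (le_max_right t 0)).comp (Submodule.subtypeL S0.topologicalClosure)).codRestrict
    S0.topologicalClosure (fun F => H_inv (max t 0) (le_max_right t 0) F.2)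

lemma T_apply (t : ℝ) (F : H) (k : ℕ) : ((T t F : H) : L) k = V (max t 0) k ((F : L) k) := rfl

lemma T_norm (t : ℝ) : ‖T t‖ ≤ 1 := by
  refine ContinuousLinearMap.opNorm_le_bound _ zero_le_one fun F => ?_
  rw [one_mul]
  have : ‖((T t F : H) : L)‖ ≤ ‖(F : L)‖ :=
    lp.norm_mono (by norm_num) (fun k => V_le _ (le_max_right t 0) k _)
  exact this

lemma H_ext {F G : H} (h : ∀ k, (F : L) k = (G : L) k) : F = G :=
  Subtype.ext (lp.ext (funext h))

lemma T_zero : T 0 = ContinuousLinearMap.id ℂ H := by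
  ext1 F
  apply H_ext
  intro k
  rw [T_apply, max_self, V_zero]; rfl

lemma T_add (s t : ℝ) (hs : 0 ≤ s) (ht : 0 ≤ t) : T (s + t) = (T s).comp (T t) := by
  ext1 F
  apply H_ext
  intro k
  rw [ContinuousLinearMap.comp_apply, T_apply, T_apply, T_apply, max_eq_left hs, max_eq_left ht,
    max_eq_left (add_nonneg hs ht), V_add]

lemma T_cont (F : H) : ContinuousOn (fun t : ℝ => T t F) (Set.Ici 0) := by
  refine Continuous.continuousOn ?_
  rw [continuous_iff_continuousAt]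
  intro t₀
  have : Tendsto (fun t : ℝ => ((T t F : H) : L)) (𝓝 t₀) (𝓝 ((T t₀ F : H) : L)) := by
    refine L_tendsto (fun k => 4 * ‖(F : L) k‖ ^ 2) ((L_norm (F : L)).summable.mul_left 4) ?_ ?_
    · refine Filter.Eventually.of_forall fun t k => ?_
      rw [T_apply, T_apply]
      have h1 := V_le (max t 0) (le_max_right t 0) k ((F : L) k)
      have h2 := V_le (max t₀ 0) (le_max_right t₀ 0) k ((F : L) k)
      have h3 := norm_sub_le (V (max t 0) k ((F : L) k)) (V (max t₀ 0) k ((F : L) k))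
      have h4 : ‖V (max t 0) k ((F : L) k) - V (max t₀ 0) k ((F : L) k)‖ ≤ 2 * ‖(F : L) k‖ := by
        linarith
      calc ‖V (max t 0) k ((F : L) k) - V (max t₀ 0) k ((F : L) k)‖ ^ 2
          ≤ (2 * ‖(F : L) k‖) ^ 2 := by gcongr
        _ = 4 * ‖(F : L) k‖ ^ 2 := by ring
    · intro k
      simp only [T_apply]
      have := (V_cont k ((F : L) k)).comp (continuous_id.max (continuous_const (y := (0 : ℝ))))
      exact this.tendsto t₀
  exact tendsto_subtype_rng.mpr this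

lemma T_decay (F : H) : Tendsto (fun t : ℝ => T t F) atTop (𝓝 0) := by
  have : Tendsto (fun t : ℝ => ((T t F : H) : L)) atTop (𝓝 ((0 : H) : L)) := by
    refine L_tendsto (fun k => ‖(F : L) k‖ ^ 2) ((L_norm (F : L)).summable) ?_ ?_
    · refine Filter.Eventually.of_forall fun t k => ?_
      rw [T_apply]
      have h1 := V_le (max t 0) (le_max_right t 0) k ((F : L) k)
      have h0 : (((0 : H) : L) k : E) = 0 := rfl
      rw [h0, sub_zero]
      gcongr
    · intro k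
      simp only [T_apply]
      have h0 : (((0 : H) : L) k : E) = 0 := rfl
      rw [h0, tendsto_zero_iff_norm_tendsto_zero]
      simp only [V_norm]
      have h1 : Tendsto (fun t : ℝ => Real.exp (-(a k * max t 0))) atTop (𝓝 0) := by
        refine Real.tendsto_exp_atBot.comp ?_
        refine tendsto_neg_atTop_atBot.comp ?_
        refine Tendsto.const_mul_atTop (a_pos k) ?_
        exact tendsto_atTop_mono (fun t => le_max_left t 0) tendsto_id
      simpa using h1.mul_const ‖(F : L) k‖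
  exact tendsto_subtype_rng.mpr this

/-- nonzero element -/
def u (k : ℕ) : ℝ → ℂ := Set.indicator (Set.Ioc 0 1)
  (fun s => ((Real.sqrt (a k) * Real.exp (-(a k * s)) : ℝ) : ℂ))

lemma u_norm (k : ℕ) (s : ℝ) : ‖u k s‖ ≤ Real.sqrt (a k) * ‖Set.indicator (Set.Ioc (0:ℝ) 1) (fun _ => (1 : ℂ)) s‖ := by
  unfold u
  by_cases hs : s ∈ Set.Ioc (0 : ℝ) 1
  · rw [Set.indicator_of_mem hs, Set.indicator_of_mem hs, norm_one, mul_one, Complex.norm_real,
      Real.norm_eq_abs, abs_of_nonneg (by positivity)]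
    have : Real.exp (-(a k * s)) ≤ 1 := by
      rw [Real.exp_le_one_iff]
      have := mul_nonneg (a_pos k).le hs.1.le
      linarith
    exact mul_le_of_le_one_right (Real.sqrt_nonneg _) this
  · rw [Set.indicator_of_notMem hs, Set.indicator_of_notMem hs]; simp

lemma one_memLp : MemLp (Set.indicator (Set.Ioc (0:ℝ) 1) (fun _ => (1 : ℂ))) 2 volume :=
  memLp_indicator_const 2 measurableSet_Ioc 1 (Or.inr (by simp))

lemma u_meas (k : ℕ) : AEStronglyMeasurable (u k) volume := by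
  unfold u
  refine AEStronglyMeasurable.indicator ?_ measurableSet_Ioc
  have : Continuous fun s : ℝ => ((Real.sqrt (a k) * Real.exp (-(a k * s)) : ℝ) : ℂ) := by fun_prop
  exact this.aestronglyMeasurable

lemma u_memLp (k : ℕ) : MemLp (u k) 2 volume := by
  refine MemLp.of_le_mul (c := Real.sqrt (a k)) one_memLp (u_meas k) ?_
  exact Filter.Eventually.of_forall (u_norm k)

/-- the unit indicator in `L²` -/
def g : E := one_memLp.toLp _

def U (k : ℕ) : E := (u_memLp k).toLp _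

lemma U_norm (k : ℕ) : ‖U k‖ ≤ Real.sqrt (a k) * ‖g‖ := by
  apply Lp.norm_le_mul_norm_of_ae_le_mul
  filter_upwards [(u_memLp k).coeFn_toLp, one_memLp.coeFn_toLp] with s h1 h2
  unfold U g
  rw [h1, h2]
  exact u_norm k s

/-- the vector -/
def F0 : L := ⟨U, by
  apply memℓp_gen
  have hs : Summable fun k => a k * ‖g‖ ^ 2 := by
    refine Summable.mul_right _ ?_
    exact summable_geometric_of_lt_one (by norm_num) (by norm_num)
  have : ∀ k, ‖U k‖ ^ (2 : ℝ≥0∞).toReal ≤ a k * ‖g‖ ^ 2 := by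
    intro k
    have h1 := U_norm k
    have h2 : ‖U k‖ ^ 2 ≤ (Real.sqrt (a k) * ‖g‖) ^ 2 := by gcongr
    rw [mul_pow, Real.sq_sqrt (a_pos k).le] at h2
    simpa using h2
  exact Summable.of_nonneg_of_le (fun k => by positivity) this hs⟩

lemma F0_apply (k : ℕ) : F0 k = U k := rfl

lemma F0_mem : F0 ∈ S0 := by
  rw [S0_mem]
  intro k
  rw [F0_apply, F0_apply]
  filter_upwards [(u_memLp k).coeFn_toLp, (u_memLp (k+1)).coeFn_toLp] with s h1 h2
  unfold U
  rw [h1, h2]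
  unfold u
  by_cases hs : s ∈ Set.Ioc (0 : ℝ) 1
  · rw [Set.indicator_of_mem hs, Set.indicator_of_mem hs, if_pos hs.1, ← Complex.ofReal_mul]
    congr 1
    have : Real.sqrt 2 * Real.exp (-(a (k + 1) * s)) * (Real.sqrt (a (k + 1)) * Real.exp (-(a (k + 1) * s)))
        = (Real.sqrt 2 * Real.sqrt (a (k + 1))) * (Real.exp (-(a (k + 1) * s)) * Real.exp (-(a (k + 1) * s))) := by
      ring
    rw [this, ← Real.sqrt_mul (by norm_num), ← a_succ, ← Real.exp_add]
    congr 2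
    rw [a_succ k]; ring
  · rw [Set.indicator_of_notMem hs, Set.indicator_of_notMem hs]; simp

lemma F0_ne : F0 ≠ 0 := by
  intro h
  have h0 : U 0 = 0 := by
    have : F0 0 = (0 : L) 0 := by rw [h]
    exact this
  have h1 : ‖g‖ ≤ Real.exp 1 * ‖U 0‖ := by
    apply Lp.norm_le_mul_norm_of_ae_le_mul
    filter_upwards [(u_memLp 0).coeFn_toLp, one_memLp.coeFn_toLp] with s h1 h2
    unfold U g
    rw [h1, h2]
    unfold u
    by_cases hs : s ∈ Set.Ioc (0 : ℝ) 1
    · rw [Set.indicator_of_mem hs, Set.indicator_of_mem hs, norm_one, Complex.norm_real,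
        Real.norm_eq_abs, abs_of_nonneg (by positivity)]
      have ha : a 0 = 1 := by simp [a]
      rw [ha, Real.sqrt_one, one_mul, ← Real.exp_add]
      have := hs.2
      exact Real.one_le_exp (by linarith)
    · rw [Set.indicator_of_notMem hs, Set.indicator_of_notMem hs]; simp
  rw [h0, norm_zero, mul_zero] at h1
  have h2 : ‖g‖ = 1 := by
    unfold g
    rw [Lp.norm_toLp, eLpNorm_indicator_const measurableSet_Ioc (by norm_num) (by norm_num)]
    simp
  rw [h2] at h1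
  linarith

/-- the vector in `H` -/
def x0 : H := ⟨F0, S0.le_topologicalClosure F0_mem⟩

lemma x0_ne : x0 ≠ 0 := by
  intro h
  exact F0_ne (congrArg Subtype.val h)

/-- The resolvent lower bound with constant `1/7`. -/
lemma lower (x y : H)
    (hlim : Tendsto (fun h : ℝ => ((h : ℂ)⁻¹) • (T h x - x)) (𝓝[>] 0) (𝓝 y)) (μ : ℂ)
    (hμ : μ.re < 0) : 1 / 7 * |μ.re| * ‖x‖ ≤ ‖μ • x - y‖ := by
  set α : ℝ := -μ.re with hα
  have hαp : 0 < α := by linarith
  have habs : |μ.re| = α := by rw [abs_of_neg hμ]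
  have hk : ∀ k, |μ.re + a k| * ‖(x : L) k‖ ≤ ‖((μ • x - y : H) : L) k‖ := by
    intro k
    have hl : Tendsto (fun h : ℝ => ((h : ℂ)⁻¹) • (V (max h 0) k ((x : L) k) - (x : L) k)) (𝓝[>] 0)
        (𝓝 ((y : L) k)) := by
      have h1 : Continuous fun z : H => (z : L) k := (eval_cont k).comp continuous_subtype_val
      exact (h1.tendsto y).comp hlim
    refine comp_lower (fun h => V (max h 0) k ((x : L) k)) (a k) _ _ ?_ hl μ
    intro h hh
    show ‖V (max h 0) k ((x : L) k)‖ = _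
    rw [V_norm, max_eq_left hh.le]
  set G : H := μ • x - y with hG
  have hmon : ∀ k, ‖(x : L) k‖ ≤ Real.sqrt 2 * ‖(x : L) (k + 1)‖ := fun k => H_le x.2 k
  have key : ∀ k, ‖(x : L) k‖ ^ 2 ≤ (4 / α) ^ 2 * (‖(G : L) k‖ ^ 2 + 2 * ‖(G : L) (k + 1)‖ ^ 2) := by
    intro k
    have aux : ∀ j, α / 4 ≤ |μ.re + a j| → ‖(x : L) j‖ ≤ 4 / α * ‖(G : L) j‖ := by
      intro j hj
      have h1 := hk j
      have h2 : α / 4 * ‖(x : L) j‖ ≤ ‖(G : L) j‖ :=
        (mul_le_mul_of_nonneg_right hj (norm_nonneg _)).trans h1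
      calc ‖(x : L) j‖ = 4 / α * (α / 4 * ‖(x : L) j‖) := by field_simp
        _ ≤ 4 / α * ‖(G : L) j‖ := by gcongr
    by_cases h : α / 4 ≤ |μ.re + a k|
    · have h1 := aux k h
      calc ‖(x : L) k‖ ^ 2 ≤ (4 / α * ‖(G : L) k‖) ^ 2 := by gcongr
        _ = (4 / α) ^ 2 * ‖(G : L) k‖ ^ 2 := by ring
        _ ≤ _ := by
          refine mul_le_mul_of_nonneg_left ?_ (by positivity)
          have : 0 ≤ 2 * ‖(G : L) (k + 1)‖ ^ 2 := by positivity
          linarith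
    · push Not at h
      have h' : α / 4 ≤ |μ.re + a (k + 1)| := by
        rw [abs_lt] at h
        have h3 := a_succ k
        rw [le_abs]
        right
        linarith [h.1, h.2]
      have h1 := aux (k + 1) h'
      have h2 := hmon k
      calc ‖(x : L) k‖ ^ 2 ≤ (Real.sqrt 2 * (4 / α * ‖(G : L) (k+1)‖)) ^ 2 := by
            have : ‖(x : L) k‖ ≤ Real.sqrt 2 * (4 / α * ‖(G : L) (k+1)‖) := by
              refine h2.trans ?_
              gcongr
            gcongr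
        _ = (4 / α) ^ 2 * (2 * ‖(G : L) (k + 1)‖ ^ 2) := by
            rw [mul_pow, Real.sq_sqrt (by norm_num)]; ring
        _ ≤ _ := by
          refine mul_le_mul_of_nonneg_left ?_ (by positivity)
          have : 0 ≤ ‖(G : L) k‖ ^ 2 := by positivity
          linarith
  have hx := L_norm (x : L)
  have hg := L_norm (G : L)
  have hshift : ∑' k, ‖(G : L) (k + 1)‖ ^ 2 ≤ ‖(G : L)‖ ^ 2 := by
    rw [← hg.tsum_eq, hg.summable.tsum_eq_zero_add]
    have : 0 ≤ ‖(G : L) 0‖ ^ 2 := by positivity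
    linarith
  have hs1 : Summable fun k => ‖(G : L) (k + 1)‖ ^ 2 := (summable_nat_add_iff 1).mpr hg.summable
  have hs2 : Summable fun k => (4 / α) ^ 2 * (‖(G : L) k‖ ^ 2 + 2 * ‖(G : L) (k + 1)‖ ^ 2) :=
    (hg.summable.add (hs1.mul_left 2)).mul_left _
  have h1 : ‖(x : L)‖ ^ 2 ≤ (4 / α) ^ 2 * (3 * ‖(G : L)‖ ^ 2) := by
    rw [← hx.tsum_eq]
    refine (hx.summable.tsum_le_tsum key hs2).trans ?_
    rw [tsum_mul_left, (hg.summable.tsum_add (hs1.mul_left 2)), tsum_mul_left, hg.tsum_eq]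
    gcongr
    linarith
  have h2 : (1 / 7 * α * ‖(x : L)‖) ^ 2 ≤ ‖(G : L)‖ ^ 2 := by
    calc (1 / 7 * α * ‖(x : L)‖) ^ 2 = (1 / 49 * α ^ 2) * ‖(x : L)‖ ^ 2 := by ring
      _ ≤ (1 / 49 * α ^ 2) * ((4 / α) ^ 2 * (3 * ‖(G : L)‖ ^ 2)) := by gcongr
      _ = 48 / 49 * ‖(G : L)‖ ^ 2 := by field_simp; ring
      _ ≤ _ := by nlinarith [sq_nonneg ‖(G : L)‖]
  have h3 : 1 / 7 * α * ‖(x : L)‖ ≤ ‖(G : L)‖ :=
    (pow_le_pow_iff_left₀ (by positivity) (norm_nonneg _) two_ne_zero).mp h2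
  rw [habs]
  exact h3

end

end Pool.Agent.Y265.Gb
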