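import Pool.Agent.Y265.Raj2

set_option autoImplicit false
set_option linter.unusedSectionVars false

open MeasureTheory Filter Topology Complex
open scoped InnerProductSpace ENNReal

namespace Pool.Agent.Y265.Raj

noncomputable section

variable (μ : Measure ℝ) [IsFiniteMeasure μ]

lemma memLp_mul (m : ℝ → ℂ) (hm : Measurable m) (hC : ∀ x, ‖m x‖ ≤ 1) (f : Lp ℂ 2 μ) :
    MemLp (fun x => m x * f x) 2 μ := by
  refine MemLp.of_le_mul (c := 1) (Lp.memLp f)
    (hm.aestronglyMeasurable.mul (Lp.aestronglyMeasurable f)) (Filter.Eventually.of_forall ?_)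
  intro x
  rw [norm_mul]
  exact mul_le_mul_of_nonneg_right (hC x) (norm_nonneg _)

/-- multiplication operator -/
def mulM (m : ℝ → ℂ) (hm : Measurable m) (hC : ∀ x, ‖m x‖ ≤ 1) : Lp ℂ 2 μ →L[ℂ] Lp ℂ 2 μ :=
  LinearMap.mkContinuous
    { toFun := fun f => MemLp.toLp (fun x => m x * f x) (memLp_mul μ m hm hC f)
      map_add' := by
        intro f g
        rw [← MemLp.toLp_add]
        apply MemLp.toLp_congr
        filter_upwards [Lp.coeFn_add f g] with x hx
        rw [hx, Pi.add_apply, Pi.add_apply, mul_add]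
      map_smul' := by
        intro c f
        rw [RingHom.id_apply, ← MemLp.toLp_const_smul]
        apply MemLp.toLp_congr
        filter_upwards [Lp.coeFn_smul c f] with x hx
        rw [hx, Pi.smul_apply, Pi.smul_apply, smul_eq_mul, smul_eq_mul]
        ring } 1 (by
      intro f
      apply Lp.norm_le_mul_norm_of_ae_le_mul
      have := MemLp.coeFn_toLp (memLp_mul μ m hm hC f)
      filter_upwards [this] with x hx
      simp only [LinearMap.coe_mk, AddHom.coe_mk]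
      rw [hx, norm_mul]
      exact mul_le_mul_of_nonneg_right (hC x) (norm_nonneg _))

lemma mulM_coe (m : ℝ → ℂ) (hm : Measurable m) (hC : ∀ x, ‖m x‖ ≤ 1) (f : Lp ℂ 2 μ) :
    (mulM μ m hm hC f : ℝ → ℂ) =ᵐ[μ] fun x => m x * f x :=
  MemLp.coeFn_toLp (memLp_mul μ m hm hC f)

lemma mulM_norm (m : ℝ → ℂ) (hm : Measurable m) (hC : ∀ x, ‖m x‖ ≤ 1) : ‖mulM μ m hm hC‖ ≤ 1 :=
  LinearMap.mkContinuous_norm_le _ zero_le_one _

/-- the group -/
def T (t : ℝ) : Lp ℂ 2 μ →L[ℂ] Lp ℂ 2 μ :=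
  mulM μ (fun x => ee (t * x)) (ee_meas (measurable_id.const_mul t)) (fun x => (ee_norm _).le)

lemma T_coe (t : ℝ) (f : Lp ℂ 2 μ) : (T μ t f : ℝ → ℂ) =ᵐ[μ] fun x => ee (t * x) * f x :=
  mulM_coe μ _ _ _ f

lemma T_zero (f : Lp ℂ 2 μ) : T μ 0 f = f := by
  apply Lp.ext
  filter_upwards [T_coe μ 0 f] with x hx
  rw [hx, zero_mul, ee_zero, one_mul]

lemma T_add (s t : ℝ) (f : Lp ℂ 2 μ) : T μ (s + t) f = T μ s (T μ t f) := by
  apply Lp.ext
  filter_upwards [T_coe μ (s + t) f, T_coe μ t f, T_coe μ s (T μ t f)] with x h1 h2 h3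
  rw [h1, h3, h2, ← mul_assoc, ← ee_add]
  congr 2; ring

lemma T_norm (t : ℝ) : ‖T μ t‖ ≤ 1 := mulM_norm μ _ _ _

lemma T_norm_apply (t : ℝ) (f : Lp ℂ 2 μ) : ‖T μ t f‖ ≤ ‖f‖ := by
  have := (T μ t).le_of_opNorm_le (T_norm μ t) f
  rwa [one_mul] at this

lemma T_inner (s t : ℝ) (f g : Lp ℂ 2 μ) :
    ⟪T μ s f, T μ t g⟫_ℂ = ∫ x, ee ((t - s) * x) * ((starRingEnd ℂ) (f x) * g x) ∂μ := by
  rw [L2.inner_def]
  refine integral_congr_ae ?_
  filter_upwards [T_coe μ s f, T_coe μ t g] with x h1 h2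
  rw [h1, h2, RCLike.inner_apply, map_mul, ← ee_neg]
  have : ee ((t - s) * x) = ee (t * x) * ee (-(s * x)) := by rw [← ee_add]; congr 1; ring
  rw [this]; ring

lemma prod_integrable (f g : Lp ℂ 2 μ) : Integrable (fun x => (starRingEnd ℂ) (f x) * g x) μ := by
  have h := L2.integrable_inner (𝕜 := ℂ) f g
  refine h.congr ?_
  filter_upwards with x
  rw [RCLike.inner_apply, mul_comm]

lemma inner_cont (f g : Lp ℂ 2 μ) :
    Continuous fun t : ℝ => ∫ x, ee (t * x) * ((starRingEnd ℂ) (f x) * g x) ∂μ := by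
  refine continuous_of_dominated (bound := fun x => ‖(starRingEnd ℂ) (f x) * g x‖) ?_ ?_ ?_ ?_
  · intro t
    exact (ee_meas (measurable_id.const_mul t)).aestronglyMeasurable.mul
      (prod_integrable μ f g).aestronglyMeasurable
  · intro t
    refine Eventually.of_forall fun x => ?_
    rw [norm_mul, ee_norm, one_mul]
  · exact (prod_integrable μ f g).norm
  · refine Eventually.of_forall fun x => ?_
    have := ee_continuous
    exact (this.comp (by fun_prop : Continuous fun t : ℝ => t * x)).mul continuous_const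

lemma T_cont (f : Lp ℂ 2 μ) : Continuous fun t : ℝ => T μ t f := by
  rw [continuous_iff_continuousAt]
  intro s
  show Tendsto _ _ _
  rw [tendsto_iff_norm_sub_tendsto_zero]
  have hn : ∀ t, ‖T μ t f‖ ^ 2 = ‖f‖ ^ 2 := by
    intro t
    have h1 : ⟪T μ t f, T μ t f⟫_ℂ = ⟪T μ 0 f, T μ 0 f⟫_ℂ := by
      rw [T_inner, T_inner, sub_self, sub_self]
    rw [T_zero, inner_self_eq_norm_sq_to_K, inner_self_eq_norm_sq_to_K] at h1
    exact_mod_cast h1
  have hkey : ∀ t, ‖T μ t f - T μ s f‖ ^ 2 = 2 * ‖f‖ ^ 2 -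
      2 * (∫ x, ee ((s - t) * x) * ((starRingEnd ℂ) (f x) * f x) ∂μ).re := by
    intro t
    rw [@norm_sub_sq ℂ, hn, hn, T_inner]
    show ‖f‖ ^ 2 - 2 * (∫ x, ee ((s - t) * x) * ((starRingEnd ℂ) (f x) * f x) ∂μ).re + ‖f‖ ^ 2 = _
    ring
  have h0 : (∫ x, ee (0 * x) * ((starRingEnd ℂ) (f x) * f x) ∂μ).re = ‖f‖ ^ 2 := by
    have h1 := hkey s
    rw [sub_self, norm_zero, sub_self] at h1
    norm_num at h1
    have e : ∀ x : ℝ, (0 : ℝ) * x = 0 := fun x => zero_mul x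
    simp only [e]
    linarith
  have hc : Tendsto (fun t => 2 * ‖f‖ ^ 2 -
      2 * (∫ x, ee ((s - t) * x) * ((starRingEnd ℂ) (f x) * f x) ∂μ).re) (𝓝 s)
      (𝓝 (2 * ‖f‖ ^ 2 - 2 * (∫ x, ee ((s - s) * x) * ((starRingEnd ℂ) (f x) * f x) ∂μ).re)) := by
    have h2 : Continuous fun t : ℝ => 2 * ‖f‖ ^ 2 -
        2 * (∫ x, ee ((s - t) * x) * ((starRingEnd ℂ) (f x) * f x) ∂μ).re :=
      continuous_const.sub (continuous_const.mul (Complex.continuous_re.comp
        ((inner_cont μ f f).comp (by fun_prop : Continuous fun t : ℝ => s - t))))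
    exact h2.tendsto s
  rw [sub_self, h0, sub_self] at hc
  have hc2 : Tendsto (fun t => ‖T μ t f - T μ s f‖ ^ 2) (𝓝 s) (𝓝 0) := by
    refine hc.congr fun t => (hkey t).symm
  have h3 : Tendsto (fun t => Real.sqrt (‖T μ t f - T μ s f‖ ^ 2)) (𝓝 s) (𝓝 (Real.sqrt 0)) :=
    (Real.continuous_sqrt.tendsto 0).comp hc2
  rw [Real.sqrt_zero] at h3
  exact h3.congr fun t => Real.sqrt_sq (norm_nonneg _)

/-- the constant one -/
def one : Lp ℂ 2 μ := MemLp.toLp (fun _ => (1 : ℂ)) (memLp_const 1)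

lemma one_coe : (one μ : ℝ → ℂ) =ᵐ[μ] fun _ => 1 := MemLp.coeFn_toLp _

/-- the cyclic subspace -/
def S0 : Submodule ℂ (Lp ℂ 2 μ) := Submodule.span ℂ (Set.range fun a : ℝ => T μ a (one μ))

abbrev H := (S0 μ).topologicalClosure

lemma S0_inv (t : ℝ) {f : Lp ℂ 2 μ} (hf : f ∈ S0 μ) : T μ t f ∈ S0 μ := by
  unfold S0 at hf ⊢
  induction hf using Submodule.span_induction with
  | mem x hx =>
    obtain ⟨a, rfl⟩ := hx
    refine Submodule.subset_span ⟨t + a, ?_⟩
    exact T_add μ t a (one μ)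
  | zero => rw [map_zero]; exact Submodule.zero_mem _
  | add x y _ _ hx hy => rw [map_add]; exact Submodule.add_mem _ hx hy
  | smul c x _ hx => rw [map_smul]; exact Submodule.smul_mem _ c hx

lemma H_inv (t : ℝ) {f : Lp ℂ 2 μ} (hf : f ∈ (S0 μ).topologicalClosure) :
    T μ t f ∈ (S0 μ).topologicalClosure := by
  have h1 : Set.MapsTo (T μ t) (S0 μ : Set (Lp ℂ 2 μ)) (S0 μ : Set (Lp ℂ 2 μ)) :=
    fun f hf => S0_inv μ t hf
  exact h1.closure (T μ t).continuous hf

def TH (t : ℝ) : H μ →L[ℂ] H μ :=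
  ((T μ t).comp (Submodule.subtypeL (S0 μ).topologicalClosure)).codRestrict
    (S0 μ).topologicalClosure (fun F => H_inv μ t F.2)

lemma TH_coe (t : ℝ) (f : H μ) : ((TH μ t f : H μ) : Lp ℂ 2 μ) = T μ t f := rfl

lemma TH_zero : TH μ 0 = 1 := by
  ext1 f
  apply Subtype.ext
  rw [TH_coe, T_zero]; rfl

lemma TH_add (s t : ℝ) : TH μ (s + t) = TH μ s * TH μ t := by
  ext1 f
  apply Subtype.ext
  exact T_add μ s t f

lemma TH_norm (t : ℝ) : ‖TH μ t‖ ≤ 1 := by
  refine ContinuousLinearMap.opNorm_le_bound _ zero_le_one fun F => ?_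
  rw [one_mul]
  exact T_norm_apply μ t F

lemma TH_cont (f : H μ) : Continuous fun t : ℝ => TH μ t f := by
  rw [continuous_induced_rng]
  exact T_cont μ f

/-- weak stability -/
lemma weak (h : Tendsto (fun t : ℝ => ∫ x, ee (t * x) ∂μ) atTop (𝓝 0)) (f g : Lp ℂ 2 μ)
    (hf : f ∈ (S0 μ).topologicalClosure) (hg : g ∈ (S0 μ).topologicalClosure) :
    Tendsto (fun t : ℝ => ⟪T μ t f, g⟫_ℂ) atTop (𝓝 0) := by
  -- closedness in each variable
  have clos1 : ∀ g : Lp ℂ 2 μ, IsClosed {f : Lp ℂ 2 μ | Tendsto (fun t : ℝ => ⟪T μ t f, g⟫_ℂ) atTop (𝓝 0)} := by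
    intro g
    rw [← isSeqClosed_iff_isClosed]
    intro u f hu huf
    rw [Set.mem_ofPred_eq, Metric.tendsto_atTop]
    intro ε hε
    have h1 : Tendsto (fun n => ‖f - u n‖ * (‖g‖ + 1)) atTop (𝓝 (0 * (‖g‖ + 1))) := by
      refine Tendsto.mul_const _ ?_
      have := (tendsto_const_nhds (x := f)).sub huf
      rw [sub_self] at this
      simpa using this.norm
    rw [zero_mul] at h1
    obtain ⟨n, hn⟩ := (h1.eventually (gt_mem_nhds (show (0 : ℝ) < ε / 2 by positivity))).exists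
    have h2 := hu n
    rw [Set.mem_ofPred_eq, Metric.tendsto_atTop] at h2
    obtain ⟨N, hN⟩ := h2 (ε / 2) (by positivity)
    refine ⟨N, fun t ht => ?_⟩
    have h3 := hN t ht
    rw [dist_zero_right] at h3 ⊢
    have h4 : ⟪T μ t f, g⟫_ℂ = ⟪T μ t (f - u n), g⟫_ℂ + ⟪T μ t (u n), g⟫_ℂ := by
      rw [← inner_add_left, ← map_add, sub_add_cancel]
    have h5 : ‖⟪T μ t (f - u n), g⟫_ℂ‖ ≤ ‖f - u n‖ * (‖g‖ + 1) := by
      refine (norm_inner_le_norm _ _).trans ?_
      refine mul_le_mul (T_norm_apply μ t _) (by linarith) (norm_nonneg _) (norm_nonneg _)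
    rw [h4]
    refine (norm_add_le _ _).trans_lt ?_
    linarith
  have clos2 : ∀ f : Lp ℂ 2 μ, IsClosed {g : Lp ℂ 2 μ | Tendsto (fun t : ℝ => ⟪T μ t f, g⟫_ℂ) atTop (𝓝 0)} := by
    intro f
    rw [← isSeqClosed_iff_isClosed]
    intro u g hu hug
    rw [Set.mem_ofPred_eq, Metric.tendsto_atTop]
    intro ε hε
    have h1 : Tendsto (fun n => (‖f‖ + 1) * ‖g - u n‖) atTop (𝓝 ((‖f‖ + 1) * 0)) := by
      refine Tendsto.const_mul _ ?_
      have := (tendsto_const_nhds (x := g)).sub hug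
      rw [sub_self] at this
      simpa using this.norm
    rw [mul_zero] at h1
    obtain ⟨n, hn⟩ := (h1.eventually (gt_mem_nhds (show (0 : ℝ) < ε / 2 by positivity))).exists
    have h2 := hu n
    rw [Set.mem_ofPred_eq, Metric.tendsto_atTop] at h2
    obtain ⟨N, hN⟩ := h2 (ε / 2) (by positivity)
    refine ⟨N, fun t ht => ?_⟩
    have h3 := hN t ht
    rw [dist_zero_right] at h3 ⊢
    have h4 : ⟪T μ t f, g⟫_ℂ = ⟪T μ t f, g - u n⟫_ℂ + ⟪T μ t f, u n⟫_ℂ := by
      rw [← inner_add_right, sub_add_cancel]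
    have h5 : ‖⟪T μ t f, g - u n⟫_ℂ‖ ≤ (‖f‖ + 1) * ‖g - u n‖ := by
      refine (norm_inner_le_norm _ _).trans ?_
      refine mul_le_mul ((T_norm_apply μ t _).trans (by linarith)) le_rfl (norm_nonneg _) (by positivity)
    rw [h4]
    refine (norm_add_le _ _).trans_lt ?_
    linarith
  have base : ∀ a b : ℝ, Tendsto (fun t : ℝ => ⟪T μ t (T μ a (one μ)), T μ b (one μ)⟫_ℂ) atTop (𝓝 0) := by
    intro a b
    have h1 : Tendsto (fun t : ℝ => (starRingEnd ℂ) (∫ x, ee ((t + (a - b)) * x) ∂μ)) atTop (𝓝 0) := by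
      have h2 := h.comp (tendsto_atTop_add_const_right atTop (a - b) tendsto_id)
      have h3 := (Complex.continuous_conj.tendsto 0).comp h2
      rw [map_zero] at h3
      exact h3
    refine h1.congr fun t => ?_
    rw [← T_add, T_inner, ← integral_conj]
    refine integral_congr_ae ?_
    filter_upwards [one_coe μ] with x hx
    rw [hx, map_one, mul_one, mul_one, ← ee_neg]
    congr 1; ring
  have stepA : ∀ b : ℝ, ∀ f ∈ (S0 μ).topologicalClosure,
      Tendsto (fun t : ℝ => ⟪T μ t f, T μ b (one μ)⟫_ℂ) atTop (𝓝 0) := by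
    intro b f hf
    have hsub : (S0 μ : Set (Lp ℂ 2 μ)) ⊆
        {f : Lp ℂ 2 μ | Tendsto (fun t : ℝ => ⟪T μ t f, T μ b (one μ)⟫_ℂ) atTop (𝓝 0)} := by
      intro f hf
      rw [SetLike.mem_coe] at hf
      unfold S0 at hf
      rw [Set.mem_ofPred_eq]
      induction hf using Submodule.span_induction with
      | mem x hx => obtain ⟨a, rfl⟩ := hx; exact base a b
      | zero => simp
      | add x y _ _ hx hy => simpa only [map_add, inner_add_left, add_zero] using hx.add hy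
      | smul c x _ hx =>
        simpa only [map_smul, inner_smul_left, mul_zero] using hx.const_mul ((starRingEnd ℂ) c)
    exact (clos1 _).closure_subset_iff.mpr hsub hf
  have hsub : (S0 μ : Set (Lp ℂ 2 μ)) ⊆
      {g : Lp ℂ 2 μ | Tendsto (fun t : ℝ => ⟪T μ t f, g⟫_ℂ) atTop (𝓝 0)} := by
    intro g hg
    rw [SetLike.mem_coe] at hg
    unfold S0 at hg
    rw [Set.mem_ofPred_eq]
    induction hg using Submodule.span_induction with
    | mem x hx => obtain ⟨a, rfl⟩ := hx; exact stepA a f hf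
    | zero => simp
    | add x y _ _ hx hy => simpa only [inner_add_right, add_zero] using hx.add hy
    | smul c x _ hx => simpa only [inner_smul_right, mul_zero] using hx.const_mul c
  exact (clos2 _).closure_subset_iff.mpr hsub hg

/-- the resolvent symbol -/
def rs (x : ℝ) : ℂ := (1 - (x : ℂ) * Complex.I)⁻¹

lemma rs_ne (x : ℝ) : (1 : ℂ) - (x : ℂ) * Complex.I ≠ 0 := by
  intro h
  have := congrArg Complex.re h
  simp at this

lemma rs_meas : Measurable rs := by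
  unfold rs
  refine Measurable.inv ?_
  fun_prop

lemma rs_norm (x : ℝ) : ‖rs x‖ ≤ 1 := by
  unfold rs
  rw [norm_inv]
  refine inv_le_one_of_one_le₀ ?_
  have := Complex.abs_re_le_norm (1 - (x : ℂ) * Complex.I)
  simpa using this

lemma rs_int (x : ℝ) : ∫ t in Set.Ioi (0 : ℝ), ((Real.exp (-t) : ℝ) : ℂ) * ee (t * x) = rs x := by
  have h := integral_exp_mul_complex_Ioi (a := -1 + (x : ℂ) * Complex.I) (by simp) 0
  have e : ∀ t : ℝ, ((Real.exp (-t) : ℝ) : ℂ) * ee (t * x) =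
      Complex.exp ((-1 + (x : ℂ) * Complex.I) * t) := by
    intro t
    unfold ee
    rw [Complex.ofReal_exp, ← Complex.exp_add]
    congr 1; push_cast; ring
  simp only [e]
  rw [h]
  unfold rs
  have h1 := rs_ne x
  have h2 : (-1 + (x : ℂ) * Complex.I) ≠ 0 := by
    intro h; apply h1; linear_combination -h
  rw [Complex.ofReal_zero, mul_zero, Complex.exp_zero]
  field_simp
  ring

/-- the cogenerator symbol -/
def vs (x : ℝ) : ℂ := 1 - 2 * rs x

lemma vs_eq (x : ℝ) : vs x = - ee (ph x) := by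
  have h1 : ee (ph x) = ee (Real.arctan x) * ee (Real.arctan x) := by
    rw [← ee_add]; congr 1; unfold ph; ring
  have h2 : ee (Real.arctan x) = ((Real.cos (Real.arctan x) : ℝ) : ℂ) * (1 + (x : ℂ) * Complex.I) := by
    have hs : Real.sin (Real.arctan x) = x * Real.cos (Real.arctan x) := by
      have hc := Real.cos_arctan_pos x
      have ht := Real.tan_arctan x
      rw [Real.tan_eq_sin_div_cos, div_eq_iff hc.ne'] at ht
      exact ht
    unfold ee
    rw [Complex.exp_mul_I, ← Complex.ofReal_cos, ← Complex.ofReal_sin, hs]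
    push_cast; ring
  have h3 : ((Real.cos (Real.arctan x) : ℝ) : ℂ) * ((Real.cos (Real.arctan x) : ℝ) : ℂ)
      * ((1 + (x : ℂ) * Complex.I) * (1 - (x : ℂ) * Complex.I)) = 1 := by
    have hc := Real.cos_sq_arctan x
    have h4 : (1 + (x : ℂ) * Complex.I) * (1 - (x : ℂ) * Complex.I) = ((1 + x ^ 2 : ℝ) : ℂ) := by
      push_cast
      linear_combination (-(x : ℂ) ^ 2) * Complex.I_sq
    rw [h4, ← Complex.ofReal_mul, ← Complex.ofReal_mul, ← sq, hc]
    have : (1 : ℝ) + x ^ 2 ≠ 0 := by positivity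
    rw [one_div, inv_mul_cancel₀ this, Complex.ofReal_one]
  have h5 := rs_ne x
  unfold vs rs
  rw [h1, h2]
  field_simp
  linear_combination (1 + (x : ℂ) * Complex.I) * h3

lemma vs_meas : Measurable vs := by
  unfold vs
  exact measurable_const.sub (rs_meas.const_mul 2)

lemma vs_norm (x : ℝ) : ‖vs x‖ ≤ 1 := by rw [vs_eq, norm_neg, ee_norm]

/-- integrability of the resolvent integrand -/
lemma res_integrable (f : Lp ℂ 2 μ) :
    IntegrableOn (fun t : ℝ => ((Real.exp (-t) : ℝ) : ℂ) • T μ t f) (Set.Ioi 0) := by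
  have h1 : IntegrableOn (fun t : ℝ => Real.exp (-t) * ‖f‖) (Set.Ioi 0) :=
    (integrableOn_exp_neg_Ioi 0).mul_const _
  refine h1.mono' ?_ (Eventually.of_forall fun t => ?_)
  · have hc : Continuous fun t : ℝ => ((Real.exp (-t) : ℝ) : ℂ) • T μ t f := by
      have h2 : Continuous fun t : ℝ => ((Real.exp (-t) : ℝ) : ℂ) := by fun_prop
      exact h2.smul (T_cont μ f)
    exact hc.aestronglyMeasurable
  · rw [norm_smul, Complex.norm_real, Real.norm_eq_abs, abs_of_pos (Real.exp_pos _)]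
    exact mul_le_mul_of_nonneg_left (T_norm_apply μ t f) (Real.exp_pos _).le

lemma res_eq (f : Lp ℂ 2 μ) :
    ∫ t in Set.Ioi (0 : ℝ), ((Real.exp (-t) : ℝ) : ℂ) • T μ t f = mulM μ rs rs_meas rs_norm f := by
  refine ext_inner_left ℂ fun w => ?_
  rw [← integral_inner (res_integrable μ f)]
  have h1 : ∀ t : ℝ, ⟪w, ((Real.exp (-t) : ℝ) : ℂ) • T μ t f⟫_ℂ =
      ∫ x, (((Real.exp (-t) : ℝ) : ℂ) * ee (t * x)) * ((starRingEnd ℂ) (w x) * f x) ∂μ := by
    intro t
    rw [inner_smul_right]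
    have h2 := T_inner μ 0 t w f
    rw [T_zero, sub_zero] at h2
    rw [h2, ← integral_const_mul]
    refine integral_congr_ae (Eventually.of_forall fun x => ?_)
    simp only; ring
  simp only [h1]
  rw [integral_integral_swap]
  · have h3 : ⟪w, mulM μ rs rs_meas rs_norm f⟫_ℂ = ∫ x, rs x * ((starRingEnd ℂ) (w x) * f x) ∂μ := by
      rw [L2.inner_def]
      refine integral_congr_ae ?_
      filter_upwards [mulM_coe μ rs rs_meas rs_norm f] with x hx
      rw [hx, RCLike.inner_apply]; ring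
    rw [h3]
    refine integral_congr_ae (Eventually.of_forall fun x => ?_)
    simp only
    rw [integral_mul_const, rs_int]
  · have hE : Integrable (fun t : ℝ => Real.exp (-t)) (volume.restrict (Set.Ioi 0)) :=
      integrableOn_exp_neg_Ioi 0
    have hP := prod_integrable μ w f
    have h4 := hE.ofReal (𝕜 := ℂ) |>.mul_prod hP
    have hb : Measurable fun p : ℝ × ℝ => ee (p.1 * p.2) :=
      ee_continuous.measurable.comp (measurable_fst.mul measurable_snd)
    have h5 := h4.bdd_mul (c := 1) hb.aestronglyMeasurable (Eventually.of_forall fun p => (ee_norm _).le)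
    refine h5.congr (Eventually.of_forall fun p => ?_)
    show ee (p.1 * p.2) * (((Real.exp (-p.1) : ℝ) : ℂ) *
        ((starRingEnd ℂ) ((w : ℝ → ℂ) p.2) * (f : ℝ → ℂ) p.2)) =
      (((Real.exp (-p.1) : ℝ) : ℂ) * ee (p.1 * p.2)) *
        ((starRingEnd ℂ) ((w : ℝ → ℂ) p.2) * (f : ℝ → ℂ) p.2)
    ring

/-- cogenerator on `H` -/
def VH (z : H μ) : H μ := z - (2 : ℂ) •
  ∫ t in Set.Ioi (0 : ℝ), ((Real.exp (-t) : ℝ) : ℂ) • TH μ t z

lemma VH_coe (z : H μ) : ((VH μ z : H μ) : Lp ℂ 2 μ) = mulM μ vs vs_meas vs_norm z := by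
  have hint : IntegrableOn (fun t : ℝ => ((Real.exp (-t) : ℝ) : ℂ) • TH μ t z) (Set.Ioi 0) := by
    have h1 : IntegrableOn (fun t : ℝ => Real.exp (-t) * ‖z‖) (Set.Ioi 0) :=
      (integrableOn_exp_neg_Ioi 0).mul_const _
    refine h1.mono' ?_ (Eventually.of_forall fun t => ?_)
    · have hc : Continuous fun t : ℝ => ((Real.exp (-t) : ℝ) : ℂ) • TH μ t z := by
        have h2 : Continuous fun t : ℝ => ((Real.exp (-t) : ℝ) : ℂ) := by fun_prop
        exact h2.smul (TH_cont μ z)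
      exact hc.aestronglyMeasurable
    · rw [norm_smul, Complex.norm_real, Real.norm_eq_abs, abs_of_pos (Real.exp_pos _)]
      exact mul_le_mul_of_nonneg_left (T_norm_apply μ t z) (Real.exp_pos _).le
  have h2 := (Submodule.subtypeL (S0 μ).topologicalClosure).integral_comp_comm hint
  have h3 : ((∫ t in Set.Ioi (0 : ℝ), ((Real.exp (-t) : ℝ) : ℂ) • TH μ t z : H μ) : Lp ℂ 2 μ) =
      ∫ t in Set.Ioi (0 : ℝ), ((Real.exp (-t) : ℝ) : ℂ) • T μ t z := h2.symm
  have h4 : ((VH μ z : H μ) : Lp ℂ 2 μ) = (z : Lp ℂ 2 μ) - (2 : ℂ) •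
      ((∫ t in Set.Ioi (0 : ℝ), ((Real.exp (-t) : ℝ) : ℂ) • TH μ t z : H μ) : Lp ℂ 2 μ) := rfl
  rw [h4, h3, res_eq]
  apply Lp.ext
  filter_upwards [Lp.coeFn_sub (z : Lp ℂ 2 μ) ((2 : ℂ) • mulM μ rs rs_meas rs_norm z),
    Lp.coeFn_smul (2 : ℂ) (mulM μ rs rs_meas rs_norm (z : Lp ℂ 2 μ)),
    mulM_coe μ rs rs_meas rs_norm z, mulM_coe μ vs vs_meas vs_norm z] with x h5 h6 h7 h8
  rw [h5, Pi.sub_apply, h6, Pi.smul_apply, h7, h8, smul_eq_mul]
  unfold vs; ring

lemma VH_iter (n : ℕ) (z : H μ) :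
    ((((VH μ)^[n] z : H μ) : Lp ℂ 2 μ) : ℝ → ℂ) =ᵐ[μ] fun x => vs x ^ n * (z : Lp ℂ 2 μ) x := by
  induction n with
  | zero => simp
  | succ n ih =>
    rw [Function.iterate_succ_apply', VH_coe]
    filter_upwards [mulM_coe μ vs vs_meas vs_norm (((VH μ)^[n] z : H μ) : Lp ℂ 2 μ), ih] with x h1 h2
    rw [h1, h2, pow_succ]; ring

/-- the vector one in `H` -/
def oneH : H μ := ⟨one μ, (S0 μ).le_topologicalClosure (by
  refine Submodule.subset_span ⟨0, ?_⟩
  exact T_zero μ (one μ))⟩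

lemma ee_pow (θ : ℝ) (n : ℕ) : ee θ ^ n = ee (n * θ) := by
  unfold ee; rw [← Complex.exp_nat_mul]; congr 1; push_cast; ring

lemma VH_inner (n : ℕ) : ‖⟪(VH μ)^[n] (oneH μ), oneH μ⟫_ℂ‖ = ‖∫ x, ee ((n : ℝ) * ph x) ∂μ‖ := by
  have h1 : ⟪(VH μ)^[n] (oneH μ), oneH μ⟫_ℂ =
      ∫ x, (starRingEnd ℂ) (vs x ^ n) ∂μ := by
    show ⟪(((VH μ)^[n] (oneH μ) : H μ) : Lp ℂ 2 μ), (one μ : Lp ℂ 2 μ)⟫_ℂ = _
    rw [L2.inner_def]
    refine integral_congr_ae ?_
    filter_upwards [VH_iter μ n (oneH μ), one_coe μ] with x h2 h3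
    rw [h2]
    show ⟪vs x ^ n * (one μ : ℝ → ℂ) x, (one μ : ℝ → ℂ) x⟫_ℂ = _
    rw [h3, RCLike.inner_apply, mul_one, one_mul]
  have h2 : ∀ x, vs x ^ n = (-1) ^ n * ee ((n : ℝ) * ph x) := by
    intro x; rw [vs_eq, neg_pow, ee_pow]
  rw [h1, integral_conj, RCLike.norm_conj]
  simp only [h2]
  rw [integral_const_mul, norm_mul, norm_pow, norm_neg, norm_one, one_pow, one_mul]

end

end Pool.Agent.Y265.Raj
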