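import Pool.Agent.Y265.Markov

set_option autoImplicit false

open NormedSpace Filter Topology Matrix

namespace Pool.Agent.Y265.Markov

attribute [local instance] Matrix.linftyOpNormedRing Matrix.linftyOpNormedAlgebra

variable {d : ℕ}

lemma norm_le_of_rows {A : Matrix (Fin d) (Fin d) ℝ} {C : ℝ} (hC : 0 ≤ C)
    (h : ∀ i, ∑ j, |A i j| ≤ C) : ‖A‖ ≤ C := by
  rw [Matrix.linfty_opNorm_def]
  have : (Finset.univ.sup fun i : Fin d => ∑ j : Fin d, ‖A i j‖₊) ≤ (⟨C, hC⟩ : NNReal) := by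
    refine Finset.sup_le fun i _ => NNReal.coe_le_coe.1 ?_
    push_cast
    exact h i
  exact_mod_cast this

lemma row_le_norm (A : Matrix (Fin d) (Fin d) ℝ) (i : Fin d) : ∑ j, |A i j| ≤ ‖A‖ := by
  rw [Matrix.linfty_opNorm_def]
  have : (∑ j : Fin d, ‖A i j‖₊) ≤ (Finset.univ.sup fun i : Fin d => ∑ j : Fin d, ‖A i j‖₊) :=
    Finset.le_sup (f := fun i : Fin d => ∑ j : Fin d, ‖A i j‖₊) (Finset.mem_univ i)
  have h2 := NNReal.coe_le_coe.2 this
  push_cast at h2
  simpa [Real.norm_eq_abs] using h2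

/-- entries of the exponential are differentiable at `0` -/
lemma deriv_entry (Q : Matrix (Fin d) (Fin d) ℝ) (i j : Fin d) :
    HasDerivAt (fun t : ℝ => (NormedSpace.exp (t • Q) : Matrix (Fin d) (Fin d) ℝ) i j) (Q i j) 0 := by
  have h := hasDerivAt_exp_smul_const (𝕂 := ℝ) Q (0 : ℝ)
  have h2 := (Matrix.entryLinearMap ℝ ℝ i j).toContinuousLinearMap.hasFDerivAt.comp_hasDerivAt
    (0 : ℝ) h
  have e : (LinearMap.toContinuousLinearMap (Matrix.entryLinearMap ℝ ℝ i j))
      ((NormedSpace.exp ((0 : ℝ) • Q) : Matrix (Fin d) (Fin d) ℝ) * Q) = Q i j := by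
    rw [zero_smul, NormedSpace.exp_zero, one_mul]
    rfl
  exact HasDerivAt.congr_deriv h2 e

lemma gen_offdiag (Q : Matrix (Fin d) (Fin d) ℝ)
    (h : ∀ t : ℝ, 0 ≤ t → ∀ i j : Fin d, 0 ≤ (NormedSpace.exp (t • Q) : Matrix _ _ ℝ) i j)
    (i j : Fin d) (hij : i ≠ j) : 0 ≤ Q i j := by
  have h1 := (deriv_entry Q i j).hasDerivWithinAt (s := Set.Ioi 0)
  have h2 := hasDerivWithinAt_iff_tendsto_slope' (by simp) |>.1 h1
  refine ge_of_tendsto h2 ?_
  filter_upwards [self_mem_nhdsWithin] with t ht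
  have ht' : (0 : ℝ) < t := ht
  rw [slope_def_field]
  have e0 : (NormedSpace.exp ((0 : ℝ) • Q) : Matrix (Fin d) (Fin d) ℝ) i j = 0 := by
    rw [zero_smul, NormedSpace.exp_zero, Matrix.one_apply_ne hij]
  rw [e0]
  have := h t ht'.le i j
  simp only [sub_zero]
  positivity

lemma gen_colsum (Q : Matrix (Fin d) (Fin d) ℝ)
    (h : ∀ t : ℝ, 0 ≤ t → ∀ j : Fin d, ∑ i, (NormedSpace.exp (t • Q) : Matrix _ _ ℝ) i j = 1)
    (j : Fin d) : ∑ i, Q i j = 0 := by
  have h1 : HasDerivAt (fun t : ℝ => ∑ i, (NormedSpace.exp (t • Q) : Matrix (Fin d) (Fin d) ℝ) i j)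
      (∑ i, Q i j) 0 := by
    have := HasDerivAt.fun_sum (u := Finset.univ) (fun (i : Fin d) _ => deriv_entry Q i j)
    exact this
  have h2 := h1.hasDerivWithinAt (s := Set.Ioi 0)
  have h3 := hasDerivWithinAt_iff_tendsto_slope' (by simp) |>.1 h2
  have h4 : Tendsto (slope (fun t : ℝ => ∑ i, (NormedSpace.exp (t • Q) :
      Matrix (Fin d) (Fin d) ℝ) i j) 0) (𝓝[>] 0) (𝓝 0) := by
    refine tendsto_const_nhds.congr' ?_
    filter_upwards [self_mem_nhdsWithin] with t ht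
    have ht' : (0 : ℝ) < t := ht
    rw [slope_def_field, h t ht'.le j, h 0 le_rfl j]
    simp
  exact tendsto_nhds_unique h3 h4

theorem main (M : ℝ) (hM : 1 ≤ M) (Q : Matrix (Fin d) (Fin d) ℝ)
    (h0 : ∀ j : Fin d, ∑ i : Fin d, |(NormedSpace.exp (-Q) : Matrix _ _ ℝ) i j| ≤ M)
    (h : ∀ t : ℝ, 0 ≤ t →
          (∀ i j : Fin d, 0 ≤ (NormedSpace.exp (t • Q) : Matrix _ _ ℝ) i j) ∧
          (∀ j : Fin d, ∑ i : Fin d, (NormedSpace.exp (t • Q) : Matrix _ _ ℝ) i j = 1))
    (j : Fin d) : ∑ i : Fin d, |Q i j| ≤ M ^ 2 / 2 := by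
  have hoff := gen_offdiag Q (fun t ht => (h t ht).1)
  have hcol := gen_colsum Q (fun t ht => (h t ht).2)
  -- absolute column sums
  have habs : ∀ j, ∑ i, |Q i j| = 2 * (-(Q j j)) ∧ 0 ≤ -(Q j j) := by
    intro j
    have e1 : ∑ i ∈ Finset.univ.erase j, Q i j = -(Q j j) := by
      have := hcol j
      rw [← Finset.add_sum_erase _ _ (Finset.mem_univ j)] at this
      linarith
    have e2 : ∑ i ∈ Finset.univ.erase j, |Q i j| = -(Q j j) := by
      rw [← e1]
      refine Finset.sum_congr rfl fun i hi => abs_of_nonneg ?_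
      exact hoff i j (Finset.ne_of_mem_erase hi)
    have e3 : 0 ≤ -(Q j j) := by
      rw [← e2]
      exact Finset.sum_nonneg fun i _ => abs_nonneg _
    refine ⟨?_, e3⟩
    rw [← Finset.add_sum_erase _ _ (Finset.mem_univ j), e2, abs_of_nonpos (by linarith)]
    ring
  have : Nonempty (Fin d) := ⟨j⟩
  obtain ⟨j0, -, hj0⟩ := Finset.exists_max_image Finset.univ (fun j => -(Q j j)) ⟨j, Finset.mem_univ j⟩
  set N := -(Q j0 j0) with hN
  have hN0 : 0 ≤ N := (habs j0).2
  rw [(habs j).1]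
  suffices hs : N ≤ M ^ 2 / 4 by
    have : -(Q j j) ≤ N := hj0 j (Finset.mem_univ j)
    linarith
  rcases hN0.eq_or_lt with hz | hpos
  · rw [← hz]; positivity
  set p : Matrix (Fin d) (Fin d) ℝ := 1 + N⁻¹ • Qᵀ with hp
  have hpQ : N • (p - 1) = Qᵀ := by
    rw [hp, add_sub_cancel_left, smul_smul, mul_inv_cancel₀ hpos.ne', one_smul]
  have hp1 : ‖p‖ ≤ 1 := by
    refine norm_le_of_rows zero_le_one fun i => ?_
    have hnn : ∀ k, 0 ≤ p i k := by
      intro k
      rw [hp, Matrix.add_apply, Matrix.smul_apply, Matrix.transpose_apply]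
      by_cases hk : i = k
      · subst hk
        rw [Matrix.one_apply_eq, smul_eq_mul]
        have h1 : -(Q i i) ≤ N := hj0 i (Finset.mem_univ i)
        have h2 : N⁻¹ * (-(Q i i)) ≤ 1 := by
          rw [inv_mul_le_iff₀ hpos]
          simpa using h1
        linarith
      · rw [Matrix.one_apply_ne hk, smul_eq_mul, zero_add]
        have := hoff k i (Ne.symm hk)
        positivity
    have : ∑ k, |p i k| = ∑ k, p i k := Finset.sum_congr rfl fun k _ => abs_of_nonneg (hnn k)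
    rw [this, hp]
    simp only [Matrix.add_apply, Matrix.smul_apply, Matrix.transpose_apply]
    rw [Finset.sum_add_distrib, ← Finset.smul_sum, hcol i]
    simp [Matrix.one_apply]
  have hpk : ∀ k, ‖p ^ k‖ ≤ 1 := by
    intro k
    induction k with
    | zero =>
      rw [pow_zero]
      refine norm_le_of_rows zero_le_one fun i => ?_
      simp [Matrix.one_apply, abs_ite]
    | succ k ih =>
      rw [pow_succ]
      calc ‖p ^ k * p‖ ≤ ‖p ^ k‖ * ‖p‖ := norm_mul_le _ _
        _ ≤ 1 * 1 := by gcongr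
        _ = 1 := one_mul 1
  have hexp : ‖(NormedSpace.exp (-(N • (p - 1))) : Matrix (Fin d) (Fin d) ℝ)‖ ≤ M := by
    rw [hpQ, ← Matrix.transpose_neg, Matrix.exp_transpose]
    refine norm_le_of_rows (by linarith) fun i => ?_
    simpa using h0 i
  have hb := bound p hpk N hpos M hexp
  rw [hpQ] at hb
  have h3 : 2 * N ≤ M * √N := by
    have h4 := row_le_norm Qᵀ j0
    simp only [Matrix.transpose_apply] at h4
    rw [(habs j0).1] at h4
    linarith
  have hs : 0 < √N := Real.sqrt_pos.2 hpos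
  have hsq : √N * √N = N := Real.mul_self_sqrt hN0
  have h5 : 2 * √N ≤ M := by
    by_contra hcon
    push Not at hcon
    nlinarith
  nlinarith

end Pool.Agent.Y265.Markov
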