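import Mathlib

set_option autoImplicit false
set_option linter.unusedSectionVars false

open MeasureTheory Filter Topology
open scoped ENNReal

namespace Pool.Agent.Y265.Onl

noncomputable section

variable {X : Type} [MetricSpace X] [MeasurableSpace X] [BorelSpace X] [Countable X]
  {E : Type} [NormedAddCommGroup E] [NormedSpace ℝ E] (ν : Measure X)

lemma allm (s : Set X) : MeasurableSet s := (Set.to_countable s).measurableSet

/-- restriction to a set -/
def res (g : Lp E 1 ν) (s : Set X) : Lp E 1 ν :=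
  MemLp.toLp (s.indicator g) ((Lp.memLp g).indicator (allm s))

lemma res_coe (g : Lp E 1 ν) (s : Set X) : (res ν g s : X → E) =ᵐ[ν] s.indicator g :=
  MemLp.coeFn_toLp _

lemma res_union (g : Lp E 1 ν) {s t : Set X} (h : Disjoint s t) :
    res ν g (s ∪ t) = res ν g s + res ν g t := by
  apply Lp.ext
  filter_upwards [res_coe ν g (s ∪ t), res_coe ν g s, res_coe ν g t,
    Lp.coeFn_add (res ν g s) (res ν g t)] with x h1 h2 h3 h4
  rw [h1, h4, Pi.add_apply, h2, h3, Set.indicator_union_of_disjoint h]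

lemma res_norm (g : Lp E 1 ν) (s : Set X) : ‖res ν g s‖ = ∫ x in s, ‖g x‖ ∂ν := by
  rw [L1.norm_eq_integral_norm, ← integral_indicator (allm s)]
  refine integral_congr_ae ?_
  filter_upwards [res_coe ν g s] with x h1
  rw [h1, norm_indicator_eq_indicator_norm]

lemma sub_norm (g : Lp E 1 ν) (s : Set X) : ‖g - res ν g s‖ = ∫ x in sᶜ, ‖g x‖ ∂ν := by
  have h : g - res ν g s = res ν g sᶜ := by
    apply Lp.ext
    filter_upwards [res_coe ν g s, res_coe ν g sᶜ, Lp.coeFn_sub g (res ν g s)] with x h1 h2 h3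
    rw [h3, Pi.sub_apply, h1, h2, ← Set.indicator_self_add_compl s (g : X → E)]
    simp only [Pi.add_apply]
    rw [Set.indicator_self_add_compl s (g : X → E)]
    by_cases hx : x ∈ s
    · simp [hx]
    · simp [hx]
  rw [h, res_norm]

lemma finite_bound (T : Lp E 1 ν →L[ℝ] Lp E 1 ν) (K : ℝ) (hK : 0 ≤ K)
    (h : ∀ (g : Lp E 1 ν) (x : X), ‖T (res ν g {x})‖ ≤ K * ‖res ν g {x}‖) (g : Lp E 1 ν)
    (s : Finset X) : ‖T (res ν g s)‖ ≤ K * ∫ x in (s : Set X), ‖g x‖ ∂ν := by
  classical
  induction s using Finset.induction_on with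
  | empty =>
    have : res ν g ((∅ : Finset X) : Set X) = 0 := by
      rw [← norm_eq_zero, res_norm]; simp
    rw [this]; simp
  | insert x s hx ih =>
    have hd : Disjoint ({x} : Set X) (s : Set X) := by
      rw [Set.disjoint_singleton_left]; exact_mod_cast hx
    rw [Finset.coe_insert, Set.insert_eq, res_union ν g hd, map_add]
    have hint : Integrable (fun x => ‖g x‖) ν := (L1.integrable_coeFn g).norm
    rw [setIntegral_union hd (allm _) hint.integrableOn hint.integrableOn, mul_add]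
    refine (norm_add_le _ _).trans (add_le_add ?_ ih)
    have := h g x
    rwa [res_norm] at this

lemma full_bound (T : Lp E 1 ν →L[ℝ] Lp E 1 ν) (K : ℝ) (hK : 0 ≤ K)
    (h : ∀ (g : Lp E 1 ν) (x : X), ‖T (res ν g {x})‖ ≤ K * ‖res ν g {x}‖) : ‖T‖ ≤ K := by
  refine ContinuousLinearMap.opNorm_le_bound _ hK fun g => ?_
  have hint : Integrable (fun x => ‖g x‖) ν := (L1.integrable_coeFn g).norm
  have hg : ‖g‖ = ∫ x, ‖g x‖ ∂ν := L1.norm_eq_integral_norm g
  -- exhaust by finite sets
  have hlim : Tendsto (fun s : Finset X => res ν g s) atTop (𝓝 g) := by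
    rw [tendsto_iff_norm_sub_tendsto_zero]
    have h1 : ∀ s : Finset X, ‖res ν g s - g‖ = ∫ x in ((s : Set X))ᶜ, ‖g x‖ ∂ν := fun s => by
      rw [norm_sub_rev, sub_norm]
    simp only [h1]
    have h2 : Antitone fun s : Finset X => ((s : Set X))ᶜ := by
      intro s t hst
      exact Set.compl_subset_compl.mpr (by exact_mod_cast hst)
    have h3 := tendsto_setIntegral_of_antitone (f := fun x => ‖g x‖) (μ := ν)
      (s := fun s : Finset X => ((s : Set X))ᶜ) (fun s => allm _) h2 ⟨∅, hint.integrableOn⟩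
    have h4 : ⋂ s : Finset X, ((s : Set X))ᶜ = ∅ := by
      ext x
      simp only [Set.mem_iInter, Set.mem_compl_iff, Set.mem_empty_iff_false, iff_false, not_forall,
        not_not]
      exact ⟨{x}, by simp⟩
    rw [h4] at h3
    simpa using h3
  have hT : Tendsto (fun s : Finset X => ‖T (res ν g s)‖) atTop (𝓝 ‖T g‖) :=
    ((T.continuous.tendsto g).comp hlim).norm
  refine le_of_tendsto hT (Eventually.of_forall fun s => ?_)
  refine (finite_bound ν T K hK h g s).trans ?_
  rw [hg]
  refine mul_le_mul_of_nonneg_left ?_ hK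
  exact setIntegral_le_integral hint (Eventually.of_forall fun x => norm_nonneg _)

/-- **1-operator norm localization**, by point masses. -/
theorem onl1 [Nontrivial E] [IsLocallyFiniteMeasure ν] (hν : ν ≠ 0)
    (T : Lp E 1 ν →L[ℝ] Lp E 1 ν) : ∃ ξ : Lp E 1 ν, ξ ≠ 0 ∧
      (∃ S : Set X, (∀ a ∈ S, ∀ b ∈ S, dist a b ≤ ((0 : ℕ) : ℝ)) ∧
        ∀ᵐ z ∂ν, z ∉ S → ⇑ξ z = 0) ∧ (1 / 2) * ‖T‖ * ‖ξ‖ ≤ ‖T ξ‖ := by
  by_cases hT : T = 0
  · -- an atom
    obtain ⟨x, hx⟩ : ∃ x, ν {x} ≠ 0 := by
      by_contra hcon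
      push Not at hcon
      apply hν
      rw [← Measure.measure_univ_eq_zero]
      have : (Set.univ : Set X) = ⋃ x, {x} := by ext; simp
      rw [this]
      exact measure_iUnion_null hcon
    have hfin : ν {x} ≠ ⊤ := by
      obtain ⟨U, hU, hU2⟩ := ν.finiteAt_nhds x
      exact (lt_of_le_of_lt (measure_mono (Set.singleton_subset_iff.mpr (mem_of_mem_nhds hU))) hU2).ne
    obtain ⟨e, he⟩ := exists_ne (0 : E)
    refine ⟨indicatorConstLp 1 (allm {x}) hfin e, ?_, ⟨{x}, ?_, ?_⟩, ?_⟩
    · intro h0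
      have h1 := congrArg (fun f => ‖f‖) h0
      simp only [norm_zero] at h1
      rw [norm_indicatorConstLp (by norm_num) (by norm_num)] at h1
      have h2 : ν.real {x} ≠ 0 := by
        rw [Measure.real, ENNReal.toReal_ne_zero]; exact ⟨hx, hfin⟩
      have h3 : ‖e‖ ≠ 0 := norm_ne_zero_iff.mpr he
      have h4 : (ν.real {x}) ^ (1 / (1 : ℝ≥0∞).toReal) ≠ 0 := by simpa using h2
      exact (mul_ne_zero h3 h4) h1
    · rintro a rfl b hb
      rw [Set.mem_singleton_iff.mp hb, dist_self]; simp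
    · filter_upwards [indicatorConstLp_coeFn (p := 1) (hs := allm {x}) (hμs := hfin) (c := e)] with z hz hzS
      rw [hz, Set.indicator_of_notMem hzS]
    · rw [hT]; simp
  · have hTpos : 0 < ‖T‖ := norm_pos_iff.mpr hT
    by_contra hcon
    push Not at hcon
    have hb : ∀ (g : Lp E 1 ν) (x : X), ‖T (res ν g {x})‖ ≤ (1 / 2 * ‖T‖) * ‖res ν g {x}‖ := by
      intro g x
      by_cases h0 : res ν g {x} = 0
      · rw [h0]; simp
      · refine (hcon (res ν g {x}) h0 ⟨{x}, ?_, ?_⟩).le
        · rintro a rfl b hb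
          rw [Set.mem_singleton_iff.mp hb, dist_self]; simp
        · filter_upwards [res_coe ν g {x}] with z hz hzS
          rw [hz, Set.indicator_of_notMem hzS]
    have := full_bound ν T (1 / 2 * ‖T‖) (by positivity) hb
    linarith

end

end Pool.Agent.Y265.Onl
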