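import Pool.Agent.Y265.Onl1
import Pool.Agent.Y265.Onl2

set_option autoImplicit false

open MeasureTheory
open scoped ENNReal

namespace Pool.Agent.Y265.Onl

instance : Countable X := inferInstanceAs (Countable (Σ n : ℕ, ZMod (n + 1) × ZMod (n + 1)))

noncomputable instance : MeasurableSpace X := borel X

instance : BorelSpace X := ⟨rfl⟩

instance : Nontrivial (lp (fun _ : ℕ => ℝ) 1) := by
  refine ⟨⟨lp.single 1 0 (1 : ℝ), 0, fun h => ?_⟩⟩
  have h1 : (lp.single (E := fun _ : ℕ => ℝ) 1 0 (1 : ℝ)) 0 = (0 : lp (fun _ : ℕ => ℝ) 1) 0 := by rw [h]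
  rw [lp.single_apply_self] at h1
  exact one_ne_zero h1

end Pool.Agent.Y265.Onl
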