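import Mathlib

set_option autoImplicit false

open Filter Topology MeasureTheory ZeroAtInfty

namespace Pool.Agent.Y265.Tomilov

abbrev X := C₀(ℝ, ℂ)

lemma norm_le_iff (f : X) {C : ℝ} (hC : 0 ≤ C) : ‖f‖ ≤ C ↔ ∀ k, ‖f k‖ ≤ C := by
  rw [← ZeroAtInftyContinuousMap.norm_toBCF_eq_norm, BoundedContinuousFunction.norm_le hC]
  rfl

lemma norm_apply_le (f : X) (r : ℝ) : ‖f r‖ ≤ ‖f‖ := (norm_le_iff f (norm_nonneg f)).1 le_rfl r

/-- translation -/
noncomputable def tr (t : ℝ) (f : X) : X where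
  toFun := fun s => f (s + t)
  continuous_toFun := by fun_prop
  zero_at_infty' := by
    have := f.zero_at_infty'
    exact this.comp (Homeomorph.addRight t).isClosedEmbedding.tendsto_cocompact

lemma tr_apply (t : ℝ) (f : X) (s : ℝ) : tr t f s = f (s + t) := rfl

noncomputable def T (t : ℝ) : X →L[ℂ] X :=
  LinearMap.mkContinuous
    { toFun := tr t
      map_add' := fun f g => by ext s; rfl
      map_smul' := fun c f => by ext s; rfl } 1 (fun f => by
      rw [one_mul]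
      exact (norm_le_iff _ (norm_nonneg f)).2 fun s => norm_apply_le f _)

lemma T_apply (t : ℝ) (f : X) (s : ℝ) : T t f s = f (s + t) := rfl

lemma T_norm (t : ℝ) : ‖T t‖ ≤ 1 := LinearMap.mkContinuous_norm_le _ zero_le_one _

lemma T_zero : T 0 = 1 := by
  ext f s
  simp [T_apply]

lemma T_add (s t : ℝ) : T (s + t) = T s * T t := by
  ext f r
  change f (r + (s + t)) = f (r + s + t)
  rw [add_assoc]

lemma T_cont (f : X) : Continuous fun t => T t f := by
  rw [Metric.continuous_iff]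
  intro t ε hε
  have huc : UniformContinuous (f : ℝ → ℂ) := ZeroAtInftyContinuousMap.uniformContinuous f
  obtain ⟨δ, hδ, h⟩ := Metric.uniformContinuous_iff.1 huc (ε / 2) (by positivity)
  refine ⟨δ, hδ, fun u hu => ?_⟩
  rw [dist_eq_norm]
  refine lt_of_le_of_lt ((norm_le_iff _ (show 0 ≤ ε / 2 by positivity)).2 fun s => ?_)
    (by linarith)
  change ‖f (s + u) - f (s + t)‖ ≤ ε / 2
  rw [← dist_eq_norm]
  refine (h ?_).le
  rwa [dist_add_left]

/-- evaluation -/
noncomputable def ev (r : ℝ) : X →L[ℂ] ℂ :=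
  LinearMap.mkContinuous
    { toFun := fun f => f r
      map_add' := fun f g => rfl
      map_smul' := fun c f => rfl } 1 (fun f => by
      rw [one_mul]
      exact norm_apply_le f _)

lemma ev_apply (r : ℝ) (f : X) : ev r f = f r := rfl

/-- the vector -/
noncomputable def x₀ : X where
  toFun := fun s => (((1 + s ^ 2)⁻¹ : ℝ) : ℂ)
  continuous_toFun := by
    refine Complex.continuous_ofReal.comp (Continuous.inv₀ (by fun_prop) fun s => by positivity)
  zero_at_infty' := by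
    have h1 : Tendsto (fun s : ℝ => 1 + s ^ 2) (cocompact ℝ) atTop := by
      refine tendsto_atTop_mono (f := fun s : ℝ => |s|) (fun s => ?_) ?_
      · nlinarith [sq_abs s, sq_nonneg (|s| - 1), abs_nonneg s]
      · exact tendsto_norm_cocompact_atTop
    have h2 := Complex.continuous_ofReal.continuousAt.tendsto.comp (tendsto_inv_atTop_zero.comp h1)
    simpa [Function.comp_def] using h2

lemma x₀_apply (s : ℝ) : x₀ s = (((1 + s ^ 2)⁻¹ : ℝ) : ℂ) := rfl

lemma norm_x₀ (s : ℝ) : ‖x₀ s‖ = (1 + s ^ 2)⁻¹ := by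
  rw [x₀_apply, Complex.norm_real, Real.norm_of_nonneg (by positivity)]

lemma int_shift (r : ℝ) : Integrable (fun t : ℝ => (1 + (r + t) ^ 2)⁻¹) :=
  integrable_inv_one_add_sq.comp_add_left r

lemma int_shift_eq (r : ℝ) : ∫ t : ℝ, (1 + (r + t) ^ 2)⁻¹ = Real.pi := by
  rw [integral_add_left_eq_self (fun t => (1 + t ^ 2)⁻¹) r]
  exact integral_univ_inv_one_add_sq

lemma int_Ioi_le (r : ℝ) : ∫ t in Set.Ioi (0 : ℝ), (1 + (r + t) ^ 2)⁻¹ ≤ Real.pi := by
  rw [← int_shift_eq r]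
  exact setIntegral_le_integral (int_shift r) (Eventually.of_forall fun t => by positivity)

/-- kernel -/
noncomputable def ker (l : ℂ) (t : ℝ) : ℂ := Complex.exp (-(l * t))

lemma norm_ker (l : ℂ) (t : ℝ) : ‖ker l t‖ = Real.exp (-(l.re * t)) := by
  rw [ker, Complex.norm_exp]
  simp

lemma norm_ker_le (l : ℂ) (hl : 0 < l.re) (t : ℝ) (ht : 0 < t) : ‖ker l t‖ ≤ 1 := by
  rw [norm_ker]
  exact Real.exp_le_one_iff.2 (by have := mul_pos hl ht; linarith)

/-- derivative of `x₀` -/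
noncomputable def dx (s : ℝ) : ℂ := ((-(2 * s) / (1 + s ^ 2) ^ 2 : ℝ) : ℂ)

lemma hasDeriv_x₀ (s : ℝ) : HasDerivAt (fun s => x₀ s) (dx s) s := by
  have h1 : HasDerivAt (fun s : ℝ => 1 + s ^ 2) (2 * s) s := by
    have := (hasDerivAt_pow 2 s).const_add 1
    simpa using this
  have h2 := h1.inv (show (1 + s ^ 2 : ℝ) ≠ 0 by positivity)
  exact h2.ofReal_comp

lemma norm_dx (s : ℝ) : ‖dx s‖ ≤ (1 + s ^ 2)⁻¹ := by
  rw [dx, Complex.norm_real, Real.norm_eq_abs, abs_div, abs_neg, abs_mul,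
    abs_of_nonneg (show (0 : ℝ) ≤ (1 + s ^ 2) ^ 2 by positivity), div_le_iff₀ (by positivity)]
  have h : (1 + s ^ 2)⁻¹ * (1 + s ^ 2) ^ 2 = 1 + s ^ 2 := by field_simp
  rw [h]
  have h2 : |(2 : ℝ)| = 2 := by norm_num
  rw [h2]
  nlinarith [sq_abs s, sq_nonneg (|s| - 1)]

lemma dx_cont : Continuous dx := by
  unfold dx
  refine Complex.continuous_ofReal.comp (Continuous.div (by fun_prop) (by fun_prop)
    fun s => by positivity)

lemma ker_cont (l : ℂ) : Continuous (ker l) := by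
  unfold ker
  fun_prop

lemma integ1 (l : ℂ) (hl : 0 < l.re) (r : ℝ) (g : ℝ → ℂ) (hg : Continuous g)
    (hb : ∀ s, ‖g s‖ ≤ (1 + s ^ 2)⁻¹) :
    IntegrableOn (fun t : ℝ => ker l t * g (r + t)) (Set.Ioi 0) ∧
      ‖∫ t in Set.Ioi (0 : ℝ), ker l t * g (r + t)‖ ≤ Real.pi := by
  have hle : ∀ t ∈ Set.Ioi (0 : ℝ), ‖ker l t * g (r + t)‖ ≤ (1 + (r + t) ^ 2)⁻¹ := by
    intro t ht
    rw [norm_mul]
    calc ‖ker l t‖ * ‖g (r + t)‖ ≤ 1 * (1 + (r + t) ^ 2)⁻¹ := by
          gcongr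
          · exact norm_ker_le l hl t ht
          · exact hb _
      _ = _ := one_mul _
  have hae : ∀ᵐ t ∂(volume.restrict (Set.Ioi (0 : ℝ))),
      ‖ker l t * g (r + t)‖ ≤ (1 + (r + t) ^ 2)⁻¹ :=
    (ae_restrict_iff' measurableSet_Ioi).2 (Eventually.of_forall hle)
  refine ⟨?_, ?_⟩
  · refine Integrable.mono' (int_shift r).integrableOn ?_ hae
    exact ((ker_cont l).mul (hg.comp (continuous_const.add continuous_id))).aestronglyMeasurable
  · exact (norm_integral_le_of_norm_le (int_shift r).integrableOn hae).trans (int_Ioi_le r)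

/-- integration by parts -/
lemma parts (l : ℂ) (hl : 0 < l.re) (r : ℝ) :
    l * ∫ t in Set.Ioi (0 : ℝ), ker l t * x₀ (r + t) =
      x₀ r + ∫ t in Set.Ioi (0 : ℝ), ker l t * dx (r + t) := by
  have i1 := integ1 l hl r x₀ x₀.continuous_toFun (fun s => (norm_x₀ s).le)
  have i2 := integ1 l hl r dx dx_cont norm_dx
  have hder : ∀ t ∈ Set.Ici (0 : ℝ), HasDerivAt (fun t : ℝ => -(ker l t * x₀ (r + t)))
      (l * (ker l t * x₀ (r + t)) - ker l t * dx (r + t)) t := by
    intro t _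
    have h1 : HasDerivAt (ker l) (ker l t * (-l)) t := by
      unfold ker
      have h2 : HasDerivAt (fun t : ℝ => -(l * (t : ℂ))) (-l) t := by
        have := ((hasDerivAt_id t).ofReal_comp.const_mul l).neg
        exact (by simpa using this : HasDerivAt (-fun y : ℝ => l * (y : ℂ)) (-l) t)
      exact h2.cexp
    have h3 : HasDerivAt (fun t : ℝ => x₀ (r + t)) (dx (r + t)) t := by
      have := (hasDeriv_x₀ (r + t)).scomp t ((hasDerivAt_id t).const_add r)
      exact (by simpa using this : HasDerivAt ((fun s => x₀ s) ∘ HAdd.hAdd r) (dx (r + t)) t)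
    have h4 := (h1.mul h3).neg
    refine h4.congr_deriv ?_
    ring
  have hlim : Tendsto (fun t : ℝ => -(ker l t * x₀ (r + t))) atTop (𝓝 0) := by
    have h5 : Tendsto (fun t : ℝ => Real.exp (-(l.re * t))) atTop (𝓝 0) :=
      Real.tendsto_exp_neg_atTop_nhds_zero.comp (tendsto_id.const_mul_atTop hl)
    refine squeeze_zero_norm (fun t => ?_) h5
    rw [norm_neg, norm_mul, norm_ker]
    calc Real.exp (-(l.re * t)) * ‖x₀ (r + t)‖ ≤ Real.exp (-(l.re * t)) * 1 := by
          gcongr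
          rw [norm_x₀]
          exact inv_le_one_of_one_le₀ (by nlinarith [sq_nonneg (r + t)])
      _ = _ := mul_one _
  have hint : IntegrableOn (fun t : ℝ => l * (ker l t * x₀ (r + t)) - ker l t * dx (r + t))
      (Set.Ioi 0) := (i1.1.const_mul l).sub i2.1
  have h6 := integral_Ioi_of_hasDerivAt_of_tendsto' hder hint hlim
  rw [integral_sub (i1.1.const_mul l) i2.1, integral_const_mul] at h6
  have h7 : (0 : ℂ) - -(ker l 0 * x₀ (r + 0)) = x₀ r := by simp [ker]
  rw [h7] at h6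
  linear_combination h6

lemma scalar_bound (l : ℂ) (hl : 0 < l.re) (r : ℝ) :
    (1 + l.im ^ 2) * ‖∫ t in Set.Ioi (0 : ℝ), ker l t * x₀ (r + t)‖ ^ 2 ≤ 2 * (1 + Real.pi) ^ 2 := by
  set I := ∫ t in Set.Ioi (0 : ℝ), ker l t * x₀ (r + t) with hI
  have i1 := (integ1 l hl r x₀ x₀.continuous_toFun (fun s => (norm_x₀ s).le)).2
  have i2 := (integ1 l hl r dx dx_cont norm_dx).2
  have h1 : ‖l‖ * ‖I‖ ≤ 1 + Real.pi := by
    rw [← norm_mul, parts l hl r]
    refine (norm_add_le _ _).trans (add_le_add ?_ i2)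
    rw [norm_x₀]
    exact inv_le_one_of_one_le₀ (by nlinarith [sq_nonneg r])
  have h2 : |l.im| ≤ ‖l‖ := Complex.abs_im_le_norm l
  have h3 : |l.im| * ‖I‖ ≤ 1 + Real.pi := le_trans (by gcongr) h1
  have h4 : (|l.im| * ‖I‖) ^ 2 ≤ (1 + Real.pi) ^ 2 := by gcongr
  have h5 : ‖I‖ ^ 2 ≤ (1 + Real.pi) ^ 2 := by
    gcongr
    exact i1.trans (by linarith)
  have h6 : (|l.im| * ‖I‖) ^ 2 = l.im ^ 2 * ‖I‖ ^ 2 := by rw [mul_pow, sq_abs]
  rw [h6] at h4
  linarith

lemma vec_bound (a s : ℝ) (ha : 0 < a) :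
    ‖∫ t in Set.Ioi (0 : ℝ), Complex.exp (-(((a : ℂ) + (s : ℂ) * Complex.I) * (t : ℂ))) • T t x₀‖ ^ 2
      ≤ 2 * (1 + Real.pi) ^ 2 * (1 + s ^ 2)⁻¹ := by
  set l : ℂ := (a : ℂ) + (s : ℂ) * Complex.I with hl
  have hre : l.re = a := by simp [hl]
  have him : l.im = s := by simp [hl]
  have hlr : 0 < l.re := by rw [hre]; exact ha
  set Y := ∫ t in Set.Ioi (0 : ℝ), Complex.exp (-(l * (t : ℂ))) • T t x₀ with hY
  have hpi := Real.pi_pos
  set B := √(2 * (1 + Real.pi) ^ 2 * (1 + s ^ 2)⁻¹) with hB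
  have hB2 : B ^ 2 = 2 * (1 + Real.pi) ^ 2 * (1 + s ^ 2)⁻¹ := Real.sq_sqrt (by positivity)
  have key : ‖Y‖ ≤ B := by
    refine (norm_le_iff _ (Real.sqrt_nonneg _)).2 fun r => ?_
    by_cases hint : IntegrableOn (fun t : ℝ => Complex.exp (-(l * (t : ℂ))) • T t x₀) (Set.Ioi 0)
    · have e : Y r = ∫ t in Set.Ioi (0 : ℝ), ker l t * x₀ (r + t) := by
        rw [← ev_apply, hY, ← (ev r).integral_comp_comm hint]
        rfl
      refine Real.le_sqrt_of_sq_le ?_
      have h := scalar_bound l hlr r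
      rw [him, ← e] at h
      rw [← div_eq_mul_inv, le_div_iff₀ (by positivity)]
      linarith
    · have : Y = 0 := integral_undef hint
      rw [this]
      simp
  rw [← hB2]
  gcongr

theorem main : ¬ (∀ (X : Type) [NormedAddCommGroup X] [NormedSpace ℂ X] [CompleteSpace X]
      (T : ℝ → (X →L[ℂ] X)),
      T 0 = 1 →
      (∀ s t : ℝ, 0 ≤ s → 0 ≤ t → T (s + t) = T s * T t) →
      (∀ x : X, ContinuousOn (fun t : ℝ => T t x) (Set.Ici (0 : ℝ))) →
      (∃ M : ℝ, ∀ t : ℝ, 0 ≤ t → ‖T t‖ ≤ M) →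
      ∀ x : X,
        (Tendsto (fun t : ℝ => T t x) atTop (𝓝 0) ↔
          Tendsto
            (fun a : ℝ => ENNReal.ofReal a *
              ∫⁻ s : ℝ,
                ((‖∫ t in Set.Ioi (0 : ℝ),
                    Complex.exp (-(((a : ℂ) + (s : ℂ) * Complex.I) * (t : ℂ))) • T t x‖₊ : ENNReal)) ^ 2)
            (𝓝[>] (0 : ℝ)) (𝓝 0))) := by
  intro hall
  have h := hall X T T_zero (fun s t _ _ => T_add s t) (fun x => (T_cont x).continuousOn)
    ⟨1, fun t _ => T_norm t⟩ x₀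
  have hnot : ¬ Tendsto (fun t : ℝ => T t x₀) atTop (𝓝 0) := by
    intro hT
    have h1 := hT.norm
    rw [norm_zero] at h1
    have h2 : ∀ t : ℝ, (1 : ℝ) ≤ ‖T t x₀‖ := by
      intro t
      have h3 := norm_apply_le (T t x₀) (-t)
      rw [T_apply, neg_add_cancel, norm_x₀] at h3
      simpa using h3
    have := ge_of_tendsto' h1 h2
    linarith
  refine hnot (h.2 ?_)
  set C : ENNReal := ENNReal.ofReal (2 * (1 + Real.pi) ^ 2 * Real.pi) with hC
  have hb : ∀ a : ℝ, 0 < a → ∫⁻ s : ℝ,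
      ((‖∫ t in Set.Ioi (0 : ℝ),
        Complex.exp (-(((a : ℂ) + (s : ℂ) * Complex.I) * (t : ℂ))) • T t x₀‖₊ : ENNReal)) ^ 2 ≤ C := by
    intro a ha
    calc _ ≤ ∫⁻ s : ℝ, ENNReal.ofReal (2 * (1 + Real.pi) ^ 2 * (1 + s ^ 2)⁻¹) := by
          refine lintegral_mono fun s => ?_
          have := vec_bound a s ha
          rw [← enorm_eq_nnnorm, ← ofReal_norm, ← ENNReal.ofReal_pow (norm_nonneg _)]
          exact ENNReal.ofReal_le_ofReal this
      _ = C := by
          rw [← ofReal_integral_eq_lintegral_ofReal (integrable_inv_one_add_sq.const_mul _)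
            (Eventually.of_forall fun s => by positivity), integral_const_mul,
            integral_univ_inv_one_add_sq]
  have hlim : Tendsto (fun a : ℝ => ENNReal.ofReal a * C) (𝓝[>] (0 : ℝ)) (𝓝 0) := by
    have h1 : Tendsto (fun a : ℝ => ENNReal.ofReal a) (𝓝[>] (0 : ℝ)) (𝓝 0) := by
      have := (ENNReal.continuous_ofReal.tendsto (0 : ℝ)).mono_left
        (nhdsWithin_le_nhds (s := Set.Ioi (0 : ℝ)))
      simpa using this
    have h2 := ENNReal.Tendsto.mul_const h1 (Or.inr (show C ≠ ⊤ from ENNReal.ofReal_ne_top))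
    simpa using h2
  refine tendsto_of_tendsto_of_tendsto_of_le_of_le' tendsto_const_nhds hlim
    (Eventually.of_forall fun _ => bot_le) ?_
  filter_upwards [self_mem_nhdsWithin] with a ha
  gcongr
  exact hb a ha

end Pool.Agent.Y265.Tomilov
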