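import Pool.Agent.Y265.CcDefs

set_option autoImplicit false

open Filter Topology

namespace Pool.Agent.Y265.Cc

noncomputable section

variable {𝕜 : Type*} [RCLike 𝕜] {X : Type*} [NormedAddCommGroup X] [NormedSpace 𝕜 X]

variable (𝕜) in
/-- a functional with value `1` at `e` if `e ≠ 0`, and `0` if `e = 0`. -/
lemma exists_psi (e : X) : ∃ ψ : X →L[𝕜] 𝕜, (e ≠ 0 → ψ e = 1) ∧ (e = 0 → ψ = 0) := by
  by_cases h : e = 0
  · exact ⟨0, fun h' => absurd h h', fun _ => rfl⟩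
  · obtain ⟨g, hg1, hg2⟩ := exists_dual_vector 𝕜 e (by simpa using h)
    refine ⟨((‖e‖ : 𝕜)⁻¹) • g, fun _ => ?_, fun h' => absurd h' h⟩
    rw [smul_apply, hg2, smul_eq_mul]
    exact inv_mul_cancel₀ (by simpa using h)

variable (𝕜) in
def psi (e : X) : X →L[𝕜] 𝕜 := (exists_psi 𝕜 e).choose

lemma psi_one {e : X} (h : e ≠ 0) : psi 𝕜 e e = 1 := (exists_psi 𝕜 e).choose_spec.1 h
lemma psi_zero {e : X} (h : e = 0) : psi 𝕜 e = 0 := (exists_psi 𝕜 e).choose_spec.2 h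

lemma psi_self (e : X) : psi 𝕜 e e • e = e := by
  by_cases h : e = 0
  · rw [h]; simp
  · rw [psi_one h, one_smul]

variable (𝕜) in
/-- the projections -/
def P (x : ℕ → X) : ℕ → (X →L[𝕜] X)
  | 0 => 0
  | n + 1 => P x n + ((psi 𝕜 (x n - P x n (x n))).comp (1 - P x n)).smulRight (x n - P x n (x n))

variable (𝕜) in
def e (x : ℕ → X) (n : ℕ) : X := x n - P 𝕜 x n (x n)

variable (𝕜) in
def φ (x : ℕ → X) (n : ℕ) : X →L[𝕜] 𝕜 := (psi 𝕜 (e 𝕜 x n)).comp (1 - P 𝕜 x n)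

lemma P_succ (x : ℕ → X) (n : ℕ) (y : X) :
    P 𝕜 x (n + 1) y = P 𝕜 x n y + φ 𝕜 x n y • e 𝕜 x n := rfl

lemma φ_apply (x : ℕ → X) (n : ℕ) (y : X) : φ 𝕜 x n y = psi 𝕜 (e 𝕜 x n) (y - P 𝕜 x n y) := rfl

lemma P_idem (x : ℕ → X) (n : ℕ) : ∀ y, P 𝕜 x n (P 𝕜 x n y) = P 𝕜 x n y := by
  induction n with
  | zero => intro y; simp [P]
  | succ n ih =>
    intro y
    have he : P 𝕜 x n (e 𝕜 x n) = 0 := by
      unfold e; rw [map_sub, ih, sub_self]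
    have hφP : ∀ y, φ 𝕜 x n (P 𝕜 x n y) = 0 := by
      intro y; rw [φ_apply, ih, sub_self, map_zero]
    have hφe : φ 𝕜 x n (e 𝕜 x n) • e 𝕜 x n = e 𝕜 x n := by
      rw [φ_apply, he, sub_zero]; exact psi_self _
    rw [P_succ, P_succ, map_add, ih, map_smul, he, smul_zero, add_zero, map_add, hφP, zero_add,
      map_smul, smul_assoc, hφe]

lemma P_e (x : ℕ → X) (n : ℕ) : P 𝕜 x n (e 𝕜 x n) = 0 := by
  unfold e; rw [map_sub, P_idem, sub_self]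

lemma φ_P (x : ℕ → X) (n : ℕ) (y : X) : φ 𝕜 x n (P 𝕜 x n y) = 0 := by
  rw [φ_apply, P_idem, sub_self, map_zero]

lemma φ_e_self (x : ℕ → X) (n : ℕ) : φ 𝕜 x n (e 𝕜 x n) • e 𝕜 x n = e 𝕜 x n := by
  rw [φ_apply, P_e, sub_zero]; exact psi_self _

lemma φ_e_one (x : ℕ → X) (n : ℕ) (h : e 𝕜 x n ≠ 0) : φ 𝕜 x n (e 𝕜 x n) = 1 := by
  rw [φ_apply, P_e, sub_zero]; exact psi_one h

lemma P_mono (x : ℕ → X) {m n : ℕ} (h : m ≤ n) : ∀ y, P 𝕜 x n (P 𝕜 x m y) = P 𝕜 x m y := by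
  induction n, h using Nat.le_induction with
  | base => exact P_idem x m
  | succ n hmn ih =>
    intro y
    rw [P_succ, ih, ← ih y, φ_P, zero_smul, add_zero]

lemma P_mono' (x : ℕ → X) {m n : ℕ} (h : m ≤ n) : ∀ y, P 𝕜 x m (P 𝕜 x n y) = P 𝕜 x m y := by
  induction n, h using Nat.le_induction with
  | base => exact P_idem x m
  | succ n hmn ih =>
    intro y
    rw [P_succ, map_add, ih, map_smul]
    have : P 𝕜 x m (e 𝕜 x n) = 0 := by
      rw [← ih (e 𝕜 x n), P_e, map_zero]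
    rw [this, smul_zero, add_zero]

lemma P_self (x : ℕ → X) (n : ℕ) : P 𝕜 x (n + 1) (x n) = x n := by
  have h : φ 𝕜 x n (x n) • e 𝕜 x n = e 𝕜 x n := by
    rw [φ_apply]; exact psi_self _
  rw [P_succ, h]
  unfold e; abel

lemma P_succ_e (x : ℕ → X) (n : ℕ) : P 𝕜 x (n + 1) (e 𝕜 x n) = e 𝕜 x n := by
  rw [P_succ, P_e, zero_add, φ_e_self]

/-- biorthogonality, one direction -/
lemma φ_e_gt (x : ℕ → X) {m n : ℕ} (h : n < m) : φ 𝕜 x m (e 𝕜 x n) = 0 := by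
  rw [← P_succ_e, ← P_mono x (Nat.succ_le_of_lt h), φ_P]

/-- biorthogonality, other direction -/
lemma φ_e_lt (x : ℕ → X) {m n : ℕ} (h : m < n) : φ 𝕜 x m (e 𝕜 x n) = 0 := by
  by_cases hm : e 𝕜 x m = 0
  · unfold φ; rw [psi_zero hm]; simp
  · have h1 : P 𝕜 x (m + 1) (e 𝕜 x n) = 0 := by
      rw [← P_mono' x (Nat.succ_le_of_lt h), P_e, map_zero]
    have h2 : P 𝕜 x m (e 𝕜 x n) = 0 := by
      rw [← P_mono' x h.le, P_e, map_zero]
    rw [P_succ, h2, zero_add] at h1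
    exact (smul_eq_zero.mp h1).resolve_right hm

lemma φ_e_ne (x : ℕ → X) {m n : ℕ} (h : m ≠ n) : φ 𝕜 x m (e 𝕜 x n) = 0 := by
  rcases lt_or_gt_of_ne h with h | h
  · exact φ_e_lt x h
  · exact φ_e_gt x h

/-- a functional vanishing on all the `e n` vanishes on all the `x n`. -/
lemma vanish (x : ℕ → X) (g : X →L[𝕜] 𝕜) (hg : ∀ k, g (e 𝕜 x k) = 0) (n : ℕ) : g (x n) = 0 := by
  have h : ∀ n y, g (P 𝕜 x n y) = 0 := by
    intro n
    induction n with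
    | zero => intro y; simp [P]
    | succ n ih => intro y; rw [P_succ, map_add, ih, map_smul, hg, smul_zero, add_zero]
  rw [← P_self (𝕜 := 𝕜) x n]
  exact h _ _

/-- weights -/
def ep (M : ℕ → ℝ) : ℕ → ℝ
  | 0 => 1 / (1 + M 0)
  | n + 1 => ep M n / 2 / (1 + M (n + 1))

lemma ep_pos (M : ℕ → ℝ) (hM : ∀ n, 0 ≤ M n) (n : ℕ) : 0 < ep M n := by
  induction n with
  | zero => have := hM 0; unfold ep; positivity
  | succ n ih => have := hM (n + 1); unfold ep; positivity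

lemma ep_succ_le (M : ℕ → ℝ) (hM : ∀ n, 0 ≤ M n) (n : ℕ) : ep M (n + 1) ≤ ep M n / 2 := by
  have := hM (n + 1)
  have h2 := ep_pos M hM n
  show ep M n / 2 / (1 + M (n + 1)) ≤ _
  exact div_le_self (by positivity) (by linarith)

lemma ep_succ_lt (M : ℕ → ℝ) (hM : ∀ n, 0 ≤ M n) (n : ℕ) : ep M (n + 1) < ep M n := by
  have := ep_succ_le M hM n
  have h2 := ep_pos M hM n
  linarith

lemma ep_anti (M : ℕ → ℝ) (hM : ∀ n, 0 ≤ M n) : StrictAnti (ep M) :=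
  strictAnti_nat_of_succ_lt (ep_succ_lt M hM)

lemma ep_le (M : ℕ → ℝ) (hM : ∀ n, 0 ≤ M n) (n : ℕ) : ep M n * (1 + M n) ≤ (1 / 2) ^ n := by
  have aux : ∀ n, ep M n ≤ (1 / 2) ^ n := by
    intro n
    induction n with
    | zero =>
      have := hM 0
      show 1 / (1 + M 0) ≤ (1 / 2) ^ 0
      rw [pow_zero, div_le_one (by linarith)]; linarith
    | succ n ih => have := ep_succ_le M hM n; rw [pow_succ]; linarith
  cases n with
  | zero =>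
    have := hM 0
    show 1 / (1 + M 0) * (1 + M 0) ≤ (1 / 2) ^ 0
    rw [pow_zero, one_div_mul_cancel (by linarith)]
  | succ n =>
    have := hM (n + 1)
    show ep M n / 2 / (1 + M (n + 1)) * (1 + M (n + 1)) ≤ _
    rw [div_mul_cancel₀ _ (by linarith), pow_succ]
    have := aux n
    linarith

variable (𝕜) in
def MM (x : ℕ → X) (n : ℕ) : ℝ := ‖φ 𝕜 x n‖ * ‖e 𝕜 x n‖

lemma MM_nonneg (x : ℕ → X) (n : ℕ) : 0 ≤ MM 𝕜 x n := by unfold MM; positivity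

variable (𝕜) in
def ε (x : ℕ → X) (n : ℕ) : ℝ := ep (MM 𝕜 x) n

lemma ε_pos (x : ℕ → X) (n : ℕ) : 0 < ε 𝕜 x n := ep_pos _ (MM_nonneg x) n

variable (𝕜) in
def Kn (x : ℕ → X) (n : ℕ) : X →L[𝕜] X := ((ε 𝕜 x n : ℝ) : 𝕜) • (φ 𝕜 x n).smulRight (e 𝕜 x n)

lemma Kn_norm (x : ℕ → X) (n : ℕ) : ‖Kn 𝕜 x n‖ ≤ (1 / 2) ^ n := by
  unfold Kn
  rw [norm_smul, ContinuousLinearMap.norm_smulRight_apply, RCLike.norm_ofReal,
    abs_of_pos (ε_pos x n)]
  refine le_trans ?_ (ep_le (MM 𝕜 x) (MM_nonneg x) n)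
  refine mul_le_mul_of_nonneg_left ?_ (ε_pos x n).le
  unfold MM; linarith

variable [CompleteSpace X]

lemma Kn_summable (x : ℕ → X) : Summable (Kn 𝕜 x) :=
  Summable.of_norm_bounded (summable_geometric_of_lt_one (by norm_num) (by norm_num)) (Kn_norm x)

variable (𝕜) in
def K (x : ℕ → X) : X →L[𝕜] X := ∑' n, Kn 𝕜 x n

lemma K_hasSum (x : ℕ → X) (y : X) :
    HasSum (fun n => ((ε 𝕜 x n : ℝ) : 𝕜) • φ 𝕜 x n y • e 𝕜 x n) (K 𝕜 x y) := by
  have h := (ContinuousLinearMap.apply 𝕜 X y).hasSum (Kn_summable (𝕜 := 𝕜) x).hasSum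
  have e1 : (fun n => ((ε 𝕜 x n : ℝ) : 𝕜) • φ 𝕜 x n y • e 𝕜 x n) =
      (fun n => ContinuousLinearMap.apply 𝕜 X y (Kn 𝕜 x n)) := by
    funext n
    rw [ContinuousLinearMap.apply_apply]
    unfold Kn
    rw [smul_apply, ContinuousLinearMap.smulRight_apply]
  rw [e1]
  exact h

lemma K_e (x : ℕ → X) (k : ℕ) : K 𝕜 x (e 𝕜 x k) = ((ε 𝕜 x k : ℝ) : 𝕜) • e 𝕜 x k := by
  have h := K_hasSum (𝕜 := 𝕜) x (e 𝕜 x k)
  have h2 := hasSum_single (f := fun n => ((ε 𝕜 x n : ℝ) : 𝕜) • φ 𝕜 x n (e 𝕜 x k) • e 𝕜 x n) k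
    (by
      intro n hn
      show ((ε 𝕜 x n : ℝ) : 𝕜) • φ 𝕜 x n (e 𝕜 x k) • e 𝕜 x n = 0
      rw [φ_e_ne x hn, zero_smul, smul_zero])
  rw [h.unique h2, φ_e_self]

lemma φ_K (x : ℕ → X) (k : ℕ) (y : X) : φ 𝕜 x k (K 𝕜 x y) = ((ε 𝕜 x k : ℝ) : 𝕜) * φ 𝕜 x k y := by
  have h := (φ 𝕜 x k).hasSum (K_hasSum (𝕜 := 𝕜) x y)
  have h2 := hasSum_single (f := fun n => φ 𝕜 x k (((ε 𝕜 x n : ℝ) : 𝕜) • φ 𝕜 x n y • e 𝕜 x n)) k
    (by
      intro n hn
      show φ 𝕜 x k (((ε 𝕜 x n : ℝ) : 𝕜) • φ 𝕜 x n y • e 𝕜 x n) = 0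
      rw [map_smul, map_smul, φ_e_ne x (Ne.symm hn), smul_zero, smul_zero])
  have h3 := h.unique h2
  rw [h3, map_smul, map_smul, smul_eq_mul, smul_eq_mul]
  by_cases he : e 𝕜 x k = 0
  · have : φ 𝕜 x k = 0 := by unfold φ; rw [psi_zero he]; simp
    rw [this]; simp
  · rw [φ_e_one x k he, mul_one]

variable (𝕜) in
def A (x : ℕ → X) : X →L[𝕜] X := 1 + K 𝕜 x

lemma A_pow_e (x : ℕ → X) (n k : ℕ) :
    (A 𝕜 x ^ n) (e 𝕜 x k) = (((1 + ε 𝕜 x k) ^ n : ℝ) : 𝕜) • e 𝕜 x k := by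
  induction n with
  | zero => simp
  | succ n ih =>
    have : A 𝕜 x (e 𝕜 x k) = ((1 + ε 𝕜 x k : ℝ) : 𝕜) • e 𝕜 x k := by
      show e 𝕜 x k + K 𝕜 x (e 𝕜 x k) = _
      rw [K_e, RCLike.ofReal_add, add_smul, RCLike.ofReal_one, one_smul]
    rw [pow_succ, mul_apply_eq_comp, this, map_smul, ih, smul_smul]
    congr 1
    rw [pow_succ, RCLike.ofReal_mul, mul_comm]

lemma φ_A_pow (x : ℕ → X) (n k : ℕ) (y : X) :
    φ 𝕜 x k ((A 𝕜 x ^ n) y) = (((1 + ε 𝕜 x k) ^ n : ℝ) : 𝕜) * φ 𝕜 x k y := by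
  induction n generalizing y with
  | zero => simp
  | succ n ih =>
    have : φ 𝕜 x k (A 𝕜 x y) = ((1 + ε 𝕜 x k : ℝ) : 𝕜) * φ 𝕜 x k y := by
      show φ 𝕜 x k (y + K 𝕜 x y) = _
      rw [map_add, φ_K, RCLike.ofReal_add, add_mul, RCLike.ofReal_one, one_mul]
    rw [pow_succ, mul_apply_eq_comp, ih, this, ← mul_assoc]
    congr 1
    rw [pow_succ, RCLike.ofReal_mul]

variable (𝕜) in
def δ (x : ℕ → X) (k : ℕ) : ℝ := (1 / 2) ^ k / (1 + ‖e 𝕜 x k‖)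

omit [CompleteSpace X] in
lemma δ_pos (x : ℕ → X) (k : ℕ) : 0 < δ 𝕜 x k := by unfold δ; positivity

omit [CompleteSpace X] in
lemma δ_le (x : ℕ → X) (k : ℕ) : δ 𝕜 x k * ‖e 𝕜 x k‖ ≤ (1 / 2) ^ k := by
  unfold δ
  rw [div_mul_eq_mul_div, div_le_iff₀ (by positivity)]
  refine mul_le_mul_of_nonneg_left ?_ (by positivity)
  linarith [norm_nonneg (e 𝕜 x k)]

variable (𝕜) in
def y0 (x : ℕ → X) : X := ∑' k, ((δ 𝕜 x k : ℝ) : 𝕜) • e 𝕜 x k

lemma y0_hasSum (x : ℕ → X) : HasSum (fun k => ((δ 𝕜 x k : ℝ) : 𝕜) • e 𝕜 x k) (y0 𝕜 x) := by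
  refine Summable.hasSum ?_
  refine Summable.of_norm_bounded (g := fun k => (1 / 2 : ℝ) ^ k)
    (summable_geometric_of_lt_one (by norm_num) (by norm_num)) ?_
  intro k
  rw [norm_smul, RCLike.norm_ofReal, abs_of_pos (δ_pos x k)]
  exact δ_le x k

lemma g_hasSum (x : ℕ → X) (g : X →L[𝕜] 𝕜) (n : ℕ) :
    HasSum (fun k => ((δ 𝕜 x k * (1 + ε 𝕜 x k) ^ n : ℝ) : 𝕜) * g (e 𝕜 x k))
      (g ((A 𝕜 x ^ n) (y0 𝕜 x))) := by
  have h := (g.comp (A 𝕜 x ^ n)).hasSum (y0_hasSum (𝕜 := 𝕜) x)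
  have e1 : (fun k => ((δ 𝕜 x k * (1 + ε 𝕜 x k) ^ n : ℝ) : 𝕜) * g (e 𝕜 x k)) =
      (fun k => (g.comp (A 𝕜 x ^ n)) (((δ 𝕜 x k : ℝ) : 𝕜) • e 𝕜 x k)) := by
    funext k
    rw [ContinuousLinearMap.comp_apply, map_smul, A_pow_e, map_smul, map_smul, smul_eq_mul,
      smul_eq_mul, RCLike.ofReal_mul, mul_assoc]
  rw [e1]
  exact h

/-- the leading term dominates. -/
lemma g_asymp (x : ℕ → X) (g : X →L[𝕜] 𝕜) (k₀ : ℕ) (hk : ∀ k < k₀, g (e 𝕜 x k) = 0) (n : ℕ) :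
    ‖g ((A 𝕜 x ^ n) (y0 𝕜 x)) - ((δ 𝕜 x k₀ * (1 + ε 𝕜 x k₀) ^ n : ℝ) : 𝕜) * g (e 𝕜 x k₀)‖
      ≤ 2 * ‖g‖ * (1 + ε 𝕜 x (k₀ + 1)) ^ n := by
  have h := g_hasSum x g n
  have h1 := hasSum_ite_sub_hasSum h k₀
  have h2 : HasSum (fun k : ℕ => (1 / 2 : ℝ) ^ k * (‖g‖ * (1 + ε 𝕜 x (k₀ + 1)) ^ n))
      (2 * (‖g‖ * (1 + ε 𝕜 x (k₀ + 1)) ^ n)) := by
    exact hasSum_geometric_two.mul_right _
  have h3 := h1.norm_le_of_bounded h2 ?_
  · rw [mul_assoc]; exact h3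
  intro k
  have hpos : (0 : ℝ) ≤ (1 / 2 : ℝ) ^ k * (‖g‖ * (1 + ε 𝕜 x (k₀ + 1)) ^ n) := by
    have := ε_pos (𝕜 := 𝕜) x (k₀ + 1)
    positivity
  by_cases hkk : k = k₀
  · rw [if_pos hkk, norm_zero]; exact hpos
  · rw [if_neg hkk]
    rcases lt_or_gt_of_ne hkk with hlt | hgt
    · rw [hk k hlt, mul_zero, norm_zero]; exact hpos
    · have hε : ε 𝕜 x k ≤ ε 𝕜 x (k₀ + 1) := (ep_anti _ (MM_nonneg x)).antitone hgt
      have hε0 := ε_pos (𝕜 := 𝕜) x k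
      have hδ0 := δ_pos (𝕜 := 𝕜) x k
      rw [norm_mul, RCLike.norm_ofReal, abs_of_pos (by positivity)]
      calc δ 𝕜 x k * (1 + ε 𝕜 x k) ^ n * ‖g (e 𝕜 x k)‖
          ≤ δ 𝕜 x k * (1 + ε 𝕜 x (k₀ + 1)) ^ n * (‖g‖ * ‖e 𝕜 x k‖) := by
            have hp1 : (0 : ℝ) ≤ δ 𝕜 x k * (1 + ε 𝕜 x (k₀ + 1)) ^ n :=
              mul_nonneg hδ0.le (pow_nonneg (by linarith) _)
            gcongr
            exact g.le_opNorm _
        _ = (δ 𝕜 x k * ‖e 𝕜 x k‖) * (‖g‖ * (1 + ε 𝕜 x (k₀ + 1)) ^ n) := by ring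
        _ ≤ (1 / 2 : ℝ) ^ k * (‖g‖ * (1 + ε 𝕜 x (k₀ + 1)) ^ n) := by
            have := ε_pos (𝕜 := 𝕜) x (k₀ + 1)
            refine mul_le_mul_of_nonneg_right (δ_le x k) (by positivity)

variable (𝕜) in
/-- the rotation: `-1` over the reals, `i` over the complex numbers. -/
lemma exists_w : ∃ w : 𝕜, w ^ 4 = 1 ∧ (∀ c : 𝕜, c ≠ 0 → ∃ j : ℕ, 0 < RCLike.re (w ^ j * c)) ∧
    ∀ v : 𝕜, ∃ u : 𝕜, u ≠ 0 ∧ ∀ n : ℕ, 0 ≤ RCLike.re (u * ((w ^ 2) ^ n * v)) := by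
  rcases RCLike.I_mul_I (K := 𝕜) with hI | hI
  · refine ⟨-1, by norm_num, ?_, ?_⟩
    · intro c hc
      have him : RCLike.im c = 0 := by
        have := RCLike.re_add_im c
        have h2 : RCLike.im ((RCLike.re c : 𝕜) + (RCLike.im c : 𝕜) * RCLike.I) = RCLike.im c := by
          rw [this]
        rw [hI, mul_zero, add_zero, RCLike.ofReal_im] at h2
        exact h2.symm
      have hre : RCLike.re c ≠ 0 := by
        intro h0
        exact hc (RCLike.ext (by simpa using h0) (by simpa using him))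
      rcases lt_or_gt_of_ne hre with h | h
      · exact ⟨1, by rw [pow_one, neg_one_mul, map_neg]; linarith⟩
      · exact ⟨0, by rw [pow_zero, one_mul]; exact h⟩
    · intro v
      by_cases hv : v = 0
      · exact ⟨1, one_ne_zero, fun n => by rw [hv]; simp⟩
      · refine ⟨(starRingEnd 𝕜) v, by simpa using hv, fun n => ?_⟩
        have : (((-1 : 𝕜)) ^ 2) ^ n = 1 := by norm_num
        rw [this, one_mul, RCLike.conj_mul]
        have h2 : RCLike.re (((‖v‖ : ℝ) : 𝕜) ^ 2) = ‖v‖ ^ 2 := by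
          rw [← RCLike.ofReal_pow, RCLike.ofReal_re]
        rw [h2]; positivity
  · have hIne : (RCLike.I : 𝕜) ≠ 0 := by
      intro h; rw [h, mul_zero] at hI
      exact absurd hI.symm (by norm_num)
    have hI2 : (RCLike.I : 𝕜) ^ 2 = -1 := by rw [sq, hI]
    refine ⟨RCLike.I, ?_, ?_, ?_⟩
    · rw [show (4 : ℕ) = 2 * 2 from rfl, pow_mul, hI2]; norm_num
    · intro c hc
      rcases lt_trichotomy (RCLike.re c) 0 with h | h | h
      · exact ⟨2, by rw [hI2, neg_one_mul, map_neg]; linarith⟩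
      · have him : RCLike.im c ≠ 0 := fun h0 => hc (RCLike.ext (by simpa using h) (by simpa using h0))
        have key : RCLike.re ((RCLike.I : 𝕜) * c) = - RCLike.im c := RCLike.I_mul_re c
        rcases lt_or_gt_of_ne him with h' | h'
        · exact ⟨1, by rw [pow_one, key]; linarith⟩
        · refine ⟨3, ?_⟩
          rw [pow_succ, hI2, neg_one_mul, neg_mul, map_neg, key]; linarith
      · exact ⟨0, by rw [pow_zero, one_mul]; exact h⟩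
    · intro v
      by_cases hv : v = 0
      · exact ⟨1, one_ne_zero, fun n => by rw [hv]; simp⟩
      · refine ⟨RCLike.I * (starRingEnd 𝕜) v, mul_ne_zero hIne (by simpa using hv), fun n => ?_⟩
        have h1 : RCLike.I * (starRingEnd 𝕜) v * (((RCLike.I : 𝕜) ^ 2) ^ n * v) =
            (((-1 : ℝ) ^ n * ‖v‖ ^ 2 : ℝ) : 𝕜) * RCLike.I := by
          rw [hI2]
          have := RCLike.conj_mul v
          push_cast
          linear_combination (RCLike.I * (-1 : 𝕜) ^ n) * this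
        rw [h1, RCLike.re_ofReal_mul, RCLike.I_re, mul_zero]


omit [CompleteSpace X] in
lemma re_lin_hull (T : X →L[𝕜] X) (x : X) (f : X →L[𝕜] 𝕜) (h : ∀ n, 0 ≤ RCLike.re (f ((T ^ n) x)))
    {z : X} (hz : z ∈ hullOrb T x) : 0 ≤ RCLike.re (f z) := by
  obtain ⟨N, a, ha, -, rfl⟩ := hz
  rw [map_sum, map_sum]
  refine Finset.sum_nonneg fun i _ => ?_
  rw [map_smul, smul_eq_mul, RCLike.re_ofReal_mul]
  exact mul_nonneg (ha i) (h i)

omit [CompleteSpace X] in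
/-- obstruction to convex-cyclicity. -/
lemma not_dense (T : X →L[𝕜] X) (x : X) (f : X →L[𝕜] 𝕜) (hf : f ≠ 0)
    (h : ∀ n, 0 ≤ RCLike.re (f ((T ^ n) x))) : ¬ Dense (hullOrb T x) := by
  intro hd
  have hcl : IsClosed {z : X | 0 ≤ RCLike.re (f z)} :=
    isClosed_le continuous_const (RCLike.continuous_re.comp f.continuous)
  have hsub : hullOrb T x ⊆ {z : X | 0 ≤ RCLike.re (f z)} := fun z hz => re_lin_hull T x f h hz
  have hall : ∀ z : X, 0 ≤ RCLike.re (f z) := fun z => by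
    have := (hcl.closure_subset_iff.mpr hsub) (hd z)
    exact this
  apply hf
  ext z
  by_contra hne
  have hne' : f z ≠ 0 := hne
  have h1 := hall (-((starRingEnd 𝕜) (f z)) • z)
  rw [map_smul, smul_eq_mul, neg_mul, map_neg, RCLike.conj_mul, ← RCLike.ofReal_pow,
    RCLike.ofReal_re] at h1
  have h2 : 0 < ‖f z‖ ^ 2 := by positivity
  linarith

lemma ext_sum {Y : Type*} [AddCommMonoid Y] (M N : ℕ) (a : ℕ → ℝ) (hNM : N ≤ M) (F : ℕ → ℝ → Y)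
    (hF : ∀ i, F i 0 = 0) : ∑ i ∈ Finset.range N, F i (a i) =
        ∑ i ∈ Finset.range M, F i (if i < N then a i else 0) := by
  have h1 : ∑ i ∈ Finset.range N, F i (a i) =
      ∑ i ∈ Finset.range N, F i (if i < N then a i else 0) :=
    Finset.sum_congr rfl fun i hi => by rw [if_pos (Finset.mem_range.mp hi)]
  rw [h1]
  refine Finset.sum_subset (Finset.range_mono hNM) ?_
  intro i _ hi
  rw [Finset.mem_range] at hi
  rw [if_neg hi, hF]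

omit [CompleteSpace X] in
lemma convex_hull_aux (T : X →L[𝕜] X) (x : X) [NormedSpace ℝ X] [IsScalarTower ℝ 𝕜 X] :
    Convex ℝ (hullOrb T x) := by
  intro z hz z' hz' s t hs ht hst
  obtain ⟨N, a, ha, ha1, rfl⟩ := hz
  obtain ⟨N', a', ha', ha1', rfl⟩ := hz'
  set M := max N N' with hM
  refine ⟨M, fun i => s * (if i < N then a i else 0) + t * (if i < N' then a' i else 0), ?_, ?_, ?_⟩
  · intro i
    have h1 : 0 ≤ (if i < N then a i else 0) := by split_ifs; exacts [ha i, le_rfl]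
    have h2 : 0 ≤ (if i < N' then a' i else 0) := by split_ifs; exacts [ha' i, le_rfl]
    positivity
  · rw [Finset.sum_add_distrib, ← Finset.mul_sum, ← Finset.mul_sum]
    have h1 : ∑ i ∈ Finset.range N, a i = ∑ i ∈ Finset.range M, (if i < N then a i else 0) :=
      ext_sum M N a (le_max_left _ _) (fun _ r => r) (fun _ => rfl)
    have h2 : ∑ i ∈ Finset.range N', a' i = ∑ i ∈ Finset.range M, (if i < N' then a' i else 0) :=
      ext_sum M N' a' (le_max_right _ _) (fun _ r => r) (fun _ => rfl)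
    rw [← h1, ← h2, ha1, ha1', mul_one, mul_one, hst]
  · have h1 : ∑ i ∈ Finset.range N, ((a i : ℝ) : 𝕜) • (T ^ i) x =
        ∑ i ∈ Finset.range M, (((if i < N then a i else 0) : ℝ) : 𝕜) • (T ^ i) x :=
      ext_sum M N a (le_max_left _ _) (fun i r => ((r : ℝ) : 𝕜) • (T ^ i) x) (fun _ => by simp)
    have h2 : ∑ i ∈ Finset.range N', ((a' i : ℝ) : 𝕜) • (T ^ i) x =
        ∑ i ∈ Finset.range M, (((if i < N' then a' i else 0) : ℝ) : 𝕜) • (T ^ i) x :=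
      ext_sum M N' a' (le_max_right _ _) (fun i r => ((r : ℝ) : 𝕜) • (T ^ i) x) (fun _ => by simp)
    rw [h1, h2, Finset.smul_sum, Finset.smul_sum, ← Finset.sum_add_distrib]
    refine Finset.sum_congr rfl fun i _ => ?_
    rw [RCLike.ofReal_add, RCLike.ofReal_mul, RCLike.ofReal_mul, add_smul, mul_smul, mul_smul]
    rw [RCLike.real_smul_eq_coe_smul (K := 𝕜) s, RCLike.real_smul_eq_coe_smul (K := 𝕜) t]

omit [CompleteSpace X] in
/-- Hahn-Banach criterion. -/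
lemma dense_of (T : X →L[𝕜] X) (x : X)
    (h : ∀ f : X →L[𝕜] 𝕜, f ≠ 0 → ∀ C : ℝ, ∃ n, C < RCLike.re (f ((T ^ n) x))) :
    Dense (hullOrb T x) := by
  let _ : NormedSpace ℝ X := NormedSpace.restrictScalars ℝ 𝕜 X
  have : IsScalarTower ℝ 𝕜 X := RestrictScalars.isScalarTower ℝ 𝕜 X
  intro z
  by_contra hz
  have hconv : Convex ℝ (closure (hullOrb T x)) := (convex_hull_aux T x).closure
  obtain ⟨f, u, hf1, hf2⟩ := RCLike.geometric_hahn_banach_closed_point (𝕜 := 𝕜) hconv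
    isClosed_closure hz
  have horb : ∀ n, (T ^ n) x ∈ hullOrb T x := by
    intro n
    refine ⟨n + 1, fun i => if i = n then 1 else 0,
      fun i => by show (0 : ℝ) ≤ if i = n then 1 else 0; split_ifs <;> norm_num, ?_, ?_⟩
    · simp
    · rw [Finset.sum_eq_single n]
      · simp
      · intro b _ hb; simp [hb]
      · intro hn; exact absurd (Finset.mem_range.mpr (Nat.lt_succ_self n)) hn
  have hfne : f ≠ 0 := by
    intro h0
    have h1 := hf1 _ (subset_closure (horb 0))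
    rw [h0] at h1 hf2
    simp only [zero_apply, map_zero] at h1 hf2
    linarith
  obtain ⟨n, hn⟩ := h f hfne u
  exact absurd (hf1 _ (subset_closure (horb n))) (not_lt.mpr hn.le)

/-- **Main theorem.** -/
theorem main [TopologicalSpace.SeparableSpace X] [Nontrivial X] :
    ∃ S : X →L[𝕜] X, ConvexCyclic S ∧ ¬ ConvexCyclic (S ^ 2) := by
  set x : ℕ → X := TopologicalSpace.denseSeq X with hx
  have hdense : DenseRange x := TopologicalSpace.denseRange_denseSeq X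
  have hvan : ∀ g : X →L[𝕜] 𝕜, g ≠ 0 → ∃ k, g (e 𝕜 x k) ≠ 0 := by
    intro g hg
    by_contra hcon
    push Not at hcon
    apply hg
    have h1 := vanish x g hcon
    have h2 : (g : X → 𝕜) = fun _ => 0 := by
      refine Continuous.ext_on hdense g.continuous continuous_const ?_
      rintro _ ⟨n, rfl⟩
      exact h1 n
    ext z
    rw [h2]; rfl
  obtain ⟨w, hw4, hwc, hwv⟩ := exists_w 𝕜
  have hpow : ∀ n z, ((w • A 𝕜 x) ^ n) z = w ^ n • (A 𝕜 x ^ n) z := by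
    intro n z
    rw [smul_pow]; rfl
  refine ⟨w • A 𝕜 x, ⟨y0 𝕜 x, ?_⟩, ?_⟩
  · refine dense_of _ _ fun f hf C => ?_
    classical
    have hex := hvan f hf
    set k₀ := Nat.find hex with hk₀
    have hk0 : f (e 𝕜 x k₀) ≠ 0 := Nat.find_spec hex
    have hkl : ∀ k < k₀, f (e 𝕜 x k) = 0 := fun k hk => by
      have := Nat.find_min hex hk
      push Not at this; exact this
    have hd0 := δ_pos (𝕜 := 𝕜) x k₀
    set c : 𝕜 := ((δ 𝕜 x k₀ : ℝ) : 𝕜) * f (e 𝕜 x k₀) with hc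
    have hcne : c ≠ 0 := mul_ne_zero (by exact_mod_cast hd0.ne') hk0
    obtain ⟨j, hj⟩ := hwc c hcne
    set ρ := RCLike.re (w ^ j * c) with hρ
    have hwn : ‖w‖ = 1 := by
      have h1 : ‖w‖ ^ 4 = 1 := by rw [← norm_pow, hw4, norm_one]
      exact (pow_eq_one_iff_of_nonneg (norm_nonneg _) (by norm_num)).mp h1
    have he0 := ε_pos (𝕜 := 𝕜) x k₀
    have he1 := ε_pos (𝕜 := 𝕜) x (k₀ + 1)
    have hlt : ε 𝕜 x (k₀ + 1) < ε 𝕜 x k₀ := ep_anti _ (MM_nonneg x) (Nat.lt_succ_self k₀)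
    have hlow : ∀ m : ℕ, ρ * (1 + ε 𝕜 x k₀) ^ (4 * m + j) -
        2 * ‖f‖ * (1 + ε 𝕜 x (k₀ + 1)) ^ (4 * m + j)
        ≤ RCLike.re (f (((w • A 𝕜 x) ^ (4 * m + j)) (y0 𝕜 x))) := by
      intro m
      set n := 4 * m + j with hn
      have hb := g_asymp x f k₀ hkl n
      rw [hpow, map_smul, smul_eq_mul]
      have hwn2 : w ^ n = w ^ j := by
        rw [hn, pow_add, pow_mul, hw4, one_pow, one_mul]
      rw [hwn2]
      have e1 : w ^ j * f ((A 𝕜 x ^ n) (y0 𝕜 x)) =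
          (((1 + ε 𝕜 x k₀) ^ n : ℝ) : 𝕜) * (w ^ j * c) +
          w ^ j * (f ((A 𝕜 x ^ n) (y0 𝕜 x)) -
            ((δ 𝕜 x k₀ * (1 + ε 𝕜 x k₀) ^ n : ℝ) : 𝕜) * f (e 𝕜 x k₀)) := by
        rw [hc, RCLike.ofReal_mul]; ring
      rw [e1, map_add, RCLike.re_ofReal_mul, ← hρ]
      have h3 : |RCLike.re (w ^ j * (f ((A 𝕜 x ^ n) (y0 𝕜 x)) -
            ((δ 𝕜 x k₀ * (1 + ε 𝕜 x k₀) ^ n : ℝ) : 𝕜) * f (e 𝕜 x k₀)))| ≤
            2 * ‖f‖ * (1 + ε 𝕜 x (k₀ + 1)) ^ n := by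
        refine (RCLike.abs_re_le_norm _).trans ?_
        rw [norm_mul, norm_pow, hwn, one_pow, one_mul]
        exact hb
      have h4 := (abs_le.mp h3).1
      linarith
    have htend : Tendsto (fun n : ℕ => ρ * (1 + ε 𝕜 x k₀) ^ n -
        2 * ‖f‖ * (1 + ε 𝕜 x (k₀ + 1)) ^ n) atTop atTop := by
      have hr : Tendsto (fun n : ℕ => ((1 + ε 𝕜 x (k₀ + 1)) / (1 + ε 𝕜 x k₀)) ^ n) atTop (𝓝 0) := by
        refine tendsto_pow_atTop_nhds_zero_of_lt_one (by positivity) ?_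
        rw [div_lt_one (by positivity)]; linarith
      have h5 : Tendsto (fun n : ℕ => ρ - 2 * ‖f‖ *
          ((1 + ε 𝕜 x (k₀ + 1)) / (1 + ε 𝕜 x k₀)) ^ n) atTop (𝓝 (ρ - 2 * ‖f‖ * 0)) :=
        tendsto_const_nhds.sub (hr.const_mul _)
      rw [mul_zero, sub_zero] at h5
      have h6 : Tendsto (fun n : ℕ => (1 + ε 𝕜 x k₀) ^ n) atTop atTop :=
        tendsto_pow_atTop_atTop_of_one_lt (by linarith)
      refine (h6.atTop_mul_pos hj h5).congr fun n => ?_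
      have hne : (1 + ε 𝕜 x k₀) ^ n ≠ 0 := by positivity
      rw [div_pow]
      field_simp
    have htend2 : Tendsto (fun m : ℕ => 4 * m + j) atTop atTop := by
      refine tendsto_atTop_mono (fun m => ?_) tendsto_id
      simp only [id]; omega
    obtain ⟨m, hm⟩ := ((htend.comp htend2).eventually (eventually_gt_atTop C)).exists
    exact ⟨4 * m + j, lt_of_lt_of_le hm (hlow m)⟩
  · rintro ⟨z, hz⟩
    obtain ⟨k, hk⟩ : ∃ k, e 𝕜 x k ≠ 0 := by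
      by_contra hcon
      push Not at hcon
      obtain ⟨z, hz⟩ := exists_ne (0 : X)
      obtain ⟨g, -, hg2⟩ := exists_dual_vector 𝕜 z (by simpa using hz)
      have hg0 : g ≠ 0 := by
        intro h; rw [h] at hg2
        have : (‖z‖ : 𝕜) = 0 := hg2.symm
        exact hz (by simpa using this)
      obtain ⟨k, hk⟩ := hvan g hg0
      rw [hcon k, map_zero] at hk
      exact hk rfl
    obtain ⟨u, hu, huv⟩ := hwv (φ 𝕜 x k z)
    refine not_dense ((w • A 𝕜 x) ^ 2) z (u • φ 𝕜 x k) ?_ ?_ hz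
    · intro h0
      have h1 : (u • φ 𝕜 x k) (e 𝕜 x k) = 0 := by rw [h0]; rfl
      rw [smul_apply, φ_e_one x k hk, smul_eq_mul, mul_one] at h1
      exact hu h1
    · intro n
      have e0 : (u • φ 𝕜 x k) ((((w • A 𝕜 x) ^ 2) ^ n) z) =
          u * ((w ^ 2) ^ n * ((((1 + ε 𝕜 x k) ^ (2 * n) : ℝ) : 𝕜) * φ 𝕜 x k z)) := by
        rw [← pow_mul, hpow, smul_apply, map_smul (φ 𝕜 x k), φ_A_pow, smul_eq_mul, smul_eq_mul, pow_mul]
      rw [e0]
      have e1 : u * ((w ^ 2) ^ n * ((((1 + ε 𝕜 x k) ^ (2 * n) : ℝ) : 𝕜) * φ 𝕜 x k z)) =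
          (((1 + ε 𝕜 x k) ^ (2 * n) : ℝ) : 𝕜) * (u * ((w ^ 2) ^ n * φ 𝕜 x k z)) := by ring
      rw [e1, RCLike.re_ofReal_mul]
      have := ε_pos (𝕜 := 𝕜) x k
      exact mul_nonneg (by positivity) (huv n)

end

end Pool.Agent.Y265.Cc
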