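import Mathlib

set_option autoImplicit false

namespace Pool.Agent.Y265.Cc

variable {𝕜 : Type*} [RCLike 𝕜] {X : Type*} [NormedAddCommGroup X] [NormedSpace 𝕜 X]

/-- The set of all (finite) convex combinations of the orbit points `T^i x`. -/
def hullOrb (T : X →L[𝕜] X) (x : X) : Set X :=
  {z | ∃ (N : ℕ) (a : ℕ → ℝ), (∀ i, 0 ≤ a i) ∧ ∑ i ∈ Finset.range N, a i = 1 ∧
    z = ∑ i ∈ Finset.range N, ((a i : ℝ) : 𝕜) • (T ^ i) x}

/-- `T` is convex-cyclic: for some `x` the convex hull of the orbit of `x` is dense. -/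
def ConvexCyclic (T : X →L[𝕜] X) : Prop := ∃ x : X, Dense (hullOrb T x)

end Pool.Agent.Y265.Cc
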