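import Pool.Agent.Y300.KS.Stm

/-! Kostlan systems (project KS of helper300): the events of the rest of the window and outside the
window; measurability and dependence. -/

open Set MeasureTheory ProbabilityTheory Filter Topology

set_option linter.unusedSectionVars false

namespace Pool.Agent.Y265.KSPro

open Pool.Agent.K300 Pool.Agent.Y300.KS

/-! ### the energy -/

lemma enr_nonneg (n I J : ℕ) (B : ℝ) (K : ℕ) (A : Finset (ℕ × ℕ)) (y : ℕ × ℕ → ℝ) :
    0 ≤ enr n I J B K A y :=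
  Finset.sum_nonneg fun _ _ => Finset.sum_nonneg fun _ _ => sq_nonneg _

lemma enr_mono (n I J : ℕ) (B : ℝ) (A : Finset (ℕ × ℕ)) (y : ℕ × ℕ → ℝ) :
    Monotone fun K => enr n I J B K A y := by
  intro K K' h
  unfold enr
  have hs : Finset.range K ⊆ Finset.range K' := Finset.range_mono h
  calc ∑ k ∈ Finset.range K, ∑ l ∈ Finset.range K, (∑ m ∈ A, co n I J B k l m * y m) ^ 2
      ≤ ∑ k ∈ Finset.range K, ∑ l ∈ Finset.range K', (∑ m ∈ A, co n I J B k l m * y m) ^ 2 :=
        Finset.sum_le_sum fun k _ =>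
          Finset.sum_le_sum_of_subset_of_nonneg hs fun _ _ _ => sq_nonneg _
    _ ≤ _ := Finset.sum_le_sum_of_subset_of_nonneg hs fun _ _ _ =>
          Finset.sum_nonneg fun _ _ => sq_nonneg _

lemma measurable_enr (n I J : ℕ) (B : ℝ) (K : ℕ) (A : Finset (ℕ × ℕ)) (c : Fin 2) :
    Measurable fun ξ : Ix → ℝ => enr n I J B K A (fun m => sg m * ξ (c, m)) := by
  unfold enr
  fun_prop

lemma measurableSet_all (n I J : ℕ) (B : ℝ) (A : Finset (ℕ × ℕ)) (c : Fin 2) (R : ℝ) :
    MeasurableSet {ξ : Ix → ℝ | ∀ K : ℕ, enr n I J B K A (fun m => sg m * ξ (c, m)) ≤ R} := by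
  have : {ξ : Ix → ℝ | ∀ K : ℕ, enr n I J B K A (fun m => sg m * ξ (c, m)) ≤ R} =
      ⋂ K : ℕ, {ξ : Ix → ℝ | enr n I J B K A (fun m => sg m * ξ (c, m)) ≤ R} := by
    ext ξ; simp
  rw [this]
  exact MeasurableSet.iInter fun K => measurableSet_le (measurable_enr _ _ _ _ _ _ _)
    measurable_const

lemma depOn_all (n I J : ℕ) (B : ℝ) (A : Finset (ℕ × ℕ)) (c : Fin 2) (R : ℝ) :
    DepOn (({c} : Finset (Fin 2)) ×ˢ A)
      {ξ : Ix → ℝ | ∀ K : ℕ, enr n I J B K A (fun m => sg m * ξ (c, m)) ≤ R} := by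
  refine ⟨measurableSet_all _ _ _ _ _ _ _, ?_⟩
  intro ξ ξ' h
  have h1 : ∀ m ∈ A, ξ (c, m) = ξ' (c, m) := fun m hm =>
    h (c, m) (Finset.mem_product.2 ⟨Finset.mem_singleton_self c, hm⟩)
  have h3 : ∀ K, enr n I J B K A (fun m => sg m * ξ (c, m)) =
      enr n I J B K A (fun m => sg m * ξ' (c, m)) := by
    intro K
    unfold enr
    refine Finset.sum_congr rfl fun k _ => Finset.sum_congr rfl fun l _ => ?_
    congr 1
    refine Finset.sum_congr rfl fun m hm => ?_
    simp only [h1 m hm]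
  simp only [mem_ofPred_eq, h3]

lemma measurable_cm (A : Finset (ℕ × ℕ)) (c : Fin 2) :
    Measurable fun ξ : Ix → ℝ => cm A (fun m => ξ (c, m)) := by
  unfold cm
  fun_prop

lemma depOn_EvC (n I J G N : ℕ) (B : ℝ) (c : Fin 2) (q : Cx N) (v : ℤ) :
    DepOn (({c} : Finset (Fin 2)) ×ˢ kc n I J G q) (EvC n I J G B c q v) := by
  have hm := measurable_cm (kc n I J G q) c
  refine ⟨?_, ?_⟩
  · unfold EvC
    refine MeasurableSet.inter ?_ ?_
    · exact measurableSet_lt (by fun_prop) measurable_const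
    · have : {ξ : Ix → ℝ | ∀ K : ℕ, enr n I J B K (kc n I J G q)
          (fun m => ξ (c, m) - cm (kc n I J G q) (fun m => ξ (c, m))) ≤
            8 * ∑ m ∈ kc n I J G q, pr n I J m * Real.exp (4 * B * ab n I J m)} =
          ⋂ K : ℕ, {ξ : Ix → ℝ | enr n I J B K (kc n I J G q)
          (fun m => ξ (c, m) - cm (kc n I J G q) (fun m => ξ (c, m))) ≤
            8 * ∑ m ∈ kc n I J G q, pr n I J m * Real.exp (4 * B * ab n I J m)} := by
        ext ξ; simp
      rw [this]
      refine MeasurableSet.iInter fun K => measurableSet_le ?_ measurable_const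
      unfold enr
      fun_prop
  · intro ξ ξ' h
    have h1 : ∀ m ∈ kc n I J G q, ξ (c, m) = ξ' (c, m) := fun m hm =>
      h (c, m) (Finset.mem_product.2 ⟨Finset.mem_singleton_self c, hm⟩)
    have h2 : cm (kc n I J G q) (fun m => ξ (c, m)) = cm (kc n I J G q) (fun m => ξ' (c, m)) := by
      unfold cm
      rw [Finset.sum_congr rfl h1]
    have h3 : ∀ K, enr n I J B K (kc n I J G q)
        (fun m => ξ (c, m) - cm (kc n I J G q) (fun m => ξ (c, m))) =
        enr n I J B K (kc n I J G q)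
        (fun m => ξ' (c, m) - cm (kc n I J G q) (fun m => ξ' (c, m))) := by
      intro K
      unfold enr
      rw [h2]
      refine Finset.sum_congr rfl fun k _ => Finset.sum_congr rfl fun l _ => ?_
      congr 1
      refine Finset.sum_congr rfl fun m hm => ?_
      simp only [h1 m hm]
    simp only [EvC, mem_inter_iff, mem_ofPred_eq]
    rw [h2] at h3 ⊢
    simp only [h3]

/-- **DEP** -/
theorem dep_all : S_DEP := by
  intro n I J G N B c
  exact ⟨fun q v => depOn_EvC n I J G N B c q v, depOn_all _ _ _ _ _ _ _,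
    measurableSet_all _ _ _ _ _ _ _⟩

/-! ### second moments -/

section

variable {Ω : Type*} [MeasurableSpace Ω] {P : Measure Ω} [IsProbabilityMeasure P]
  {X : Ix → Ω → ℝ} {ν : Fin 2 → Measure ℝ} [∀ c, IsProbabilityMeasure (ν c)]

lemma enr_moment (h : Std P X ν) (n I J : ℕ) (B : ℝ) (K : ℕ) (A : Finset (ℕ × ℕ)) (c : Fin 2) :
    Integrable (fun ω => enr n I J B K A (fun m => sg m * X (c, m) ω)) P ∧
    ∫ ω, enr n I J B K A (fun m => sg m * X (c, m) ω) ∂P =
      ∑ k ∈ Finset.range K, ∑ l ∈ Finset.range K, ∑ m ∈ A, co n I J B k l m ^ 2 := by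
  have e : (fun ω => enr n I J B K A (fun m => sg m * X (c, m) ω)) =
      fun ω => ∑ k ∈ Finset.range K, ∑ l ∈ Finset.range K,
        (∑ m ∈ A, (sg m * co n I J B k l m) * X (c, m) ω) ^ 2 := by
    ext ω
    unfold enr
    refine Finset.sum_congr rfl fun k _ => Finset.sum_congr rfl fun l _ => ?_
    congr 1
    exact Finset.sum_congr rfl fun m _ => by ring
  rw [e]
  have h1 := fun k l => h.integral_sq_sum A (fun m => sg m * co n I J B k l m) c
  refine ⟨integrable_finsetSum _ fun k _ => integrable_finsetSum _ fun l _ => (h1 k l).1, ?_⟩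
  rw [integral_finsetSum _ fun k _ => integrable_finsetSum _ fun l _ => (h1 k l).1]
  refine Finset.sum_congr rfl fun k _ => ?_
  rw [integral_finsetSum _ fun l _ => (h1 k l).1]
  refine Finset.sum_congr rfl fun l _ => ?_
  rw [(h1 k l).2]
  refine Finset.sum_congr rfl fun m _ => ?_
  rw [mul_pow, sg_sq, one_mul]

/-- Markov's inequality, for all `K` at once -/
lemma markov_all (he : S_ENCO) (h : Std P X ν) (n I J : ℕ) {B : ℝ} (hB : 0 ≤ B)
    (A : Finset (ℕ × ℕ)) (c : Fin 2) {R D : ℝ} (hR : 0 < R)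
    (hD : ∑ m ∈ A, pr n I J m * Real.exp (4 * B * ab n I J m) ≤ D) :
    P.real (ev X {ξ | ∀ K : ℕ, enr n I J B K A (fun m => sg m * ξ (c, m)) ≤ R})ᶜ ≤ D / R := by
  set s : ℕ → Set Ω := fun K => {ω | R < enr n I J B K A (fun m => sg m * X (c, m) ω)} with hs
  have hU : (ev X {ξ | ∀ K : ℕ, enr n I J B K A (fun m => sg m * ξ (c, m)) ≤ R})ᶜ = ⋃ K, s K := by
    ext ω
    simp only [ev, mem_compl_iff, mem_ofPred_eq, hs, mem_iUnion, not_forall, not_le]
  have hmono : Monotone s := by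
    intro K K' hK ω hω
    exact lt_of_lt_of_le hω (enr_mono n I J B A _ hK)
  have hbd : ∀ K, P.real (s K) ≤ D / R := by
    intro K
    obtain ⟨hi, hm⟩ := enr_moment h n I J B K A c
    have h4 := mul_meas_ge_le_integral_of_nonneg
      (ae_of_all P fun ω => enr_nonneg n I J B K A (fun m => sg m * X (c, m) ω)) hi R
    rw [hm] at h4
    have h5 : R * P.real (s K) ≤ D := by
      refine le_trans (mul_le_mul_of_nonneg_left (measureReal_mono ?_) hR.le)
        (h4.trans ((he n I J A B K hB).trans hD))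
      intro ω hω
      have hω' : R < enr n I J B K A (fun m => sg m * X (c, m) ω) := hω
      exact hω'.le
    rw [le_div_iff₀ hR, mul_comm]
    exact h5
  have hD0 : 0 ≤ D / R := measureReal_nonneg.trans (hbd 0)
  rw [hU, measureReal_def, hmono.measure_iUnion]
  refine ENNReal.toReal_le_of_le_ofReal hD0 (iSup_le fun K => ?_)
  rw [← ENNReal.ofReal_toReal (measure_ne_top P (s K))]
  exact ENNReal.ofReal_le_ofReal (hbd K)

end

lemma pr_nonneg (n I J : ℕ) (m : ℕ × ℕ) : 0 ≤ pr n I J m := by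
  unfold pr
  positivity

lemma ell_ge {n r : ℕ} (h : r * r ≤ n) : r ≤ ell n := by
  unfold ell
  exact Nat.le_sqrt.2 h

/-- **PR** -/
theorem pr_all.{u} (ha : S_ABS) (he : S_ENCO) : S_PR.{u} := by
  intro Ω _ P _ X ν _ h B hB
  refine ⟨⌈4 * B⌉₊ * ⌈4 * B⌉₊ + 1, fun n hn I J hc G N c => ?_⟩
  have h1 : 4 * B ≤ ell n := (Nat.le_ceil _).trans (by exact_mod_cast ell_ge (by omega))
  have hIJ : I + J ≤ n := by have := hc.hK; omega
  have h2 := ha n I J (by omega) hIJ (4 * B) (by positivity) h1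
  have hsub : rst n I J G N ⊆ tri n :=
    Finset.sdiff_subset.trans (Finset.filter_subset _ _)
  have hD : ∑ m ∈ rst n I J G N, pr n I J m * Real.exp (4 * B * ab n I J m) ≤ CB B := by
    refine (Finset.sum_le_sum_of_subset_of_nonneg hsub fun m _ _ =>
      mul_nonneg (pr_nonneg n I J m) (Real.exp_pos _).le).trans (h2.trans (le_of_eq ?_))
    unfold CB
    congr 2
    ring
  have hC : 0 < CB B := by unfold CB; positivity
  have h3 := markov_all he h n I J hB (rst n I J G N) c (R := 2 * CB B) (by positivity) hD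
  have h4 := probReal_compl_eq_one_sub (μ := P) (measurableSet_ev h.meas
    (measurableSet_all n I J B (rst n I J G N) c (2 * CB B)))
  have h5 : CB B / (2 * CB B) = 1 / 2 := by field_simp
  change 1 / 2 ≤ P.real (ev X {ξ | ∀ K : ℕ, enr n I J B K (rst n I J G N)
    (fun m => sg m * ξ (c, m)) ≤ 2 * CB B})
  linarith

/-- **PO** -/
theorem po_all.{u} (ht : S_TAIL) (he : S_ENCO) : S_PO.{u} := by
  intro Ω _ P _ X ν _ h B hB
  refine ⟨⌈4 * B + 1⌉₊ * ⌈4 * B + 1⌉₊ + 1, fun n hn I J hc c => ?_⟩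
  have h1 : 4 * B + 1 ≤ ell n := (Nat.le_ceil _).trans (by exact_mod_cast ell_ge (by omega))
  have hIJ : I + J ≤ n := by have := hc.hK; omega
  have h2 := ht n I J (by omega) hIJ (4 * B) (by positivity) h1
  have h3 := markov_all he h n I J hB (otw n I J) c (R := 1) one_pos h2
  rw [div_one] at h3
  exact h3

/-- **OUT** -/
theorem out_all.{u} (ho : S_PO.{u}) : S_OUT.{u} := by
  classical
  intro Ω _ P _ X ν _ h B hB
  obtain ⟨n₀, hn₀⟩ := ho P X ν h B hB
  set C : ℝ := 4 * Real.exp (8 * (4 * B + 1) ^ 2) with hC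
  have hC0 : 0 < C := by positivity
  set F : ℕ → Finset ((ℕ × ℕ) × Fin 2) := fun n =>
    ((Finset.range (n + 1) ×ˢ Finset.range (n + 1)) ×ˢ Finset.univ).filter
      fun t => n₀ + 1 ≤ n ∧ Cen n t.1.1 t.1.2 with hF
  set s : ℕ → Set Ω := fun n => ⋃ t ∈ F n, (ev X (EvO n t.1.1 t.1.2 B t.2))ᶜ with hs
  have hbound : ∀ n, P (s n) ≤ ENNReal.ofReal (8 * C * (1 / (n:ℝ) ^ 2)) := by
    intro n
    by_cases hn : n₀ + 1 ≤ n
    · have hn1 : (1:ℝ) ≤ n := by
        have : 1 ≤ n := by omega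
        exact_mod_cast this
      have h1 : P (s n) ≤ ∑ t ∈ F n, P (ev X (EvO n t.1.1 t.1.2 B t.2))ᶜ :=
        measure_biUnion_finset_le _ _
      have h2 : ∀ t ∈ F n, P (ev X (EvO n t.1.1 t.1.2 B t.2))ᶜ ≤
          ENNReal.ofReal (C / (n:ℝ) ^ 12) := by
        intro t ht
        have hc : Cen n t.1.1 t.1.2 := (Finset.mem_filter.1 ht).2.2
        have h3 := hn₀ n (by omega) t.1.1 t.1.2 hc t.2
        rw [← ENNReal.ofReal_toReal (measure_ne_top P _)]
        exact ENNReal.ofReal_le_ofReal h3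
      have h3 : (F n).card ≤ (n + 1) * (n + 1) * 2 := by
        refine (Finset.card_filter_le _ _).trans (le_of_eq ?_)
        simp [Finset.card_product]
      have h4 : ∑ t ∈ F n, P (ev X (EvO n t.1.1 t.1.2 B t.2))ᶜ ≤
          ((n + 1) * (n + 1) * 2 : ℕ) * ENNReal.ofReal (C / (n:ℝ) ^ 12) := by
        refine (Finset.sum_le_card_nsmul _ _ _ h2).trans ?_
        rw [nsmul_eq_mul]
        gcongr
      refine h1.trans (h4.trans ?_)
      rw [← ENNReal.ofReal_natCast, ← ENNReal.ofReal_mul (by positivity)]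
      refine ENNReal.ofReal_le_ofReal ?_
      push_cast
      have h5 : ((n:ℝ) + 1) * (n + 1) * 2 ≤ 8 * (n:ℝ) ^ 2 := by nlinarith
      have h6 : (n:ℝ) ^ 2 * (C / (n:ℝ) ^ 12) ≤ C * (1 / (n:ℝ) ^ 2) := by
        have h7 : (n:ℝ) ^ 2 * (C / (n:ℝ) ^ 12) = C * (1 / (n:ℝ) ^ 10) := by
          field_simp
        rw [h7]
        have h8 : (n:ℝ) ^ 2 ≤ (n:ℝ) ^ 10 := pow_le_pow_right₀ hn1 (by norm_num)
        gcongr
      calc ((n:ℝ) + 1) * (n + 1) * 2 * (C / (n:ℝ) ^ 12)
          ≤ 8 * (n:ℝ) ^ 2 * (C / (n:ℝ) ^ 12) := by gcongr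
        _ = 8 * ((n:ℝ) ^ 2 * (C / (n:ℝ) ^ 12)) := by ring
        _ ≤ 8 * (C * (1 / (n:ℝ) ^ 2)) := by gcongr
        _ = _ := by ring
    · have : F n = ∅ := by
        rw [hF]
        refine Finset.filter_false_of_mem fun t _ ht => hn ht.1
      simp only [hs, this]
      simp
  have hsum : ∑' n, P (s n) ≠ ⊤ := by
    have h1 : Summable fun n : ℕ => 8 * C * (1 / (n:ℝ) ^ 2) :=
      (Real.summable_one_div_nat_pow.2 (by norm_num)).mul_left _
    refine ne_top_of_le_ne_top ?_ (ENNReal.tsum_le_tsum hbound)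
    rw [← ENNReal.ofReal_tsum_of_nonneg (fun n => by positivity) h1]
    exact ENNReal.ofReal_ne_top
  filter_upwards [ae_eventually_notMem hsum] with ω hω
  filter_upwards [hω, eventually_ge_atTop (n₀ + 1)] with n hn hn' I J hc c
  by_contra hcon
  refine hn ?_
  simp only [hs, mem_iUnion]
  refine ⟨((I, J), c), ?_, hcon⟩
  rw [hF]
  have := hc.hK
  simp only [Finset.mem_filter, Finset.mem_product, Finset.mem_range, Finset.mem_univ, and_true]
  exact ⟨⟨by omega, by omega⟩, hn', hc⟩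

end Pool.Agent.Y265.KSPro
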