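import Mathlib

set_option autoImplicit false

open NormedSpace Filter Topology

namespace Pool.Agent.Y265.Markov

lemma hasSum_congr' {E : Type*} [AddCommMonoid E] [TopologicalSpace E] {f g : ℕ → E} {a b : E}
    (h : HasSum f a) (hf : ∀ k, g k = f k) (hab : b = a) : HasSum g b := by
  rw [hab, funext hf]; exact h

lemma hs0 (N : ℝ) : HasSum (fun k : ℕ => N ^ k / (k.factorial : ℝ)) (Real.exp N) := by
  have := NormedSpace.expSeries_div_hasSum_exp (𝔸 := ℝ) N
  rwa [← Real.exp_eq_exp_ℝ] at this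

lemma hs1 (N : ℝ) : HasSum (fun k : ℕ => (k : ℝ) * (N ^ k / (k.factorial : ℝ)))
    (N * Real.exp N) := by
  rw [← hasSum_nat_add_iff' 1]
  simp only [Finset.range_one, Finset.sum_singleton, Nat.cast_zero, zero_mul, sub_zero]
  refine hasSum_congr' ((hs0 N).mul_left N) (fun k => ?_) rfl
  have h2 : ((k : ℝ) + 1) ≠ 0 := by positivity
  have h3 : (k.factorial : ℝ) ≠ 0 := by positivity
  rw [Nat.factorial_succ, pow_succ]
  push_cast
  field_simp

lemma hs2 (N : ℝ) : HasSum (fun k : ℕ => (k : ℝ) ^ 2 * (N ^ k / (k.factorial : ℝ)))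
    ((N ^ 2 + N) * Real.exp N) := by
  rw [← hasSum_nat_add_iff' 1]
  simp only [Finset.range_one, Finset.sum_singleton, Nat.cast_zero, ne_eq, OfNat.ofNat_ne_zero,
    not_false_eq_true, zero_pow, zero_mul, sub_zero]
  refine hasSum_congr' (((hs1 N).mul_left N).add ((hs0 N).mul_left N)) (fun k => ?_) (by ring)
  have h2 : ((k : ℝ) + 1) ≠ 0 := by positivity
  have h3 : (k.factorial : ℝ) ≠ 0 := by positivity
  rw [Nat.factorial_succ]
  push_cast
  field_simp
  ring

/-- the first absolute central moment of the Poisson law -/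
lemma hsb (N : ℝ) (hN : 0 < N) :
    HasSum (fun k : ℕ => (((k : ℝ) - N) ^ 2 / (2 * √N) + √N / 2) * (N ^ k / (k.factorial : ℝ)))
    (√N * Real.exp N) := by
  have hs : 0 < √N := Real.sqrt_pos.2 hN
  have hsq : √N ^ 2 = N := Real.sq_sqrt hN.le
  refine hasSum_congr' ((((hs2 N).add (((hs1 N).mul_left (-2 * N)).add
    ((hs0 N).mul_left (N ^ 2)))).mul_left (1 / (2 * √N))).add ((hs0 N).mul_left (√N / 2)))
    (fun k => ?_) ?_
  · ring
  · have : (N ^ 2 + N) * Real.exp N + (-2 * N * (N * Real.exp N) + N ^ 2 * Real.exp N)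
        = N * Real.exp N := by ring
    rw [this]
    have h3 : N / (2 * √N) = √N / 2 := by
      rw [div_eq_div_iff (by positivity) (by norm_num)]
      linear_combination 2 * (-hsq)
    have h4 : 1 / (2 * √N) * (N * Real.exp N) = N / (2 * √N) * Real.exp N := by ring
    rw [h4, h3]
    ring

lemma abs_le_bound (N x : ℝ) (hN : 0 < N) : |x| ≤ x ^ 2 / (2 * √N) + √N / 2 := by
  have hs : 0 < √N := Real.sqrt_pos.2 hN
  have h2 : |x| ^ 2 = x ^ 2 := sq_abs x
  have e : x ^ 2 / (2 * √N) + √N / 2 - |x| = (|x| - √N) ^ 2 / (2 * √N) := by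
    rw [← h2]
    field_simp
    ring
  have : 0 ≤ (|x| - √N) ^ 2 / (2 * √N) := by positivity
  linarith

/-- For a power contraction `p`: `‖N(p - 1) exp(N(p - 1))‖ ≤ √N`. -/
theorem key {𝔸 : Type*} [NormedRing 𝔸] [NormedAlgebra ℝ 𝔸] [CompleteSpace 𝔸] (p : 𝔸)
    (hp : ∀ k, ‖p ^ k‖ ≤ 1) (N : ℝ) (hN : 0 < N) :
    ‖(N • (p - 1)) * exp (N • (p - 1))‖ ≤ √N := by
  let _ : NormedAlgebra ℚ 𝔸 := NormedAlgebra.restrictScalars ℚ ℝ 𝔸
  have e1 : exp (N • (p - 1)) = Real.exp (-N) • exp (N • p) := by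
    have h1 : N • (p - 1) = N • p + algebraMap ℝ 𝔸 (-N) := by
      rw [smul_sub, Algebra.algebraMap_eq_smul_one, neg_smul, sub_eq_add_neg]
    rw [h1, exp_add_of_commute ((Algebra.commutes (-N) (N • p)).symm),
      ← algebraMap_exp_comm (𝕂 := ℝ) (-N), ← Real.exp_eq_exp_ℝ, ← Algebra.commutes,
      ← Algebra.smul_def]
  set E := exp (N • p) with hE
  have hS0 : HasSum (fun k : ℕ => (N ^ k / (k.factorial : ℝ)) • p ^ k) E := by
    refine hasSum_congr' (NormedSpace.exp_series_hasSum_exp' (𝕂 := ℝ) (N • p)) (fun k => ?_) rfl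
    rw [smul_pow, smul_smul, div_eq_inv_mul]
  have hS1 : HasSum (fun k : ℕ => ((k : ℝ) * (N ^ k / (k.factorial : ℝ))) • p ^ k)
      ((N • p) * E) := by
    rw [← hasSum_nat_add_iff' 1]
    simp only [Finset.range_one, Finset.sum_singleton, Nat.cast_zero, zero_mul, zero_smul, sub_zero]
    refine hasSum_congr' (hS0.mul_left (N • p)) (fun k => ?_) rfl
    have h2 : ((k : ℝ) + 1) ≠ 0 := by positivity
    have h3 : (k.factorial : ℝ) ≠ 0 := by positivity
    rw [Nat.factorial_succ, pow_succ' p, smul_mul_smul_comm, pow_succ N]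
    congr 1
    push_cast
    field_simp
  have hS : HasSum (fun k : ℕ => (((k : ℝ) - N) * (N ^ k / (k.factorial : ℝ))) • p ^ k)
      ((N • (p - 1)) * E) := by
    refine hasSum_congr' (hS1.sub (hS0.const_smul N)) (fun k => ?_) ?_
    · rw [smul_smul, ← sub_smul]
      congr 1
      ring
    · rw [smul_sub, sub_mul]
      simp
  have hb : ‖(N • (p - 1)) * E‖ ≤ √N * Real.exp N := by
    refine hS.norm_le_of_bounded (hsb N hN) ?_
    intro k
    rw [norm_smul, Real.norm_eq_abs, abs_mul]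
    have h3 : 0 ≤ N ^ k / (k.factorial : ℝ) := by positivity
    rw [abs_of_nonneg h3]
    calc |(k : ℝ) - N| * (N ^ k / (k.factorial : ℝ)) * ‖p ^ k‖
        ≤ |(k : ℝ) - N| * (N ^ k / (k.factorial : ℝ)) * 1 := by
          gcongr
          exact hp k
      _ = |(k : ℝ) - N| * (N ^ k / (k.factorial : ℝ)) := mul_one _
      _ ≤ _ := by
          gcongr
          exact abs_le_bound N _ hN
  rw [e1, mul_smul_comm, norm_smul, Real.norm_eq_abs, abs_of_pos (Real.exp_pos _)]
  calc Real.exp (-N) * ‖(N • (p - 1)) * E‖ ≤ Real.exp (-N) * (√N * Real.exp N) := by gcongr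
    _ = √N * (Real.exp (-N) * Real.exp N) := by ring
    _ = √N := by rw [← Real.exp_add]; simp

/-- A bound for `‖N(p - 1)‖` in terms of the norm of the inverse of the exponential. -/
theorem bound {𝔸 : Type*} [NormedRing 𝔸] [NormedAlgebra ℝ 𝔸] [CompleteSpace 𝔸] (p : 𝔸)
    (hp : ∀ k, ‖p ^ k‖ ≤ 1) (N : ℝ) (hN : 0 < N) (M : ℝ) (hM : ‖exp (-(N • (p - 1)))‖ ≤ M) :
    ‖N • (p - 1)‖ ≤ M * √N := by
  let _ : NormedAlgebra ℚ 𝔸 := NormedAlgebra.restrictScalars ℚ ℝ 𝔸
  set A := N • (p - 1) with hA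
  have h1 : exp (-A) * (A * exp A) = A := by
    have hc : Commute A (exp A) := (Commute.refl A).exp_right
    rw [hc.eq, ← mul_assoc, ← exp_add_of_commute ((Commute.refl A).neg_left)]
    simp
  calc ‖A‖ = ‖exp (-A) * (A * exp A)‖ := by rw [h1]
    _ ≤ ‖exp (-A)‖ * ‖A * exp A‖ := norm_mul_le _ _
    _ ≤ M * √N := by
        have := key p hp N hN
        gcongr
        exact (norm_nonneg _).trans hM

end Pool.Agent.Y265.Markov
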