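import Pool.Agent.H518R4.UG.BURG
import Pool.Agent.H518R4.UG.CEXP

set_option autoImplicit false
set_option linter.unusedSectionVars false

open Finset

namespace Pool.Agent.Y265.Onl

noncomputable section

/-- the disjoint union of the Margulis graphs -/
def X : Type := Σ n : ℕ, ZMod (n + 1) × ZMod (n + 1)

def gen (i : Fin 4) (p : X) : X := ⟨p.1,
  if i = 0 then (p.2.1 + 1, p.2.2) else if i = 1 then (p.2.1, p.2.2 + 1) else
  if i = 2 then (p.2.1, p.2.2 + p.2.1) else (p.2.1 + p.2.2, p.2.2)⟩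

def ginv (i : Fin 4) (p : X) : X := ⟨p.1,
  if i = 0 then (p.2.1 - 1, p.2.2) else if i = 1 then (p.2.1, p.2.2 - 1) else
  if i = 2 then (p.2.1, p.2.2 - p.2.1) else (p.2.1 - p.2.2, p.2.2)⟩

lemma ginv_gen (i : Fin 4) (p : X) : ginv i (gen i p) = p := by
  obtain ⟨n, x, y⟩ := p
  refine Sigma.ext rfl (heq_of_eq (Prod.ext ?_ ?_)) <;> fin_cases i <;> simp [ginv, gen]

lemma gen_ginv (i : Fin 4) (p : X) : gen i (ginv i p) = p := by
  obtain ⟨n, x, y⟩ := p
  refine Sigma.ext rfl (heq_of_eq (Prod.ext ?_ ?_)) <;> fin_cases i <;> simp [ginv, gen]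

def R (p q : X) : Prop := q = p ∨ ∃ i, q = gen i p ∨ q = ginv i p

lemma R_symm {p q : X} (h : R p q) : R q p := by
  rcases h with h | ⟨i, h | h⟩
  · exact Or.inl h.symm
  · exact Or.inr ⟨i, Or.inr (by rw [h, ginv_gen])⟩
  · exact Or.inr ⟨i, Or.inl (by rw [h, gen_ginv])⟩

lemma R_lev {p q : X} (h : R p q) : q.1 = p.1 := by
  rcases h with h | ⟨i, h | h⟩ <;> rw [h] <;> rfl

def reach : ℕ → X → X → Prop
  | 0, p, q => p = q
  | k + 1, p, q => ∃ z, reach k p z ∧ R z q

lemma reach_trans {k l : ℕ} {p q r : X} (h1 : reach k p q) (h2 : reach l q r) : reach (k + l) p r := by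
  induction l generalizing r with
  | zero => have : q = r := h2; rw [← this]; exact h1
  | succ l ih =>
    obtain ⟨z, hz1, hz2⟩ := h2
    exact ⟨z, ih hz1, hz2⟩

lemma reach_symm {k : ℕ} {p q : X} (h : reach k p q) : reach k q p := by
  induction k generalizing q with
  | zero => exact Eq.symm h
  | succ k ih =>
    obtain ⟨z, hz1, hz2⟩ := h
    have h1 : reach 1 q z := ⟨q, rfl, R_symm hz2⟩
    have := reach_trans h1 (ih hz1)
    rwa [add_comm] at this

lemma reach_lev {k : ℕ} {p q : X} (h : reach k p q) : q.1 = p.1 := by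
  induction k generalizing q with
  | zero => have : p = q := h; rw [this]
  | succ k ih =>
    obtain ⟨z, hz1, hz2⟩ := h
    rw [R_lev hz2, ih hz1]

def ds (p q : X) : Set ℕ := {k | reach k p q ∨ max p.1 q.1 + 1 ≤ k}

def dd (p q : X) : ℕ := sInf (ds p q)

lemma dd_mem (p q : X) : dd p q ∈ ds p q := Nat.sInf_mem ⟨max p.1 q.1 + 1, Or.inr le_rfl⟩

lemma dd_le {p q : X} {k : ℕ} (h : k ∈ ds p q) : dd p q ≤ k := Nat.sInf_le h

lemma dd_self (p : X) : dd p p = 0 := Nat.le_zero.mp (dd_le (Or.inl rfl))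

lemma dd_comm (p q : X) : dd p q = dd q p := by
  have : ds p q = ds q p := by
    ext k
    unfold ds
    simp only [Set.mem_ofPred_eq]
    rw [max_comm]
    constructor
    · rintro (h | h)
      · exact Or.inl (reach_symm h)
      · exact Or.inr h
    · rintro (h | h)
      · exact Or.inl (reach_symm h)
      · exact Or.inr h
  unfold dd; rw [this]

lemma dd_tri (p q r : X) : dd p r ≤ dd p q + dd q r := by
  apply dd_le
  rcases dd_mem p q with h1 | h1
  · rcases dd_mem q r with h2 | h2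
    · exact Or.inl (reach_trans h1 h2)
    · right
      have := reach_lev h1
      rw [← this]; omega
  · rcases dd_mem q r with h2 | h2
    · right
      have := reach_lev h2
      rw [this]; omega
    · right
      have h3 : max p.1 r.1 ≤ max (max p.1 q.1) (max q.1 r.1) := by omega
      omega

lemma dd_zero {p q : X} (h : dd p q = 0) : p = q := by
  rcases dd_mem p q with h1 | h1
  · rw [h] at h1; exact h1
  · omega

instance : MetricSpace X where
  dist p q := (dd p q : ℝ)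
  dist_self p := by rw [dd_self]; simp
  dist_comm p q := by rw [dd_comm]
  dist_triangle p q r := by exact_mod_cast dd_tri p q r
  eq_of_dist_eq_zero h := dd_zero (by exact_mod_cast h)

lemma dist_eq (p q : X) : dist p q = (dd p q : ℝ) := rfl

open Classical in
def nb (p : X) : Finset X := insert p (univ.image (fun i => gen i p) ∪ univ.image (fun i => ginv i p))

lemma nb_mem {p q : X} (h : R p q) : q ∈ nb p := by
  classical
  unfold nb
  rcases h with h | ⟨i, h | h⟩
  · rw [h]; exact mem_insert_self _ _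
  · refine mem_insert_of_mem (mem_union_left _ ?_)
    exact mem_image.mpr ⟨i, mem_univ _, h.symm⟩
  · refine mem_insert_of_mem (mem_union_right _ ?_)
    exact mem_image.mpr ⟨i, mem_univ _, h.symm⟩

lemma nb_card (p : X) : (nb p).card ≤ 9 := by
  classical
  unfold nb
  refine (card_insert_le _ _).trans ?_
  have h1 := card_union_le (univ.image (fun i => gen i p)) (univ.image (fun i => ginv i p))
  have h2 : (univ.image (fun i => gen i p)).card ≤ 4 := card_image_le.trans (by simp)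
  have h3 : (univ.image (fun i => ginv i p)).card ≤ 4 := card_image_le.trans (by simp)
  omega

open Classical in
def rF : ℕ → X → Finset X
  | 0, p => {p}
  | k + 1, p => (rF k p).biUnion nb

lemma rF_mem {k : ℕ} {p q : X} (h : reach k p q) : q ∈ rF k p := by
  classical
  induction k generalizing q with
  | zero => have : p = q := h; rw [← this]; exact mem_singleton_self p
  | succ k ih =>
    obtain ⟨z, hz1, hz2⟩ := h
    exact mem_biUnion.mpr ⟨z, ih hz1, nb_mem hz2⟩

lemma rF_card (k : ℕ) (p : X) : (rF k p).card ≤ 9 ^ k := by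
  classical
  induction k with
  | zero => exact (card_singleton p).le
  | succ k ih =>
    show ((rF k p).biUnion nb).card ≤ _
    refine (card_biUnion_le_card_mul _ _ 9 fun z _ => nb_card z).trans ?_
    rw [pow_succ]
    exact Nat.mul_le_mul_right _ ih

lemma lev_finite (K : ℕ) : {q : X | q.1 ≤ K}.Finite := by
  refine Set.Finite.subset (Finset.finite_toSet
    ((range (K + 1)).sigma (fun n => (univ : Finset (ZMod (n + 1) × ZMod (n + 1)))))) ?_
  intro q hq
  rw [mem_coe]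
  have h : q.1 ≤ K := hq
  exact Finset.mem_sigma.mpr ⟨mem_range.mpr (by omega), mem_univ _⟩

/-- bounded geometry -/
lemma bg (r : ℝ) (_ : 0 < r) : ∃ N : ℕ, ∀ x : X,
    (Metric.ball x r).Finite ∧ (Metric.ball x r).ncard ≤ N := by
  classical
  set K := ⌈r⌉₊ with hK
  set L := (lev_finite K).toFinset with hL
  refine ⟨(range (K + 1)).card * 9 ^ K + L.card, fun x => ?_⟩
  have hsub : Metric.ball x r ⊆ (((range (K + 1)).biUnion (fun k => rF k x) ∪ L : Finset X) : Set X) := by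
    intro q hq
    rw [Metric.mem_ball, dist_comm, dist_eq] at hq
    have h1 : dd x q ≤ K := by
      have := hq.le.trans (Nat.le_ceil r)
      exact_mod_cast this
    rw [coe_union, Set.mem_union]
    rcases dd_mem x q with h | h
    · left
      rw [mem_coe, mem_biUnion]
      exact ⟨dd x q, mem_range.mpr (by omega), rF_mem h⟩
    · right
      rw [mem_coe, hL, Set.Finite.mem_toFinset]
      show q.1 ≤ K
      omega
  refine ⟨(Finset.finite_toSet _).subset hsub, ?_⟩
  refine (Set.ncard_le_ncard hsub (Finset.finite_toSet _)).trans ?_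
  rw [Set.ncard_coe_finset]
  refine (card_union_le _ _).trans ?_
  refine Nat.add_le_add_right ?_ _
  refine card_biUnion_le_card_mul _ _ _ fun k hk => ?_
  exact (rF_card k x).trans (Nat.pow_le_pow_right (by norm_num) (by have := mem_range.mp hk; omega))

open scoped InnerProductSpace

lemma avg {V E : Type*} [Fintype V] [Nonempty V] [NormedAddCommGroup E] [InnerProductSpace ℂ E]
    (u : V → E) (hu : ∀ v, ‖u v‖ = 1) :
    ∑ v, ‖u v - ((Fintype.card V : ℂ))⁻¹ • ∑ w, u w‖ ^ 2 =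
      Fintype.card V - (Fintype.card V : ℝ)⁻¹ * ‖∑ w, u w‖ ^ 2 := by
  set N : ℝ := (Fintype.card V : ℝ) with hN
  have hNpos : 0 < N := by rw [hN]; exact_mod_cast Fintype.card_pos
  set s := ∑ w, u w with hs
  have h1 : ∀ v, ‖u v - ((Fintype.card V : ℂ))⁻¹ • s‖ ^ 2 =
      1 - 2 * (N⁻¹ * Complex.re ⟪u v, s⟫_ℂ) + (N⁻¹) ^ 2 * ‖s‖ ^ 2 := by
    intro v
    rw [@norm_sub_sq ℂ, hu, inner_smul_right, norm_smul, mul_pow]
    have e1 : ((Fintype.card V : ℂ))⁻¹ = ((N⁻¹ : ℝ) : ℂ) := by rw [hN]; push_cast; rfl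
    rw [e1, Complex.norm_real, Real.norm_eq_abs, abs_of_pos (by positivity)]
    show (1 : ℝ) ^ 2 - 2 * (((N⁻¹ : ℝ) : ℂ) * ⟪u v, s⟫_ℂ).re + _ = _
    rw [Complex.re_ofReal_mul]; ring
  simp only [h1]
  rw [sum_add_distrib, sum_sub_distrib, ← mul_sum, ← mul_sum]
  have h2 : ∑ v, Complex.re ⟪u v, s⟫_ℂ = ‖s‖ ^ 2 := by
    rw [← Complex.re_sum, ← sum_inner, ← hs, inner_self_eq_norm_sq_to_K]
    norm_cast
  rw [h2]
  simp only [sum_const, card_univ, nsmul_eq_mul, mul_one]
  rw [← hN]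
  field_simp
  ring

section abs

variable {β W : Type} [DecidableEq β] (a : W → Finset β) (B : Finset β)

def cc (v : W) : ℝ := (Real.sqrt (a v).card)⁻¹

def uu (v : W) : EuclideanSpace ℂ B := WithLp.toLp 2
    (fun b => if (b : β) ∈ a v then ((cc a v : ℝ) : ℂ) else 0)

lemma uu_inner (haB : ∀ v, a v ⊆ B) (v w : W) :
    Complex.re ⟪uu a B v, uu a B w⟫_ℂ = (a v ∩ a w).card * (cc a v * cc a w) := by
  rw [PiLp.inner_apply]
  have h1 : ∀ b : B, ⟪(uu a B v) b, (uu a B w) b⟫_ℂ =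
      (if (b : β) ∈ a v ∩ a w then ((cc a v * cc a w : ℝ) : ℂ) else 0) := by
    intro b
    show ⟪(if (b : β) ∈ a v then ((cc a v : ℝ) : ℂ) else 0),
      (if (b : β) ∈ a w then ((cc a w : ℝ) : ℂ) else 0)⟫_ℂ = _
    rw [RCLike.inner_apply]
    by_cases h1 : (b : β) ∈ a v
    · by_cases h2 : (b : β) ∈ a w
      · rw [if_pos h1, if_pos h2, if_pos (mem_inter.mpr ⟨h1, h2⟩), Complex.ofReal_mul,
          Complex.conj_ofReal, mul_comm]
      · rw [if_neg h2, if_neg (fun h => h2 (mem_inter.mp h).2), zero_mul]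
    · rw [if_neg h1, if_neg (fun h => h1 (mem_inter.mp h).1), map_zero, mul_zero]
  rw [sum_congr rfl fun b _ => h1 b]
  rw [sum_coe_sort B (fun b => if b ∈ a v ∩ a w then ((cc a v * cc a w : ℝ) : ℂ) else 0),
    ← sum_filter]
  have h2 : B.filter (fun b => b ∈ a v ∩ a w) = a v ∩ a w := by
    ext b
    rw [mem_filter]
    exact ⟨fun h => h.2, fun h => ⟨haB v (mem_inter.mp h).1, h⟩⟩
  rw [h2, sum_const, nsmul_eq_mul]
  rw [← Complex.ofReal_natCast, ← Complex.ofReal_mul, Complex.ofReal_re]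

variable (hne : ∀ v, (a v).Nonempty)
include hne

lemma cc_sq (v : W) : cc a v * cc a v * (a v).card = 1 := by
  have h1 : (0 : ℝ) < (a v).card := by exact_mod_cast card_pos.mpr (hne v)
  have h2 : Real.sqrt (a v).card * Real.sqrt (a v).card = (a v).card := Real.mul_self_sqrt h1.le
  have h3 : Real.sqrt (a v).card ≠ 0 := (Real.sqrt_pos.mpr h1).ne'
  unfold cc
  nth_rewrite 3 [← h2]
  field_simp

lemma cc_pos (v : W) : 0 < cc a v :=
  inv_pos.mpr (Real.sqrt_pos.mpr (by exact_mod_cast card_pos.mpr (hne v)))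

lemma uu_norm (haB : ∀ v, a v ⊆ B) (v : W) : ‖uu a B v‖ = 1 := by
  have h1 := uu_inner a B haB v v
  rw [inter_self, inner_self_eq_norm_sq_to_K] at h1
  have h2 : ‖uu a B v‖ ^ 2 = 1 := by
    have h3 : ‖uu a B v‖ ^ 2 = (a v).card * (cc a v * cc a v) := by exact_mod_cast h1
    rw [h3, mul_comm]; exact cc_sq a hne v
  exact (pow_eq_one_iff_of_nonneg (norm_nonneg _) two_ne_zero).mp h2

lemma uu_adj (haB : ∀ v, a v ⊆ B) (v w : W)
    (h1 : ((symmDiff (a v) (a w)).card : ℝ) < 1 / 6400 * ((a v ∩ a w).card : ℝ)) :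
    ‖uu a B w - uu a B v‖ ^ 2 ≤ 1 / 3200 := by
  set I : ℝ := ((a v ∩ a w).card : ℝ) with hI
  have h2 : ((a v).card : ℝ) ≤ (1 + 1 / 6400) * I := by
    have h3 : (a v).card ≤ (a v ∩ a w).card + (symmDiff (a v) (a w)).card := by
      rw [← card_inter_add_card_sdiff (a v) (a w)]
      refine Nat.add_le_add_left (card_le_card ?_) _
      intro b hb
      rw [mem_sdiff] at hb
      exact mem_symmDiff.mpr (Or.inl hb)
    have h4 : ((a v).card : ℝ) ≤ I + ((symmDiff (a v) (a w)).card : ℝ) := by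
      rw [hI]; exact_mod_cast h3
    linarith
  have h2' : ((a w).card : ℝ) ≤ (1 + 1 / 6400) * I := by
    have h3 : (a w).card ≤ (a v ∩ a w).card + (symmDiff (a v) (a w)).card := by
      rw [← card_inter_add_card_sdiff (a w) (a v), inter_comm]
      refine Nat.add_le_add_left (card_le_card ?_) _
      intro b hb
      rw [mem_sdiff] at hb
      exact mem_symmDiff.mpr (Or.inr hb)
    have h4 : ((a w).card : ℝ) ≤ I + ((symmDiff (a v) (a w)).card : ℝ) := by
      rw [hI]; exact_mod_cast h3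
    linarith
  have hIpos : 0 < I := by
    have h5 : (0 : ℝ) < (a v).card := by exact_mod_cast card_pos.mpr (hne v)
    nlinarith
  have h3 : ‖uu a B w - uu a B v‖ ^ 2 = 2 - 2 * (I * (cc a w * cc a v)) := by
    rw [@norm_sub_sq ℂ, uu_norm a B hne haB, uu_norm a B hne haB]
    show (1 : ℝ) ^ 2 - 2 * Complex.re ⟪uu a B w, uu a B v⟫_ℂ + 1 ^ 2 = _
    rw [uu_inner a B haB w v, inter_comm, ← hI]; ring
  have hpv := cc_pos a hne v
  have hpw := cc_pos a hne w
  have h4 : 1 ≤ (1 + 1 / 6400) * (I * (cc a w * cc a v)) := by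
    have hcv := cc_sq a hne v
    have hcw := cc_sq a hne w
    have g1 : 1 ≤ (1 + 1 / 6400) * I * (cc a v * cc a v) := by
      calc (1 : ℝ) = (a v).card * (cc a v * cc a v) := by rw [mul_comm]; exact hcv.symm
        _ ≤ _ := mul_le_mul_of_nonneg_right h2 (by positivity)
    have g2 : 1 ≤ (1 + 1 / 6400) * I * (cc a w * cc a w) := by
      calc (1 : ℝ) = (a w).card * (cc a w * cc a w) := by rw [mul_comm]; exact hcw.symm
        _ ≤ _ := mul_le_mul_of_nonneg_right h2' (by positivity)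
    have g3 : 1 ≤ ((1 + 1 / 6400) * (I * (cc a w * cc a v))) ^ 2 := by
      calc (1 : ℝ) = 1 * 1 := by ring
        _ ≤ ((1 + 1 / 6400) * I * (cc a v * cc a v)) * ((1 + 1 / 6400) * I * (cc a w * cc a w)) :=
          mul_le_mul g1 g2 zero_le_one (by positivity)
        _ = _ := by ring
    exact (one_le_sq_iff₀ (by positivity)).mp g3
  rw [h3]
  have h5 : 1 - 1 / 6400 ≤ I * (cc a w * cc a v) := by nlinarith
  linarith

lemma uu_sum [Fintype W] (haB : ∀ v, a v ⊆ B) (M : ℕ)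
    (hfar : ∀ v, (univ.filter fun w => (a v ∩ a w).Nonempty).card ≤ M) :
    ‖∑ w, uu a B w‖ ^ 2 ≤ (Fintype.card W : ℝ) * M := by
  have h1 : ‖∑ w, uu a B w‖ ^ 2 = ∑ v, ∑ w, Complex.re ⟪uu a B v, uu a B w⟫_ℂ := by
    have h2 := @inner_self_eq_norm_sq ℂ _ _ _ _ (∑ w, uu a B w)
    rw [← h2, sum_inner]
    show (∑ v, ⟪uu a B v, ∑ w, uu a B w⟫_ℂ).re = _
    rw [Complex.re_sum]
    refine sum_congr rfl fun v _ => ?_
    rw [inner_sum, Complex.re_sum]
  rw [h1]
  have h4 : ∀ v, ∑ w, Complex.re ⟪uu a B v, uu a B w⟫_ℂ ≤ M := by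
    intro v
    have h5 : ∀ w, Complex.re ⟪uu a B v, uu a B w⟫_ℂ ≤ if (a v ∩ a w).Nonempty then 1 else 0 := by
      intro w
      split_ifs with h6
      · refine (Complex.re_le_norm _).trans ((norm_inner_le_norm _ _).trans ?_)
        rw [uu_norm a B hne haB, uu_norm a B hne haB, mul_one]
      · rw [uu_inner a B haB, not_nonempty_iff_eq_empty.mp h6]; simp
    refine (sum_le_sum fun w _ => h5 w).trans ?_
    rw [← sum_filter, sum_const, nsmul_eq_mul, mul_one]
    exact_mod_cast hfar v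
  refine (sum_le_sum fun v _ => h4 v).trans ?_
  rw [sum_const, card_univ, nsmul_eq_mul]

end abs

lemma abs_bound (m : ℕ) [NeZero m] {β : Type} [DecidableEq β] (a : ZMod m × ZMod m → Finset β)
    (hne : ∀ v, (a v).Nonempty)
    (h0 : ∀ v, ((symmDiff (a v) (a (v.1 + 1, v.2))).card : ℝ) < 1 / 6400 * ((a v ∩ a (v.1 + 1, v.2)).card : ℝ))
    (h1 : ∀ v, ((symmDiff (a v) (a (v.1, v.2 + 1))).card : ℝ) < 1 / 6400 * ((a v ∩ a (v.1, v.2 + 1)).card : ℝ))
    (h2 : ∀ v, ((symmDiff (a v) (a (v.1, v.2 + v.1))).card : ℝ) < 1 / 6400 * ((a v ∩ a (v.1, v.2 + v.1)).card : ℝ))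
    (h3 : ∀ v, ((symmDiff (a v) (a (v.1 + v.2, v.2))).card : ℝ) < 1 / 6400 * ((a v ∩ a (v.1 + v.2, v.2)).card : ℝ))
    (M : ℕ) (hfar : ∀ v, (univ.filter fun w => (a v ∩ a w).Nonempty).card ≤ M) :
    (m : ℝ) ^ 2 / 2 ≤ M := by
  set B : Finset β := univ.biUnion a with hB
  have haB : ∀ v, a v ⊆ B := fun v b hb => mem_biUnion.mpr ⟨v, mem_univ _, hb⟩
  set u := uu a B with hu
  have hnorm : ∀ v, ‖u v‖ = 1 := uu_norm a B hne haB
  set N : ℝ := (Fintype.card (ZMod m × ZMod m) : ℝ) with hN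
  have hNval : N = (m : ℝ) ^ 2 := by
    rw [hN, Fintype.card_prod, ZMod.card]; push_cast; ring
  have hNpos : 0 < N := by
    rw [hNval]; have : (m : ℝ) ≠ 0 := by exact_mod_cast NeZero.ne m
    positivity
  have hsum := uu_sum a B hne haB M hfar
  rw [← hu, ← hN] at hsum
  set c := ((Fintype.card (ZMod m × ZMod m) : ℂ))⁻¹ • ∑ w, u w with hc
  have hP := Pool.Agent.H518R4.UG.p_CEXP Pool.Agent.H518R4.UG.p_BURG (EuclideanSpace ℂ B) m
    (fun v => u v - c) (by
      rw [sum_sub_distrib, sum_const, card_univ, hc, ← Nat.cast_smul_eq_nsmul ℂ, smul_smul,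
        mul_inv_cancel₀, one_smul, sub_self]
      exact_mod_cast Fintype.card_ne_zero)
  have hAvg := avg u hnorm
  rw [← hc, ← hN] at hAvg
  have hE : ∀ σ : ZMod m × ZMod m → ZMod m × ZMod m,
      (∀ v, ((symmDiff (a v) (a (σ v))).card : ℝ) < 1 / 6400 * ((a v ∩ a (σ v)).card : ℝ)) →
      ∑ v, ‖(u (σ v) - c) - (u v - c)‖ ^ 2 ≤ N * (1 / 3200) := by
    intro σ hσ
    refine (sum_le_sum (g := fun _ => (1 / 3200 : ℝ)) fun v _ => ?_).trans ?_
    · rw [sub_sub_sub_cancel_right]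
      exact uu_adj a B hne haB v (σ v) (hσ v)
    · rw [sum_const, card_univ, nsmul_eq_mul]
  have hE0 := hE (fun v => (v.1 + 1, v.2)) h0
  have hE1 := hE (fun v => (v.1, v.2 + 1)) h1
  have hE2 := hE (fun v => (v.1, v.2 + v.1)) h2
  have hE3 := hE (fun v => (v.1 + v.2, v.2)) h3
  rw [hAvg] at hP
  have hfinal : N - N⁻¹ * ‖∑ w, u w‖ ^ 2 ≤ 400 * (N * (1 / 3200) + N * (1 / 3200) + N * (1 / 3200) + N * (1 / 3200)) := by
    refine hP.trans ?_
    gcongr
  have h9 : N⁻¹ * ‖∑ w, u w‖ ^ 2 ≤ M := by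
    calc N⁻¹ * ‖∑ w, u w‖ ^ 2 ≤ N⁻¹ * (N * M) := by gcongr
      _ = M := by field_simp
  rw [← hNval]
  linarith

def mk (n : ℕ) (v : ZMod (n + 1) × ZMod (n + 1)) : X := ⟨n, v⟩

/-- the space has no property A -/
lemma notA : ¬ (∀ R : ℝ, 0 < R → ∀ ε : ℝ, 0 < ε →
        ∃ S : ℝ, ∃ A : X → Set (X × ℕ),
          (∀ x, (A x).Finite) ∧ (∀ x, (x, 0) ∈ A x) ∧
          (∀ x, ∀ w ∈ A x, dist w.1 x ≤ S) ∧
          ∀ x y, dist x y < R →
            ((symmDiff (A x) (A y)).ncard : ℝ) < ε * ((A x ∩ A y).ncard : ℝ)) := by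
  classical
  intro h
  obtain ⟨S, A, hfin, h0, hS, hA⟩ := h 2 (by norm_num) (1 / 6400) (by norm_num)
  obtain ⟨M, hM⟩ := bg (2 * |S| + 1) (by positivity)
  obtain ⟨n, hn⟩ : ∃ n : ℕ, n = 2 * M + 2 := ⟨_, rfl⟩
  obtain ⟨a, ha⟩ : ∃ a : ZMod (n + 1) × ZMod (n + 1) → Finset (X × ℕ),
      ∀ v, a v = (hfin (mk n v)).toFinset := ⟨_, fun v => rfl⟩
  have ha' : ∀ v b, b ∈ a v ↔ b ∈ A (mk n v) := fun v b => by rw [ha]; exact Set.Finite.mem_toFinset _
  have hcoe : ∀ v, (a v : Set (X × ℕ)) = A (mk n v) := fun v => Set.ext fun b => ha' v b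
  have hadj : ∀ v w : ZMod (n + 1) × ZMod (n + 1), dist (mk n v) (mk n w) < 2 →
      ((symmDiff (a v) (a w)).card : ℝ) < 1 / 6400 * ((a v ∩ a w).card : ℝ) := by
    intro v w hvw
    have h1 := hA _ _ hvw
    have e1 : ((a v ∩ a w).card : ℝ) = ((A (mk n v) ∩ A (mk n w)).ncard : ℝ) := by
      rw [← Set.ncard_coe_finset, coe_inter, hcoe, hcoe]
    have e2 : ((symmDiff (a v) (a w)).card : ℝ) = ((symmDiff (A (mk n v)) (A (mk n w))).ncard : ℝ) := by
      rw [← Set.ncard_coe_finset, coe_symmDiff, hcoe, hcoe]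
    rw [e1, e2]
    exact h1
  have hstep : ∀ (i : Fin 4) (v w : ZMod (n + 1) × ZMod (n + 1)), (mk n w) = gen i (mk n v) →
      dist (mk n v) (mk n w) < 2 := by
    intro i v w hw
    rw [dist_eq]
    have h1 : dd (mk n v) (mk n w) ≤ 1 :=
      dd_le (Or.inl ⟨mk n v, rfl, Or.inr ⟨i, Or.inl hw⟩⟩)
    have h2 : ((dd (mk n v) (mk n w) : ℕ) : ℝ) ≤ 1 := by exact_mod_cast h1
    linarith
  have hfar : ∀ v, (univ.filter fun w => (a v ∩ a w).Nonempty).card ≤ M := by
    intro v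
    have h7 : ((univ.filter fun w => (a v ∩ a w).Nonempty).card) ≤
        (Metric.ball (mk n v) (2 * |S| + 1)).ncard := by
      rw [← Set.ncard_coe_finset]
      refine Set.ncard_le_ncard_of_injOn (fun w : ZMod (n + 1) × ZMod (n + 1) => (mk n w)) ?_ ?_ (hM _).1
      · intro w hw
        rw [mem_coe, mem_filter] at hw
        obtain ⟨b, hb⟩ := hw.2
        rw [mem_inter, ha', ha'] at hb
        have h1 := hS _ b hb.1
        have h2 := hS _ b hb.2
        rw [Metric.mem_ball]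
        have h3 := dist_triangle (mk n w) b.1 (mk n v)
        rw [dist_comm (mk n w) b.1] at h3
        have h4 := le_abs_self S
        linarith
      · intro w _ w' _ hww
        have := Sigma.mk.inj_iff.mp hww
        exact eq_of_heq this.2
    exact h7.trans (hM (mk n v)).2
  have hb := abs_bound (n + 1) a (fun v => ⟨(mk n v, 0), (ha' v _).mpr (h0 _)⟩)
    (fun v => hadj v _ (hstep 0 v _ rfl)) (fun v => hadj v _ (hstep 1 v _ rfl))
    (fun v => hadj v _ (hstep 2 v _ rfl)) (fun v => hadj v _ (hstep 3 v _ rfl)) M hfar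
  rw [hn] at hb
  push_cast at hb
  nlinarith [Nat.cast_nonneg (α := ℝ) M]

end

end Pool.Agent.Y265.Onl
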