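import Mathlib

set_option autoImplicit false

open MeasureTheory Filter Topology Complex

namespace Pool.Agent.Y265.Raj

noncomputable section

/-- `e^{iθ}` -/
def ee (θ : ℝ) : ℂ := Complex.exp ((θ : ℂ) * Complex.I)

lemma ee_norm (θ : ℝ) : ‖ee θ‖ = 1 := Complex.norm_exp_ofReal_mul_I θ

lemma ee_add (a b : ℝ) : ee (a + b) = ee a * ee b := by
  unfold ee; rw [← Complex.exp_add]; congr 1; push_cast; ring

lemma ee_zero : ee 0 = 1 := by unfold ee; simp

lemma ee_neg (a : ℝ) : ee (-a) = (starRingEnd ℂ) (ee a) := by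
  unfold ee; rw [← Complex.exp_conj]; congr 1; simp

lemma ee_continuous : Continuous ee := by unfold ee; fun_prop

lemma ee_cos (θ : ℝ) : ((Real.cos θ : ℝ) : ℂ) = (ee θ + ee (-θ)) / 2 := by
  rw [Complex.ofReal_cos]
  unfold ee
  rw [Complex.cos]
  push_cast
  rfl

/-- linear Riemann-Lebesgue -/
lemma RL (h : ℝ → ℂ) : Tendsto (fun s : ℝ => ∫ x, ee (s * x) * h x) atTop (𝓝 0) := by
  have h1 := Real.tendsto_integral_exp_smul_cocompact h
  have h2 : Tendsto (fun s : ℝ => -(s / (2 * Real.pi))) atTop (cocompact ℝ) := by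
    rw [cocompact_eq_atBot_atTop (α := ℝ)]
    refine Tendsto.mono_right ?_ (le_sup_left : (atBot : Filter ℝ) ≤ atBot ⊔ atTop)
    refine tendsto_neg_atTop_atBot.comp ?_
    exact tendsto_id.atTop_div_const (by positivity)
  refine (h1.comp h2).congr fun s => ?_
  refine integral_congr_ae (Eventually.of_forall fun x => ?_)
  simp only [Real.fourierChar_apply, Circle.smul_def, smul_eq_mul]
  unfold ee
  congr 2
  push_cast
  field_simp

/-- nonlinear Riemann-Lebesgue -/
lemma RLn (Φ Φ' : ℝ → ℝ) (s : Set ℝ) (hs : MeasurableSet s)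
    (hd : ∀ x ∈ s, HasDerivWithinAt Φ (Φ' x) s x) (hne : ∀ x ∈ s, Φ' x ≠ 0)
    (hinj : Set.InjOn Φ s) (h : ℝ → ℂ) :
    Tendsto (fun r : ℝ => ∫ x in s, ee (r * Φ x) * h x) atTop (𝓝 0) := by
  set w : ℝ → ℂ := fun t => (|Φ' (Function.invFunOn Φ s t)|)⁻¹ • h (Function.invFunOn Φ s t) with hw
  have hm : MeasurableSet (Φ '' s) := by
    have hc : ContinuousOn Φ s := fun x hx => (hd x hx).continuousWithinAt
    exact hs.image_of_continuousOn_injOn hc hinj
  have h1 := RL ((Φ '' s).indicator w)
  refine h1.congr fun r => ?_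
  have e1 : (fun x => ee (r * x) * (Φ '' s).indicator w x) =
      (Φ '' s).indicator (fun x => ee (r * x) * w x) := by
    funext x
    by_cases hx : x ∈ Φ '' s
    · rw [Set.indicator_of_mem hx, Set.indicator_of_mem hx]
    · rw [Set.indicator_of_notMem hx, Set.indicator_of_notMem hx, mul_zero]
  rw [e1, integral_indicator hm, integral_image_eq_integral_abs_deriv_smul hs hd hinj]
  refine setIntegral_congr_fun hs fun x hx => ?_
  have hinv : Function.invFunOn Φ s (Φ x) = x := hinj.leftInvOn_invFunOn hx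
  simp only [hw, hinv]
  have : |Φ' x| ≠ 0 := abs_ne_zero.mpr (hne x hx)
  rw [Complex.real_smul, Complex.real_smul, Complex.ofReal_inv]
  have h2 : ((|Φ' x| : ℝ) : ℂ) ≠ 0 := by exact_mod_cast this
  field_simp

/-- the phase -/
def ph (x : ℝ) : ℝ := 2 * Real.arctan x

lemma ph_deriv (x : ℝ) : HasDerivAt ph (2 / (1 + x ^ 2)) x := by
  have := (Real.hasDerivAt_arctan x).const_mul 2
  unfold ph
  refine this.congr_deriv ?_
  ring

lemma ph_continuous : Continuous ph := by unfold ph; fun_prop

/-- the interval -/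
def J : Set ℝ := Set.Icc 1 2

lemma J_meas : MeasurableSet J := measurableSet_Icc

/-- the autocorrelation phase on the interval of `y` with `y ∈ J`, `y + u ∈ J`. -/
lemma corr (h : ℝ → ℂ) (u : ℝ) (hu : u ≠ 0) :
    Tendsto (fun r : ℝ => ∫ y in Set.Icc (max 1 (1 - u)) (min 2 (2 - u)),
      ee (r * (ph (y + u) - ph y)) * h y) atTop (𝓝 0) := by
  set s := Set.Icc (max 1 (1 - u)) (min 2 (2 - u)) with hs
  have hd : ∀ x, HasDerivAt (fun y => ph (y + u) - ph y) (2 / (1 + (x + u) ^ 2) - 2 / (1 + x ^ 2)) x := by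
    intro x
    exact ((ph_deriv (x + u)).comp_add_const x u).sub (ph_deriv x)
  have hpos : ∀ x ∈ s, 0 < x ∧ 0 < x + u := by
    intro x hx
    have h1 := hx.1
    have h2 := le_max_left (1 : ℝ) (1 - u)
    have h3 := le_max_right (1 : ℝ) (1 - u)
    constructor <;> linarith
  have hconv : Convex ℝ s := convex_Icc _ _
  have hcont : ContinuousOn (fun y => ph (y + u) - ph y) s := fun x _ =>
    (hd x).continuousAt.continuousWithinAt
  rcases lt_or_gt_of_ne hu with hneg | hupos
  · have hder : ∀ x ∈ s, 0 < 2 / (1 + (x + u) ^ 2) - 2 / (1 + x ^ 2) := by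
      intro x hx
      obtain ⟨h1, h2⟩ := hpos x hx
      rw [sub_pos]
      apply div_lt_div_of_pos_left (by norm_num) (by positivity)
      nlinarith
    have hmono : StrictMonoOn (fun y => ph (y + u) - ph y) s := by
      refine strictMonoOn_of_deriv_pos hconv hcont fun x hx => ?_
      rw [(hd x).deriv]; exact hder x (interior_subset hx)
    exact RLn _ _ s measurableSet_Icc (fun x _ => (hd x).hasDerivWithinAt)
      (fun x hx => (hder x hx).ne') hmono.injOn h
  · have hder : ∀ x ∈ s, 2 / (1 + (x + u) ^ 2) - 2 / (1 + x ^ 2) < 0 := by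
      intro x hx
      obtain ⟨h1, h2⟩ := hpos x hx
      rw [sub_neg]
      apply div_lt_div_of_pos_left (by norm_num) (by positivity)
      nlinarith
    have hmono : StrictAntiOn (fun y => ph (y + u) - ph y) s := by
      refine strictAntiOn_of_deriv_neg hconv hcont fun x hx => ?_
      rw [(hd x).deriv]; exact hder x (interior_subset hx)
    exact RLn _ _ s measurableSet_Icc (fun x _ => (hd x).hasDerivWithinAt)
      (fun x hx => (hder x hx).ne) hmono.injOn h

/-- a bounded measurable function supported in `J` -/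
structure Adm (g : ℝ → ℂ) (B : ℝ) : Prop where
  meas : Measurable g
  bd : ∀ x, ‖g x‖ ≤ B
  supp : ∀ x, x ∉ J → g x = 0

lemma Adm.nonneg {g : ℝ → ℂ} {B : ℝ} (h : Adm g B) : 0 ≤ B := (norm_nonneg _).trans (h.bd 0)

/-- integrability of bounded compactly supported functions -/
lemma Adm.integrable {g : ℝ → ℂ} {B : ℝ} (h : Adm g B) : Integrable g := by
  have h1 : Integrable (J.indicator fun _ : ℝ => B) := by
    rw [integrable_indicator_iff J_meas]
    refine integrableOn_const ?_
    simp [J]
  refine h1.mono' h.meas.aestronglyMeasurable (Eventually.of_forall fun x => ?_)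
  by_cases hx : x ∈ J
  · rw [Set.indicator_of_mem hx]; exact h.bd x
  · rw [Set.indicator_of_notMem hx, h.supp x hx, norm_zero]

lemma Adm.mul {g : ℝ → ℂ} {B : ℝ} (h : Adm g B) {f : ℝ → ℂ} {C : ℝ} (hf : Measurable f)
    (hC : ∀ x, ‖f x‖ ≤ C) : Adm (fun x => f x * g x) (C * B) := by
  refine ⟨hf.mul h.meas, fun x => ?_, fun x hx => by
    show f x * g x = 0
    rw [h.supp x hx, mul_zero]⟩
  rw [norm_mul]
  exact mul_le_mul (hC x) (h.bd x) (norm_nonneg _) ((norm_nonneg _).trans (hC x))

/-- the correlation function -/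
def F (g : ℝ → ℂ) (r : ℝ) (u : ℝ) : ℂ :=
  ∫ y, ee (r * (ph (y + u) - ph y)) * (g (y + u) * (starRingEnd ℂ) (g y))

lemma F_tendsto {g : ℝ → ℂ} {B : ℝ} (h : Adm g B) {u : ℝ} (hu : u ≠ 0) :
    Tendsto (fun r : ℝ => F g r u) atTop (𝓝 0) := by
  have h1 := corr (fun y => g (y + u) * (starRingEnd ℂ) (g y)) u hu
  refine h1.congr fun r => ?_
  unfold F
  rw [← integral_indicator measurableSet_Icc]
  refine integral_congr_ae (Eventually.of_forall fun y => ?_)
  by_cases hy : y ∈ Set.Icc (max 1 (1 - u)) (min 2 (2 - u))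
  · simp only [Set.indicator_of_mem hy]
  · simp only [Set.indicator_of_notMem hy]
    have : y ∉ J ∨ y + u ∉ J := by
      by_contra hcon
      push Not at hcon
      apply hy
      obtain ⟨⟨h1, h2⟩, h3, h4⟩ := hcon
      exact ⟨max_le h1 (by linarith), le_min h2 (by linarith)⟩
    rcases this with h' | h'
    · rw [h.supp y h', map_zero, mul_zero, mul_zero]
    · rw [h.supp _ h', zero_mul, mul_zero]

lemma F_bound {g : ℝ → ℂ} {B : ℝ} (h : Adm g B) (r u : ℝ) :
    ‖F g r u‖ ≤ (Set.Icc (-1) 1).indicator (fun _ => B * B) u := by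
  have key : ∀ y, ‖ee (r * (ph (y + u) - ph y)) * (g (y + u) * (starRingEnd ℂ) (g y))‖ ≤
      J.indicator (fun _ => (Set.Icc (-1) 1).indicator (fun _ => B * B) u) y := by
    intro y
    have hB := h.nonneg
    by_cases hy : y ∈ J
    · rw [Set.indicator_of_mem hy]
      by_cases hyu : y + u ∈ J
      · have hu : u ∈ Set.Icc (-1 : ℝ) 1 := by
          obtain ⟨h1, h2⟩ := hy
          obtain ⟨h3, h4⟩ := hyu
          constructor <;> linarith
        rw [Set.indicator_of_mem hu, norm_mul, ee_norm, one_mul, norm_mul, RCLike.norm_conj]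
        exact mul_le_mul (h.bd _) (h.bd _) (norm_nonneg _) hB
      · rw [h.supp _ hyu, zero_mul, mul_zero, norm_zero]
        exact Set.indicator_nonneg (fun _ _ => mul_nonneg hB hB) u
    · rw [Set.indicator_of_notMem hy, h.supp _ hy, map_zero, mul_zero, mul_zero, norm_zero]
  have hint : Integrable (J.indicator (fun _ : ℝ => (Set.Icc (-1 : ℝ) 1).indicator (fun _ => B * B) u)) := by
    rw [integrable_indicator_iff J_meas]
    refine integrableOn_const ?_
    simp [J]
  refine (norm_integral_le_of_norm_le hint (Eventually.of_forall key)).trans ?_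
  rw [integral_indicator J_meas, setIntegral_const]
  simp [J, Measure.real]
  norm_num

lemma F_meas {g : ℝ → ℂ} {B : ℝ} (h : Adm g B) (r : ℝ) : StronglyMeasurable (F g r) := by
  unfold F
  have h1 : Measurable fun p : ℝ × ℝ => ee (r * (ph (p.2 + p.1) - ph p.2)) *
      (g (p.2 + p.1) * (starRingEnd ℂ) (g p.2)) := by
    have hph : Measurable ph := ph_continuous.measurable
    have hee : Measurable ee := ee_continuous.measurable
    have hg := h.meas
    have hc : Measurable (starRingEnd ℂ) := Complex.continuous_conj.measurable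
    refine Measurable.mul ?_ ?_
    · exact hee.comp (((hph.comp (measurable_snd.add measurable_fst)).sub
        (hph.comp measurable_snd)).const_mul r)
    · exact (hg.comp (measurable_snd.add measurable_fst)).mul (hc.comp (hg.comp measurable_snd))
  exact h1.stronglyMeasurable.integral_prod_right'

lemma F_int_tendsto {g : ℝ → ℂ} {B : ℝ} (h : Adm g B) :
    Tendsto (fun n : ℕ => ∫ u, ‖F g n u‖) atTop (𝓝 0) := by
  have h0 : (0 : ℝ) = ∫ u : ℝ, (0 : ℝ) := by simp
  rw [h0]
  refine tendsto_integral_of_dominated_convergence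
    ((Set.Icc (-1) 1).indicator (fun _ => B * B)) ?_ ?_ ?_ ?_
  · intro n; exact (F_meas h n).norm.aestronglyMeasurable
  · rw [integrable_indicator_iff measurableSet_Icc]
    refine integrableOn_const ?_
    simp
  · intro n
    refine Eventually.of_forall fun u => ?_
    rw [norm_norm]; exact F_bound h n u
  · have : ∀ᵐ u : ℝ, u ≠ 0 := by
      rw [ae_iff]
      simp
    filter_upwards [this] with u hu
    have := ((F_tendsto h hu).comp tendsto_natCast_atTop_atTop).norm
    simpa using this

/-- the `T T*` identity -/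
lemma TT {g : ℝ → ℂ} {B : ℝ} (h : Adm g B) (s r : ℝ) :
    ‖∫ x, ee (s * x) * (ee (r * ph x) * g x)‖ ^ 2 ≤ ∫ u, ‖F g r u‖ := by
  set a : ℝ → ℂ := fun x => ee (s * x) * (ee (r * ph x) * g x) with ha
  have hph : Measurable ph := ph_continuous.measurable
  have hee : Measurable ee := ee_continuous.measurable
  have hadm : Adm a (1 * (1 * B)) := by
    refine Adm.mul (Adm.mul h (hee.comp (hph.const_mul r)) (fun x => (ee_norm _).le))
      (hee.comp (measurable_id.const_mul s)) (fun x => (ee_norm _).le)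
  rw [one_mul, one_mul] at hadm
  have hB := h.nonneg
  have e1 : ((‖∫ x, a x‖ ^ 2 : ℝ) : ℂ) = ∫ u, ∫ y, a (y + u) * (starRingEnd ℂ) (a y) := by
    have s1 : ((‖∫ x, a x‖ ^ 2 : ℝ) : ℂ) = (∫ x, a x) * (starRingEnd ℂ) (∫ x, a x) := by
      rw [Complex.mul_conj, Complex.normSq_eq_norm_sq]
    have s2 : (∫ x, a x) * (starRingEnd ℂ) (∫ x, a x) = ∫ y, ∫ u, a (y + u) * (starRingEnd ℂ) (a y) := by
      rw [← integral_conj, ← integral_const_mul]
      refine integral_congr_ae (Eventually.of_forall fun y => ?_)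
      simp only
      rw [integral_mul_const, integral_add_left_eq_self (fun x => a x) y]
    rw [s1, s2]
    refine integral_integral_swap ?_
    have hm : Measurable (Function.uncurry fun y u : ℝ => a (y + u) * (starRingEnd ℂ) (a y)) := by
      have hc : Measurable (starRingEnd ℂ) := Complex.continuous_conj.measurable
      exact (hadm.meas.comp (measurable_fst.add measurable_snd)).mul
        (hc.comp (hadm.meas.comp measurable_fst))
    have hdom : Integrable ((J ×ˢ Set.Icc (-1 : ℝ) 1).indicator (fun _ : ℝ × ℝ => B * B))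
        ((volume : Measure ℝ).prod volume) := by
      rw [integrable_indicator_iff (J_meas.prod measurableSet_Icc)]
      refine integrableOn_const ?_
      rw [Measure.prod_prod]
      simp [J, ENNReal.mul_eq_top]
    refine hdom.mono' hm.aestronglyMeasurable (Eventually.of_forall fun p => ?_)
    obtain ⟨y, u⟩ := p
    simp only [Function.uncurry_apply_pair]
    by_cases hy : y ∈ J
    · by_cases hyu : y + u ∈ J
      · have hu : u ∈ Set.Icc (-1 : ℝ) 1 := by
          obtain ⟨h1, h2⟩ := hy
          obtain ⟨h3, h4⟩ := hyu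
          constructor <;> linarith
        rw [Set.indicator_of_mem (Set.mk_mem_prod hy hu), norm_mul, RCLike.norm_conj]
        exact mul_le_mul (hadm.bd _) (hadm.bd _) (norm_nonneg _) hB
      · rw [hadm.supp _ hyu, zero_mul, norm_zero]
        exact Set.indicator_nonneg (fun _ _ => mul_nonneg hB hB) _
    · rw [hadm.supp _ hy, map_zero, mul_zero, norm_zero]
      exact Set.indicator_nonneg (fun _ _ => mul_nonneg hB hB) _
  have e2 : ∀ u, ∫ y, a (y + u) * (starRingEnd ℂ) (a y) = ee (s * u) * F g r u := by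
    intro u
    unfold F
    rw [← integral_const_mul]
    refine integral_congr_ae (Eventually.of_forall fun y => ?_)
    simp only [ha, map_mul, ← ee_neg]
    have h1 : ee (s * (y + u)) = ee (s * y) * ee (s * u) := by rw [← ee_add]; congr 1; ring
    have h2 : ee (r * (ph (y + u) - ph y)) = ee (r * ph (y + u)) * ee (-(r * ph y)) := by
      rw [← ee_add]; congr 1; ring
    have h3 : ee (s * y) * ee (-(s * y)) = 1 := by rw [← ee_add, add_neg_cancel, ee_zero]
    rw [h1, h2]
    linear_combination (ee (s * u) * ee (r * ph (y + u)) * g (y + u) * ee (-(r * ph y)) *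
      (starRingEnd ℂ) (g y)) * h3
  have e3 : ‖∫ x, a x‖ ^ 2 = ‖∫ u, ee (s * u) * F g r u‖ := by
    rw [← integral_congr_ae (Eventually.of_forall e2), ← e1, Complex.norm_real, Real.norm_eq_abs,
      abs_of_nonneg (by positivity)]
  rw [e3]
  refine (norm_integral_le_integral_norm _).trans (le_of_eq ?_)
  refine integral_congr_ae (Eventually.of_forall fun u => ?_)
  simp only [norm_mul, ee_norm, one_mul]

/-- **Key lemma**: uniform smallness in the linear frequency. -/
lemma keyA {g : ℝ → ℂ} {B : ℝ} (h : Adm g B) {ε : ℝ} (hε : 0 < ε) :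
    ∃ N : ℕ, ∀ n ≥ N, ∀ s : ℝ, ‖∫ x, ee (s * x) * (ee (n * ph x) * g x)‖ ≤ ε := by
  have h1 := (F_int_tendsto h).eventually (gt_mem_nhds (show (0 : ℝ) < ε ^ 2 by positivity))
  rw [eventually_atTop] at h1
  obtain ⟨N, hN⟩ := h1
  refine ⟨N, fun n hn s => ?_⟩
  have h2 := TT h s n
  have h3 := hN n hn
  exact (pow_le_pow_iff_left₀ (norm_nonneg _) hε.le two_ne_zero).mp (h2.trans h3.le)

end

end Pool.Agent.Y265.Raj
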