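import Pool.Agent.Y265.Raj1

set_option autoImplicit false

open MeasureTheory Filter Topology Complex

namespace Pool.Agent.Y265.Raj

noncomputable section

lemma conj_int (f : ℝ → ℂ) : ‖∫ x, (starRingEnd ℂ) (f x)‖ = ‖∫ x, f x‖ := by
  rw [integral_conj, RCLike.norm_conj]

/-- the version of the key lemma for `e^{inφ}` and `cos(nφ)` -/
lemma keyE {g : ℝ → ℂ} {B : ℝ} (h : Adm g B) {ε : ℝ} (hε : 0 < ε) :
    ∀ᶠ n : ℕ in atTop, ∀ s : ℝ, ‖∫ x, ee (s * x) * (ee (n * ph x) * g x)‖ ≤ ε := by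
  obtain ⟨N, hN⟩ := keyA h hε
  exact eventually_atTop.mpr ⟨N, hN⟩

lemma Adm.conj {g : ℝ → ℂ} {B : ℝ} (h : Adm g B) : Adm (fun x => (starRingEnd ℂ) (g x)) B := by
  refine ⟨Complex.continuous_conj.measurable.comp h.meas, fun x => ?_, fun x hx => ?_⟩
  · rw [RCLike.norm_conj]; exact h.bd x
  · show (starRingEnd ℂ) (g x) = 0
    rw [h.supp x hx, map_zero]

lemma ee_meas {f : ℝ → ℝ} (hf : Measurable f) : Measurable fun x => ee (f x) :=
  ee_continuous.measurable.comp hf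

lemma keyC {g : ℝ → ℂ} {B : ℝ} (h : Adm g B) {ε : ℝ} (hε : 0 < ε) :
    ∀ᶠ n : ℕ in atTop, ∀ s : ℝ,
      ‖∫ x, ee (s * x) * (((Real.cos (n * ph x) : ℝ) : ℂ) * g x)‖ ≤ ε := by
  filter_upwards [keyE h hε, keyE h.conj hε] with n h1 h2 s
  have e1 : (fun x => ee (s * x) * (((Real.cos (n * ph x) : ℝ) : ℂ) * g x)) =
      fun x => (1 / 2 : ℂ) * (ee (s * x) * (ee (n * ph x) * g x)) +
        (1 / 2 : ℂ) * (starRingEnd ℂ) (ee (-s * x) * (ee (n * ph x) * (starRingEnd ℂ) (g x))) := by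
    funext x
    rw [ee_cos, map_mul, map_mul, Complex.conj_conj, ← ee_neg, ← ee_neg]
    rw [show -(-s * x) = s * x by ring]
    ring
  have hm : ∀ (t : ℝ) (g : ℝ → ℂ) (B : ℝ), Adm g B →
      Integrable (fun x => ee (t * x) * (ee (n * ph x) * g x)) := by
    intro t g B hg
    have := Adm.mul (Adm.mul hg (ee_meas (ph_continuous.measurable.const_mul (n : ℝ)))
      (fun x => (ee_norm _).le)) (ee_meas (measurable_id.const_mul t)) (fun x => (ee_norm _).le)
    exact this.integrable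
  have i1 := hm s g B h
  have i2 := hm (-s) _ B h.conj
  have i3 : Integrable (fun x => (starRingEnd ℂ) (ee (-s * x) * (ee (n * ph x) * (starRingEnd ℂ) (g x)))) := by
    have := (Adm.conj (Adm.mul (Adm.mul h.conj (ee_meas (ph_continuous.measurable.const_mul (n : ℝ)))
      (fun x => (ee_norm _).le)) (ee_meas (measurable_id.const_mul (-s))) (fun x => (ee_norm _).le)))
    exact this.integrable
  rw [e1, integral_add (i1.const_mul _) (i3.const_mul _), integral_const_mul, integral_const_mul]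
  refine (norm_add_le _ _).trans ?_
  rw [norm_mul, norm_mul, conj_int]
  have := h1 s
  have := h2 (-s)
  have h3 : ‖(1 / 2 : ℂ)‖ = 1 / 2 := by norm_num
  rw [h3]
  linarith

/-- the densities -/
def rho (l : List ℕ) (x : ℝ) : ℝ := (l.map fun m : ℕ => 1 + Real.cos (m * ph x)).prod

lemma rho_cons (m : ℕ) (l : List ℕ) (x : ℝ) :
    rho (m :: l) x = (1 + Real.cos (m * ph x)) * rho l x := by
  unfold rho; rw [List.map_cons, List.prod_cons]

lemma rho_nil (x : ℝ) : rho [] x = 1 := rfl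

lemma rho_cont (l : List ℕ) : Continuous (rho l) := by
  induction l with
  | nil => exact continuous_const
  | cons m l ih =>
    have : rho (m :: l) = fun x => (1 + Real.cos (m * ph x)) * rho l x := by
      funext x; exact rho_cons m l x
    rw [this]
    have := ph_continuous
    fun_prop

lemma rho_nonneg (l : List ℕ) (x : ℝ) : 0 ≤ rho l x := by
  induction l with
  | nil => rw [rho_nil]; norm_num
  | cons m l ih =>
    rw [rho_cons]
    exact mul_nonneg (by linarith [Real.neg_one_le_cos (m * ph x)]) ih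

lemma rho_le (l : List ℕ) (x : ℝ) : rho l x ≤ 2 ^ l.length := by
  induction l with
  | nil => rw [rho_nil]; norm_num
  | cons m l ih =>
    rw [rho_cons, List.length_cons, pow_succ, mul_comm]
    refine mul_le_mul ih ?_ ?_ (by positivity)
    · linarith [Real.cos_le_one (m * ph x)]
    · linarith [Real.neg_one_le_cos (m * ph x)]

/-- the density restricted to `J`, complex valued -/
def G (l : List ℕ) : ℝ → ℂ := J.indicator fun x => ((rho l x : ℝ) : ℂ)

lemma G_adm (l : List ℕ) : Adm (G l) (2 ^ l.length) := by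
  refine ⟨?_, fun x => ?_, fun x hx => Set.indicator_of_notMem hx _⟩
  · exact (Complex.continuous_ofReal.comp (rho_cont l)).measurable.indicator J_meas
  · unfold G
    refine (norm_indicator_le_norm_self _ _).trans ?_
    rw [Complex.norm_real, Real.norm_eq_abs, abs_of_nonneg (rho_nonneg l x)]
    exact rho_le l x

lemma G_cons (m : ℕ) (l : List ℕ) (x : ℝ) :
    G (m :: l) x = G l x + ((Real.cos (m * ph x) : ℝ) : ℂ) * G l x := by
  unfold G
  by_cases hx : x ∈ J
  · rw [Set.indicator_of_mem hx, Set.indicator_of_mem hx, rho_cons]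
    push_cast; ring
  · rw [Set.indicator_of_notMem hx, Set.indicator_of_notMem hx]; simp

/-- the one-step choice -/
lemma exists_next (l : List ℕ) : ∃ m : ℕ, l.length ≤ m ∧
    (∀ s : ℝ, ‖∫ x, ee (s * x) * (((Real.cos (m * ph x) : ℝ) : ℂ) * G l x)‖
      ≤ (1 / 2) ^ (l.length + 4)) ∧
    ‖∫ x, ee (m * ph x) * G l x‖ ≤ (1 / 2) ^ (l.length + 4) ∧
    ‖∫ x, ee (((2 * m : ℕ) : ℝ) * ph x) * G l x‖ ≤ (1 / 2) ^ (l.length + 4) ∧
    ∀ m' ∈ l, ‖∫ x, ee ((m' : ℝ) * ph x) * (((Real.cos (m * ph x) : ℝ) : ℂ) * G l x)‖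
      ≤ (1 / 2) ^ (l.length + 4) := by
  have hε : (0 : ℝ) < (1 / 2) ^ (l.length + 4) := by positivity
  have hA := keyC (G_adm l) hε
  have hB := keyE (G_adm l) hε
  have hB2 := (tendsto_id.const_mul_atTop' (r := 2) (by norm_num) : Tendsto (fun m : ℕ => 2 * m) atTop atTop).eventually hB
  have hC : ∀ᶠ n : ℕ in atTop, ∀ m' ∈ l.toFinset, ∀ s : ℝ,
      ‖∫ x, ee (s * x) * (((Real.cos (n * ph x) : ℝ) : ℂ) * (ee ((m' : ℝ) * ph x) * G l x))‖
        ≤ (1 / 2) ^ (l.length + 4) := by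
    rw [Filter.eventually_all_finset]
    intro m' _
    exact keyC (Adm.mul (G_adm l) (ee_meas (ph_continuous.measurable.const_mul (m' : ℝ)))
      (fun x => (ee_norm _).le)) hε
  obtain ⟨m, h0, h1, h2, h3, h4⟩ :=
    ((eventually_ge_atTop l.length).and (hA.and (hB.and (hB2.and hC)))).exists
  refine ⟨m, h0, h1, ?_, ?_, ?_⟩
  · have := h2 0
    simpa only [zero_mul, ee_zero, one_mul] using this
  · have := h3 0
    simpa only [zero_mul, ee_zero, one_mul] using this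
  · intro m' hm'
    have := h4 m' (List.mem_toFinset.mpr hm') 0
    simp only [zero_mul, ee_zero, one_mul] at this
    refine le_trans (le_of_eq ?_) this
    congr 1
    refine integral_congr_ae (Eventually.of_forall fun x => ?_)
    simp only
    ring

def nx (l : List ℕ) : ℕ := (exists_next l).choose

lemma nx_spec (l : List ℕ) : l.length ≤ nx l ∧
    (∀ s : ℝ, ‖∫ x, ee (s * x) * (((Real.cos (nx l * ph x) : ℝ) : ℂ) * G l x)‖
      ≤ (1 / 2) ^ (l.length + 4)) ∧
    ‖∫ x, ee (nx l * ph x) * G l x‖ ≤ (1 / 2) ^ (l.length + 4) ∧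
    ‖∫ x, ee (((2 * nx l : ℕ) : ℝ) * ph x) * G l x‖ ≤ (1 / 2) ^ (l.length + 4) ∧
    ∀ m' ∈ l, ‖∫ x, ee ((m' : ℝ) * ph x) * (((Real.cos (nx l * ph x) : ℝ) : ℂ) * G l x)‖
      ≤ (1 / 2) ^ (l.length + 4) := (exists_next l).choose_spec

/-- the lists -/
def LL : ℕ → List ℕ
  | 0 => []
  | k + 1 => nx (LL k) :: LL k

lemma LL_length (k : ℕ) : (LL k).length = k := by
  induction k with
  | zero => rfl
  | succ k ih => show (nx (LL k) :: LL k).length = _; rw [List.length_cons, ih]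

def nn (k : ℕ) : ℕ := nx (LL k)

lemma nn_mem {j k : ℕ} (h : j < k) : nn j ∈ LL k := by
  induction k with
  | zero => omega
  | succ k ih =>
    show nn j ∈ nx (LL k) :: LL k
    rcases Nat.lt_succ_iff_lt_or_eq.mp h with h | h
    · exact List.mem_cons_of_mem _ (ih h)
    · rw [h]; exact List.mem_cons_self

lemma le_nn (k : ℕ) : k ≤ nn k := by
  have := (nx_spec (LL k)).1
  rwa [LL_length] at this

def FT (k : ℕ) (s : ℝ) : ℂ := ∫ x, ee (s * x) * G (LL k) x
def PT (j k : ℕ) : ℂ := ∫ x, ee ((nn j : ℝ) * ph x) * G (LL k) x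

lemma step_int (a : ℝ → ℂ) (ha : Measurable a) (ha1 : ∀ x, ‖a x‖ ≤ 1) (k : ℕ) :
    (∫ x, a x * G (LL (k + 1)) x) - ∫ x, a x * G (LL k) x =
      ∫ x, a x * (((Real.cos (nn k * ph x) : ℝ) : ℂ) * G (LL k) x) := by
  have hc : Measurable fun x => ((Real.cos (nn k * ph x) : ℝ) : ℂ) := by
    have := ph_continuous
    exact (by fun_prop : Continuous fun x => ((Real.cos (nn k * ph x) : ℝ) : ℂ)).measurable
  have hc1 : ∀ x, ‖((Real.cos (nn k * ph x) : ℝ) : ℂ)‖ ≤ 1 := by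
    intro x; rw [Complex.norm_real]; exact Real.abs_cos_le_one _
  have i1 : Integrable fun x => a x * G (LL k) x := ((G_adm (LL k)).mul ha ha1).integrable
  have i2 : Integrable fun x => a x * (((Real.cos (nn k * ph x) : ℝ) : ℂ) * G (LL k) x) :=
    (((G_adm (LL k)).mul hc hc1).mul ha ha1).integrable
  rw [sub_eq_iff_eq_add, ← integral_add i2 i1]
  refine integral_congr_ae (Eventually.of_forall fun x => ?_)
  show a x * G (nn k :: LL k) x = _
  rw [G_cons]; ring

lemma FT_step (k : ℕ) (s : ℝ) : ‖FT (k + 1) s - FT k s‖ ≤ (1 / 2) ^ (k + 4) := by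
  unfold FT
  rw [step_int (fun x => ee (s * x)) (ee_meas (measurable_id.const_mul s)) (fun x => (ee_norm _).le)]
  have := (nx_spec (LL k)).2.1 s
  rwa [LL_length] at this

lemma PT_step {j k : ℕ} (h : j < k) : ‖PT j (k + 1) - PT j k‖ ≤ (1 / 2) ^ (k + 4) := by
  unfold PT
  rw [step_int _ (ee_meas (ph_continuous.measurable.const_mul _)) (fun x => (ee_norm _).le)]
  have := (nx_spec (LL k)).2.2.2.2 (nn j) (nn_mem h)
  rwa [LL_length] at this

/-- summation of the steps -/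
lemma steps (f : ℕ → ℂ) (k : ℕ) (h : ∀ i ≥ k, ‖f (i + 1) - f i‖ ≤ (1 / 2) ^ (i + 4)) :
    ∀ l ≥ k, ‖f l - f k‖ ≤ (1 / 2) ^ (k + 3) - (1 / 2) ^ (l + 3) := by
  intro l hl
  induction l, hl using Nat.le_induction with
  | base => simp
  | succ l hkl ih =>
    have h1 := h l hkl
    have h2 : f (l + 1) - f k = (f (l + 1) - f l) + (f l - f k) := by ring
    rw [h2]
    refine (norm_add_le _ _).trans ?_
    have h3 : ((1 : ℝ) / 2) ^ (l + 1 + 3) = (1 / 2) ^ (l + 3) / 2 := by rw [show l + 1 + 3 = (l + 3) + 1 by ring, pow_succ]; ring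
    have h4 : ((1 : ℝ) / 2) ^ (l + 4) = (1 / 2) ^ (l + 3) / 2 := by rw [pow_succ]; ring
    rw [h4] at h1
    rw [h3]
    linarith

lemma FT_zero : FT 0 0 = 1 := by
  unfold FT
  have : (fun x => ee (0 * x) * G (LL 0) x) = J.indicator fun _ => (1 : ℂ) := by
    funext x
    show ee (0 * x) * G [] x = _
    rw [zero_mul, ee_zero, one_mul]
    unfold G
    simp only [rho_nil, Complex.ofReal_one]
  rw [this, integral_indicator J_meas, setIntegral_const]
  simp [J, Measure.real]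
  norm_num

lemma FT_far (k l : ℕ) (h : k ≤ l) (s : ℝ) : ‖FT l s - FT k s‖ ≤ (1 / 2) ^ (k + 3) := by
  have := steps (fun i => FT i s) k (fun i _ => FT_step i s) l h
  have h2 : (0 : ℝ) ≤ (1 / 2) ^ (l + 3) := by positivity
  linarith

lemma PT_first (j : ℕ) : 11 / 32 ≤ ‖PT j (j + 1)‖ := by
  have e0 : PT j (j + 1) = (∫ x, ee ((nn j : ℝ) * ph x) * G (LL j) x) +
      ((1 / 2 : ℂ) * (∫ x, ee (((2 * nn j : ℕ) : ℝ) * ph x) * G (LL j) x) +
        (1 / 2 : ℂ) * FT j 0) := by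
    have h1 := step_int (fun x => ee ((nn j : ℝ) * ph x))
      (ee_meas (ph_continuous.measurable.const_mul _)) (fun x => (ee_norm _).le) j
    have i1 : Integrable fun x => ee (((2 * nn j : ℕ) : ℝ) * ph x) * G (LL j) x :=
      ((G_adm (LL j)).mul (ee_meas (ph_continuous.measurable.const_mul _))
        (fun x => (ee_norm _).le)).integrable
    have i2 : Integrable fun x => ee (0 * x) * G (LL j) x :=
      ((G_adm (LL j)).mul (ee_meas (measurable_id.const_mul (0 : ℝ)))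
        (fun x => (ee_norm _).le)).integrable
    have h2 : (∫ x, ee ((nn j : ℝ) * ph x) * (((Real.cos (nn j * ph x) : ℝ) : ℂ) * G (LL j) x)) =
        ((1 / 2 : ℂ) * (∫ x, ee (((2 * nn j : ℕ) : ℝ) * ph x) * G (LL j) x) +
        (1 / 2 : ℂ) * FT j 0) := by
      unfold FT
      rw [← integral_const_mul, ← integral_const_mul, ← integral_add (i1.const_mul _) (i2.const_mul _)]
      refine integral_congr_ae (Eventually.of_forall fun x => ?_)
      simp only
      rw [ee_cos, zero_mul, ee_zero]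
      have h3 : ee (((2 * nn j : ℕ) : ℝ) * ph x) = ee ((nn j : ℝ) * ph x) * ee ((nn j : ℝ) * ph x) := by
        rw [← ee_add]; congr 1; push_cast; ring
      have h4 : ee ((nn j : ℝ) * ph x) * ee (-((nn j : ℝ) * ph x)) = 1 := by
        rw [← ee_add, add_neg_cancel, ee_zero]
      rw [h3]
      linear_combination (G (LL j) x / 2) * h4
    rw [← h2, ← h1]
    unfold PT
    ring
  have hb1 := (nx_spec (LL j)).2.2.1
  have hb2 := (nx_spec (LL j)).2.2.2.1
  rw [LL_length] at hb1 hb2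
  have hF := FT_far 0 j (Nat.zero_le _) 0
  rw [FT_zero] at hF
  have hF2 : 7 / 8 ≤ ‖FT j 0‖ := by
    have h1 := norm_sub_norm_le (1 : ℂ) (FT j 0)
    rw [norm_one, norm_sub_rev] at h1
    norm_num at hF
    linarith
  have hε : ((1 : ℝ) / 2) ^ (j + 4) ≤ 1 / 16 := by
    have : ((1 : ℝ) / 2) ^ (j + 4) ≤ (1 / 2) ^ 4 :=
      pow_le_pow_of_le_one (by norm_num) (by norm_num) (by omega)
    norm_num at this ⊢
    exact this
  set P : ℂ := ∫ x, ee ((nn j : ℝ) * ph x) * G (LL j) x with hP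
  set Q : ℂ := ∫ x, ee (((2 * nn j : ℕ) : ℝ) * ph x) * G (LL j) x with hQ
  have hP' : ‖P‖ ≤ 1 / 16 := hb1.trans hε
  have hQ' : ‖Q‖ ≤ 1 / 16 := hb2.trans hε
  rw [e0]
  have h5 : ‖(1 / 2 : ℂ) * FT j 0‖ ≤ ‖P + ((1 / 2 : ℂ) * Q + (1 / 2 : ℂ) * FT j 0)‖ + ‖P‖ + ‖(1 / 2 : ℂ) * Q‖ := by
    have h6 : (1 / 2 : ℂ) * FT j 0 = (P + ((1 / 2 : ℂ) * Q + (1 / 2 : ℂ) * FT j 0)) - P - (1 / 2 : ℂ) * Q := by ring
    calc ‖(1 / 2 : ℂ) * FT j 0‖ = ‖(P + ((1 / 2 : ℂ) * Q + (1 / 2 : ℂ) * FT j 0)) - P - (1 / 2 : ℂ) * Q‖ := by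
          rw [← h6]
      _ ≤ ‖(P + ((1 / 2 : ℂ) * Q + (1 / 2 : ℂ) * FT j 0)) - P‖ + ‖(1 / 2 : ℂ) * Q‖ := norm_sub_le _ _
      _ ≤ _ := by gcongr; exact norm_sub_le _ _
  have h7 : ‖(1 / 2 : ℂ)‖ = 1 / 2 := by norm_num
  rw [norm_mul, norm_mul, h7] at h5
  linarith

lemma PT_low (j k : ℕ) (h : j < k) : 1 / 4 ≤ ‖PT j k‖ := by
  have h1 := PT_first j
  have h2 := steps (fun i => PT j i) (j + 1) (fun i hi => PT_step (by omega)) k h
  have h3 : ((1 : ℝ) / 2) ^ (j + 1 + 3) ≤ 1 / 16 := by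
    have : ((1 : ℝ) / 2) ^ (j + 1 + 3) ≤ (1 / 2) ^ 4 :=
      pow_le_pow_of_le_one (by norm_num) (by norm_num) (by omega)
    norm_num at this ⊢
    exact this
  have h4 : (0 : ℝ) ≤ (1 / 2) ^ (k + 3) := by positivity
  have h5 := norm_sub_norm_le (PT j (j + 1)) (PT j k)
  rw [norm_sub_rev] at h5
  linarith

/-- the approximating measures -/
def nu (k : ℕ) : Measure ℝ := (volume.restrict J).withDensity fun x => ENNReal.ofReal (rho (LL k) x)

lemma nu_int (k : ℕ) (f : ℝ → ℂ) : ∫ x, f x ∂(nu k) = ∫ x, f x * G (LL k) x := by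
  unfold nu
  have hm : Measurable fun x => ENNReal.ofReal (rho (LL k) x) :=
    ENNReal.measurable_ofReal.comp (rho_cont (LL k)).measurable
  rw [integral_withDensity_eq_integral_toReal_smul hm
    (Eventually.of_forall fun x => ENNReal.ofReal_lt_top), ← integral_indicator J_meas]
  refine integral_congr_ae (Eventually.of_forall fun x => ?_)
  simp only
  unfold G
  by_cases hx : x ∈ J
  · rw [Set.indicator_of_mem hx, Set.indicator_of_mem hx, ENNReal.toReal_ofReal (rho_nonneg _ _),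
      Complex.real_smul, mul_comm]
  · rw [Set.indicator_of_notMem hx, Set.indicator_of_notMem hx, mul_zero]

instance nu_finite (k : ℕ) : IsFiniteMeasure (nu k) := by
  refine isFiniteMeasure_withDensity_ofReal ?_
  have h : IntegrableOn (fun x => rho (LL k) x) (Set.Icc 1 2) volume :=
    (rho_cont (LL k)).continuousOn.integrableOn_Icc
  exact h.2

lemma nu_mass (k : ℕ) : (nu k Set.univ).toReal ≤ 2 := by
  have h1 : ∫ x, (1 : ℂ) ∂(nu k) = FT k 0 := by
    rw [nu_int]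
    unfold FT
    refine integral_congr_ae (Eventually.of_forall fun x => ?_)
    simp only [zero_mul, ee_zero]
  rw [integral_const] at h1
  have hF := FT_far 0 k (Nat.zero_le _) 0
  rw [FT_zero] at hF
  have h2 : ‖FT k 0‖ ≤ 2 := by
    have h3 := norm_sub_norm_le (FT k 0) (1 : ℂ)
    rw [norm_one] at h3
    norm_num at hF
    linarith
  rw [← h1, norm_smul, norm_one, mul_one, Real.norm_eq_abs] at h2
  exact (le_abs_self _).trans h2

lemma nu_compl (k : ℕ) : nu k Jᶜ = 0 := by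
  unfold nu
  rw [withDensity_apply _ J_meas.compl]
  refine le_antisymm ?_ bot_le
  rw [Measure.restrict_restrict J_meas.compl, Set.compl_inter_self]
  simp

/-- as finite measures -/
def nuF (k : ℕ) : FiniteMeasure ℝ := ⟨nu k, nu_finite k⟩

/-- **The limit measure.** -/
theorem exists_measure : ∃ μ : Measure ℝ, IsFiniteMeasure μ ∧
    Tendsto (fun t : ℝ => ∫ x, ee (t * x) ∂μ) atTop (𝓝 0) ∧
    ∀ j : ℕ, 1 / 4 ≤ ‖∫ x, ee ((nn j : ℝ) * ph x) ∂μ‖ := by
  have hcomp := isCompact_setOfPred_finiteMeasure_le_of_isCompact (E := ℝ) 2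
    (K := J) isCompact_Icc
  let 𝒰 : Ultrafilter ℕ := Filter.hyperfilter ℕ
  have hmem : ∀ k, nuF k ∈ {μ : FiniteMeasure ℝ | μ.mass ≤ 2 ∧ μ Jᶜ = 0} := by
    intro k
    refine ⟨?_, ?_⟩
    · have h1 := nu_mass k
      have h2 : ((nuF k).mass : ℝ) ≤ 2 := h1
      exact_mod_cast h2
    · show ((nu k) Jᶜ).toNNReal = 0
      rw [nu_compl]; rfl
  have hle : (𝒰.map nuF : Filter (FiniteMeasure ℝ)) ≤ 𝓟 {μ : FiniteMeasure ℝ | μ.mass ≤ 2 ∧ μ Jᶜ = 0} := by
    rw [Filter.le_principal_iff]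
    rw [Ultrafilter.mem_coe, Ultrafilter.mem_map]
    exact Filter.univ_mem' hmem
  obtain ⟨μ, -, hμ⟩ := hcomp.ultrafilter_le_nhds (𝒰.map nuF) hle
  have hconv : Tendsto nuF (𝒰 : Filter ℕ) (𝓝 μ) := hμ
  rw [FiniteMeasure.tendsto_iff_forall_integral_rclike_tendsto ℂ] at hconv
  have hcofin : (𝒰 : Filter ℕ) ≤ atTop := by
    rw [← Nat.cofinite_eq_atTop]; exact Filter.hyperfilter_le_cofinite
  have hexp : ∀ f : ℝ → ℝ, Continuous f →
      Tendsto (fun k => ∫ x, ee (f x) * G (LL k) x) (𝒰 : Filter ℕ) (𝓝 (∫ x, ee (f x) ∂(μ : Measure ℝ))) := by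
    intro f hf
    have h := hconv (BoundedContinuousFunction.ofNormedAddCommGroup (fun x => ee (f x))
      (ee_continuous.comp hf) 1 (fun x => (ee_norm _).le))
    refine h.congr fun k => ?_
    exact nu_int k _
  refine ⟨μ, inferInstance, ?_, ?_⟩
  · rw [Metric.tendsto_atTop]
    intro ε hε
    obtain ⟨k, hk⟩ : ∃ k : ℕ, ((1 : ℝ) / 2) ^ (k + 3) < ε / 2 := by
      obtain ⟨k, hk⟩ := exists_pow_lt_of_lt_one (show (0 : ℝ) < ε / 2 by positivity)
        (show (1 : ℝ) / 2 < 1 by norm_num)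
      refine ⟨k, lt_of_le_of_lt ?_ hk⟩
      exact pow_le_pow_of_le_one (by norm_num) (by norm_num) (by omega)
    have h1 := RL (G (LL k))
    rw [Metric.tendsto_atTop] at h1
    obtain ⟨N, hN⟩ := h1 (ε / 2) (by positivity)
    refine ⟨N, fun t ht => ?_⟩
    have h2 := hN t ht
    rw [dist_zero_right] at h2 ⊢
    have h3 : ‖(∫ x, ee (t * x) ∂(μ : Measure ℝ)) - FT k t‖ ≤ (1 / 2) ^ (k + 3) := by
      have h4 : Tendsto (fun l => ‖FT l t - FT k t‖) (𝒰 : Filter ℕ)
          (𝓝 ‖(∫ x, ee (t * x) ∂(μ : Measure ℝ)) - FT k t‖) :=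
        ((hexp (fun x => t * x) (by fun_prop)).sub_const _).norm
      refine le_of_tendsto h4 ?_
      filter_upwards [hcofin (eventually_ge_atTop k)] with l hl
      exact FT_far k l hl t
    have h5 : FT k t = ∫ x, ee (t * x) * G (LL k) x := rfl
    calc ‖∫ x, ee (t * x) ∂(μ : Measure ℝ)‖
        = ‖((∫ x, ee (t * x) ∂(μ : Measure ℝ)) - FT k t) + FT k t‖ := by rw [sub_add_cancel]
      _ ≤ ‖(∫ x, ee (t * x) ∂(μ : Measure ℝ)) - FT k t‖ + ‖FT k t‖ := norm_add_le _ _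
      _ < ε / 2 + ε / 2 := by
        have h6 : ‖FT k t‖ < ε / 2 := by rw [h5]; exact h2
        have h7 := h3.trans_lt hk
        linarith
      _ = ε := by ring
  · intro j
    have h4 : Tendsto (fun l => ‖PT j l‖) (𝒰 : Filter ℕ)
        (𝓝 ‖∫ x, ee ((nn j : ℝ) * ph x) ∂(μ : Measure ℝ)‖) :=
      (hexp (fun x => (nn j : ℝ) * ph x) (by have := ph_continuous; fun_prop)).norm
    refine ge_of_tendsto h4 ?_
    filter_upwards [hcofin (eventually_gt_atTop j)] with l hl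
    exact PT_low j l hl

end

end Pool.Agent.Y265.Raj
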